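import Mathlib

-- part Pool.Agent.P.MP_25cc86_al.Words
section

/-! Lyndon words and the unavoidability of the patterns `u u`, `u v u` with `u`, `v` Lyndon. -/

set_option linter.unusedSectionVars false

namespace Pool.Agent.P.MP_25cc86_al

variable {A : Type*} [LinearOrder A]

/-- `u` is smaller than `v` at the first position where they differ. -/
def Lt (u v : List A) : Prop :=
  ∃ (p : List A) (a b : A) (s t : List A), u = p ++ a :: s ∧ v = p ++ b :: t ∧ a < b

theorem Lt.append {u v : List A} (h : Lt u v) (α β : List A) : Lt (u ++ α) (v ++ β) := by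
  obtain ⟨p, a, b, s, t, rfl, rfl, hab⟩ := h
  exact ⟨p, a, b, s ++ α, t ++ β, by simp, by simp, hab⟩

theorem Lt.left {u v : List A} (h : Lt u v) (q : List A) : Lt (q ++ u) (q ++ v) := by
  obtain ⟨p, a, b, s, t, rfl, rfl, hab⟩ := h
  exact ⟨q ++ p, a, b, s, t, by simp, by simp, hab⟩

theorem lt_cons_iff {x y : A} {u v : List A} :
    Lt (x :: u) (y :: v) ↔ x < y ∨ (x = y ∧ Lt u v) := by
  constructor
  · rintro ⟨p, a, b, s, t, h1, h2, hab⟩
    cases p with
    | nil =>
      simp only [List.nil_append, List.cons.injEq] at h1 h2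
      left; rw [h1.1, h2.1]; exact hab
    | cons c p =>
      simp only [List.cons_append, List.cons.injEq] at h1 h2
      right
      exact ⟨h1.1.trans h2.1.symm, p, a, b, s, t, h1.2, h2.2, hab⟩
  · rintro (h | ⟨rfl, h⟩)
    · exact ⟨[], x, y, u, v, rfl, rfl, h⟩
    · exact h.left [x]

theorem not_lt_nil_left (v : List A) : ¬ Lt [] v := by
  rintro ⟨p, a, b, s, t, h1, -, -⟩
  simp at h1

theorem not_lt_nil_right (v : List A) : ¬ Lt v [] := by
  rintro ⟨p, a, b, s, t, -, h1, -⟩
  simp at h1

theorem Lt.trans {u v w : List A} (h1 : Lt u v) (h2 : Lt v w) : Lt u w := by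
  induction u generalizing v w with
  | nil => exact absurd h1 (not_lt_nil_left _)
  | cons x u ih =>
    cases v with
    | nil => exact absurd h1 (not_lt_nil_right _)
    | cons y v =>
      cases w with
      | nil => exact absurd h2 (not_lt_nil_right _)
      | cons z w =>
        rw [lt_cons_iff] at h1 h2 ⊢
        rcases h1 with h1 | ⟨rfl, h1⟩ <;> rcases h2 with h2 | ⟨rfl, h2⟩
        · exact Or.inl (h1.trans h2)
        · exact Or.inl h1
        · exact Or.inl h2
        · exact Or.inr ⟨rfl, ih h1 h2⟩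

theorem Lt.irrefl (u : List A) : ¬ Lt u u := by
  induction u with
  | nil => exact not_lt_nil_left _
  | cons x u ih =>
    rw [lt_cons_iff]
    rintro (h | ⟨-, h⟩)
    · exact lt_irrefl _ h
    · exact ih h

theorem Lt.of_left {q u v : List A} (h : Lt (q ++ u) (q ++ v)) : Lt u v := by
  induction q with
  | nil => exact h
  | cons x q ih =>
    rw [List.cons_append, List.cons_append, lt_cons_iff] at h
    rcases h with h | ⟨-, h⟩
    · exact absurd h (lt_irrefl _)
    · exact ih h

theorem lt_trich (u v : List A) :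
    Lt u v ∨ Lt v u ∨ (∃ s, v = u ++ s) ∨ (∃ s, u = v ++ s) := by
  induction u generalizing v with
  | nil => exact Or.inr (Or.inr (Or.inl ⟨v, rfl⟩))
  | cons x u ih =>
    cases v with
    | nil => exact Or.inr (Or.inr (Or.inr ⟨_, rfl⟩))
    | cons y v =>
      rcases lt_trichotomy x y with h | rfl | h
      · exact Or.inl (lt_cons_iff.2 (Or.inl h))
      · rcases ih v with h | h | ⟨s, rfl⟩ | ⟨s, rfl⟩
        · exact Or.inl (lt_cons_iff.2 (Or.inr ⟨rfl, h⟩))
        · exact Or.inr (Or.inl (lt_cons_iff.2 (Or.inr ⟨rfl, h⟩)))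
        · exact Or.inr (Or.inr (Or.inl ⟨s, rfl⟩))
        · exact Or.inr (Or.inr (Or.inr ⟨s, rfl⟩))
      · exact Or.inr (Or.inl (lt_cons_iff.2 (Or.inl h)))

/-- Lyndon words: nonempty and smaller than each proper nonempty final segment. -/
def Lyn (w : List A) : Prop :=
  w ≠ [] ∧ ∀ u v : List A, w = u ++ v → u ≠ [] → v ≠ [] → Lt w v

theorem lyn_single (a : A) : Lyn [a] := by
  refine ⟨by simp, fun u v h hu hv => ?_⟩
  have := congrArg List.length h
  have h1 := List.length_pos_iff.2 hu
  have h2 := List.length_pos_iff.2 hv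
  simp at this
  omega

/-- A Lyndon word of length at least two is a product of two Lyndon words. -/
theorem Lyn.split {w : List A} (hw : Lyn w) (h2 : 2 ≤ w.length) :
    ∃ u v : List A, Lyn u ∧ Lyn v ∧ w = u ++ v := by
  classical
  -- choose the longest cut `v` among those that no other cut precedes
  have key : ∀ n : ℕ, ∀ u v : List A, w = u ++ v → u ≠ [] → v ≠ [] →
      (Finset.filter (fun i => Lt (w.drop i) v ∨ ∃ s, s ≠ [] ∧ v = w.drop i ++ s)
        (Finset.Ioo 0 w.length)).card ≤ n →
      ∃ u v : List A, w = u ++ v ∧ u ≠ [] ∧ v ≠ [] ∧ ∀ u' v' : List A, w = u' ++ v' → u' ≠ [] →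
        v' ≠ [] → ¬ Lt v' v ∧ ∀ s, s ≠ [] → v ≠ v' ++ s := by
    intro n
    induction n with
    | zero =>
      intro u v h hu hv hc
      refine ⟨u, v, h, hu, hv, fun u' v' h' hu' hv' => ?_⟩
      rw [Nat.le_zero, Finset.card_eq_zero, Finset.filter_eq_empty_iff] at hc
      have hmem : u'.length ∈ Finset.Ioo 0 w.length := by
        have h1 := List.length_pos_iff.2 hu'
        have h2 := List.length_pos_iff.2 hv'
        rw [Finset.mem_Ioo, h', List.length_append]; omega
      have := hc hmem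
      rw [h', List.drop_left] at this
      push Not at this
      exact this
    | succ n ih =>
      intro u v h hu hv hc
      by_cases hh : ∀ u' v' : List A, w = u' ++ v' → u' ≠ [] →
        v' ≠ [] → ¬ Lt v' v ∧ ∀ s, s ≠ [] → v ≠ v' ++ s
      · exact ⟨u, v, h, hu, hv, hh⟩
      · push Not at hh
        obtain ⟨u', v', h', hu', hv', hlt⟩ := hh
        have hlt' : Lt v' v ∨ ∃ s, s ≠ [] ∧ v = v' ++ s := by
          by_cases h0 : Lt v' v
          · exact Or.inl h0
          · exact Or.inr (hlt h0)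
        refine ih u' v' h' hu' hv' ?_
        refine Nat.le_of_lt_succ (lt_of_lt_of_le (Finset.card_lt_card ?_) hc)
        rw [Finset.ssubset_iff_of_subset]
        · refine ⟨u'.length, ?_, ?_⟩
          · rw [Finset.mem_filter]
            have h1 := List.length_pos_iff.2 hu'
            have h2 := List.length_pos_iff.2 hv'
            refine ⟨by rw [Finset.mem_Ioo, h', List.length_append]; omega, ?_⟩
            rw [h', List.drop_left]; exact hlt'
          · rw [Finset.mem_filter, h', List.drop_left]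
            rintro ⟨-, h0 | ⟨s, hs, h0⟩⟩
            · exact Lt.irrefl _ h0
            · exact hs (by simpa using h0)
        · intro i hi
          rw [Finset.mem_filter] at hi ⊢
          refine ⟨hi.1, ?_⟩
          rcases hi.2 with h0 | ⟨s, hs, h0⟩ <;> rcases hlt' with h1 | ⟨s', hs', h1⟩
          · exact Or.inl (h0.trans h1)
          · left; rw [h1]; simpa using h0.append [] s'
          · rcases lt_trich (w.drop i) v with h3 | h3 | ⟨t, h3⟩ | ⟨t, h3⟩
            · exact Or.inl h3
            · exfalso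
              have := h3.append [] s
              rw [List.append_nil, ← h0] at this
              exact Lt.irrefl _ (this.trans h1)
            · right
              refine ⟨t, ?_, h3⟩
              rintro rfl
              rw [List.append_nil] at h3
              rw [h0, ← h3] at h1
              have := (show Lt (v ++ s) (v ++ []) by simpa using h1).of_left
              exact not_lt_nil_right _ this
            · exfalso
              rw [h0, h3, List.append_assoc] at h1
              have := (show Lt (v ++ (t ++ s)) (v ++ []) by simpa using h1).of_left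
              exact not_lt_nil_right _ this
          · right
            exact ⟨s ++ s', by simp [hs], by rw [h1, h0, List.append_assoc]⟩
  obtain ⟨a, w', rfl⟩ := List.exists_cons_of_ne_nil hw.1
  have hw' : w' ≠ [] := by rintro rfl; simp at h2
  obtain ⟨u, v, h, hu, hv, hmin⟩ := key _ [a] w' rfl (by simp) hw' le_rfl
  refine ⟨u, v, ⟨hu, ?_⟩, ⟨hv, ?_⟩, h⟩
  · intro u1 u2 h1 hu1 hu2
    have hlt : Lt (u ++ v) (u2 ++ v) := by
      rw [← h]
      exact hw.2 u1 (u2 ++ v) (by rw [h, h1, List.append_assoc]) hu1 (by simp [hu2])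
    rcases lt_trich u u2 with h3 | h3 | ⟨t, h3⟩ | ⟨t, h3⟩
    · exact h3
    · exact absurd (hlt.trans (h3.append v v)) (Lt.irrefl _)
    · exfalso
      have := congrArg List.length h3
      have h4 := List.length_pos_iff.2 hu1
      rw [h1] at this
      simp at this; omega
    · exfalso
      rw [h3, List.append_assoc] at hlt
      have h5 := hlt.of_left
      refine (hmin u2 (t ++ v) (by rw [h, h3, List.append_assoc]) hu2 (by simp [hv])).1 h5
  · intro v1 v2 h1 hv1 hv2
    have hm := hmin (u ++ v1) v2 (by rw [h, h1, List.append_assoc]) (by simp [hu]) hv2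
    have hlen : v2.length < v.length := by
      have h4 := List.length_pos_iff.2 hv1
      rw [h1]; simp; omega
    rcases lt_trich v v2 with h3 | h3 | ⟨t, h3⟩ | ⟨t, h3⟩
    · exact h3
    · exact absurd h3 hm.1
    · exfalso
      have := congrArg List.length h3
      simp at this; omega
    · exfalso
      refine hm.2 t ?_ h3
      rintro rfl
      rw [List.append_nil] at h3
      rw [h3] at hlen
      exact lt_irrefl _ hlen

/-- `w` contains `u u` or `u v u` with `u`, `v` Lyndon. -/
def Pat (w : List A) : Prop :=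
  ∃ α u v β : List A, w = α ++ (u ++ v ++ u) ++ β ∧ Lyn u ∧ (v = [] ∨ Lyn v)

/-- The factor of length `m` of the sequence `ν` starting at position `q`. -/
def seg (ν : ℕ → A) (q m : ℕ) : List A := (List.range m).map fun i => ν (q + i)

theorem seg_length (ν : ℕ → A) (q m : ℕ) : (seg ν q m).length = m := by simp [seg]

theorem seg_add (ν : ℕ → A) (q m k : ℕ) :
    seg ν q (m + k) = seg ν q m ++ seg ν (q + m) k := by
  simp [seg, List.range_add, Nat.add_assoc]

theorem seg_one (ν : ℕ → A) (q : ℕ) : seg ν q 1 = [ν q] := by simp [seg]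

theorem seg_congr {ν : ℕ → A} {q q' m : ℕ} (h : ∀ i < m, ν (q + i) = ν (q' + i)) :
    seg ν q m = seg ν q' m := by
  unfold seg
  exact List.map_congr_left fun i hi => h i (List.mem_range.1 hi)

theorem seg_eq {ν : ℕ → A} {q q' m : ℕ} (h : seg ν q m = seg ν q' m) :
    ∀ i < m, ν (q + i) = ν (q' + i) := by
  intro i hi
  have := List.map_inj_left.1 h i (List.mem_range.2 hi)
  exact this

theorem seq_pat (ν : ℕ → A) [Finite A]
    (hmin : ∀ q i, (∀ j < i, ν (q + j) = ν j) → ν i ≤ ν (q + i))
    (hrec : ∀ m, ∃ q, 1 ≤ q ∧ ∀ j < m, ν (q + j) = ν j) :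
    ∃ q m, Pat (seg ν q m) := by
  classical
  -- unbordered initial segments are Lyndon
  let Bd : ℕ → Prop := fun p => ∀ i, 1 ≤ i → i < p → ¬ ∀ j < i, ν (p - i + j) = ν j
  have hlyn : ∀ p, 1 ≤ p → Bd p → Lyn (seg ν 0 p) := by
    intro p hp hb
    refine ⟨fun h => by have := seg_length ν 0 p; rw [h] at this; simp at this; omega, ?_⟩
    intro u v h hu hv
    have h1 := List.length_pos_iff.2 hu
    have h2 := List.length_pos_iff.2 hv
    have hl : u.length + v.length = p := by rw [← List.length_append, ← h, seg_length]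
    have hv' : v = seg ν u.length v.length := by
      have := seg_add ν 0 u.length v.length
      rw [hl, h, Nat.zero_add] at this
      exact (List.append_inj this (by rw [seg_length])).2
    have hex : ∃ j, j < v.length ∧ ν (u.length + j) ≠ ν j := by
      have := hb v.length h2 (by omega)
      push Not at this
      obtain ⟨j, hj, hne⟩ := this
      exact ⟨j, hj, by rwa [show p - v.length = u.length by omega] at hne⟩
    let j := Nat.find hex
    have hj : j < v.length ∧ ν (u.length + j) ≠ ν j := Nat.find_spec hex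
    have hj' : ∀ i < j, ν (u.length + i) = ν i := fun i hi => by
      have := Nat.find_min hex hi
      push Not at this
      exact this (hi.trans hj.1)
    refine ⟨seg ν 0 j, ν j, ν (u.length + j), seg ν (j + 1) (p - (j + 1)),
      seg ν (u.length + j + 1) (v.length - (j + 1)), ?_, ?_, lt_of_le_of_ne (hmin _ _ hj') hj.2.symm⟩
    · rw [show p = j + (1 + (p - (j + 1))) by omega, seg_add, seg_add, seg_one]
      simp only [Nat.zero_add, List.singleton_append]
      congr 3; omega
    · conv_lhs => rw [hv', show v.length = j + (1 + (v.length - (j + 1))) by omega, seg_add,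
        seg_add, seg_one]
      rw [seg_congr (q' := 0) (by simpa using hj')]
      simp
  -- every letter following an unbordered initial segment does so early
  have hJ : ∃ J, ∀ p, 1 ≤ p → Bd p → ∃ p', 1 ≤ p' ∧ p' ≤ J ∧ Bd p' ∧ ν p' = ν p := by
    have : ∀ a : A, ∃ J, (∃ p, 1 ≤ p ∧ Bd p ∧ ν p = a) → (1 ≤ J ∧ Bd J ∧ ν J = a) := by
      intro a
      by_cases h : ∃ p, 1 ≤ p ∧ Bd p ∧ ν p = a
      · obtain ⟨p, hp⟩ := h
        exact ⟨p, fun _ => hp⟩
      · exact ⟨0, fun h' => absurd h' h⟩
    choose f hf using this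
    obtain ⟨J, hJ⟩ := (Set.finite_range f).bddAbove
    refine ⟨J, fun p hp hb => ?_⟩
    have := hf (ν p) ⟨p, hp, hb, rfl⟩
    exact ⟨f (ν p), this.1, hJ ⟨_, rfl⟩, this.2⟩
  obtain ⟨J, hJ⟩ := hJ
  let q := Nat.find (hrec (J + 1))
  have hq : 1 ≤ q ∧ ∀ j < J + 1, ν (q + j) = ν j := Nat.find_spec (hrec (J + 1))
  have hqmin : ∀ q' < q, 1 ≤ q' → ¬ ∀ j < J + 1, ν (q' + j) = ν j := fun q' h1 h2 h3 =>
    Nat.find_min (hrec (J + 1)) h1 ⟨h2, h3⟩
  by_cases hq1 : q = 1
  · refine ⟨0, 2, [], [ν 0], [], [], ?_, lyn_single _, Or.inl rfl⟩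
    have := hq.2 0 (by omega)
    rw [hq1] at this
    simp [seg, List.range_succ, this]
  have hq2 : 1 ≤ q - 1 := by omega
  by_cases hb : Bd (q - 1)
  · obtain ⟨p, hp1, hpJ, hpb, hpe⟩ := hJ _ hq2 hb
    refine ⟨q - 1, 1 + (p + 1), [], [ν p], seg ν 0 p, [], ?_, lyn_single _,
      Or.inr (hlyn p hp1 hpb)⟩
    rw [seg_add, seg_add, seg_one, seg_one, show q - 1 + 1 = q by omega, hq.2 p (by omega),
      seg_congr (q := q) (q' := 0) (m := p) (fun i hi => by simpa using hq.2 i (by omega)), hpe]
    simp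
  · have hex : ∃ i, 1 ≤ i ∧ i < q - 1 ∧ ∀ j < i, ν (q - 1 - i + j) = ν j := by
      by_contra hc
      exact hb fun i h1 h2 h3 => hc ⟨i, h1, h2, h3⟩
    let i := Nat.find hex
    have hi : 1 ≤ i ∧ i < q - 1 ∧ ∀ j < i, ν (q - 1 - i + j) = ν j := Nat.find_spec hex
    have hib : Bd i := by
      intro i' h1 h2 h3
      refine Nat.find_min hex h2 ⟨h1, h2.trans hi.2.1, fun j hj => ?_⟩
      rw [← h3 j hj, ← hi.2.2 (i - i' + j) (by omega)]
      congr 1; omega
    have hiJ : i ≤ J + 1 := by
      by_contra hc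
      exact hqmin (q - 1 - i) (by omega) (by omega) fun j hj => hi.2.2 j (by omega)
    refine ⟨q - 1 - i, i + (1 + i), [], seg ν 0 i, [ν (q - 1)], [], ?_, hlyn i hi.1 hib,
      Or.inr (lyn_single _)⟩
    rw [seg_add, seg_add, seg_one, show q - 1 - i + i = q - 1 by omega,
      show q - 1 + 1 = q by omega,
      seg_congr (q := q) (q' := 0) (m := i) (fun j hj => by simpa using hq.2 j (by omega)),
      seg_congr (q := q - 1 - i) (q' := 0) (m := i) (fun j hj => by simpa using hi.2.2 j hj)]
    simp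

end Pool.Agent.P.MP_25cc86_al
end

-- part Pool.Agent.P.MP_25cc86_al.Unavoid
section

/-! Every long word over a finite ordered alphabet contains `u u` or `u v u`, `u, v` Lyndon. -/

namespace Pool.Agent.P.MP_25cc86_al

variable {A : Type*} [LinearOrder A]

theorem Pat.mid {w : List A} (h : Pat w) (α β : List A) : Pat (α ++ w ++ β) := by
  obtain ⟨α', u, v, β', rfl, hu, hv⟩ := h
  exact ⟨α ++ α', u, v, β' ++ β, by simp, hu, hv⟩

/-- Factor closed families of pattern free words with words of every length. -/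
def Lang (S : Set (List A)) : Prop :=
  (∀ w ∈ S, ¬ Pat w) ∧ (∀ α w β : List A, α ++ w ++ β ∈ S → w ∈ S) ∧
    ∀ m, ∃ w ∈ S, w.length = m

theorem exists_min_lang [Finite A] (S0 : Set (List A)) (h0 : Lang S0) :
    ∃ S : Set (List A), Lang S ∧ ∀ T, Lang T → T ⊆ S → S ⊆ T := by
  obtain ⟨S, -, hS⟩ := zorn_superset_nonempty {S : Set (List A) | Lang S} (fun c hc hchain hne => by
    refine ⟨⋂₀ c, ⟨?_, ?_, ?_⟩, fun s hs => Set.sInter_subset_of_mem hs⟩
    · obtain ⟨T, hT⟩ := hne
      exact fun w hw => (hc hT).1 w (hw T hT)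
    · exact fun α w β hw T hT => (hc hT).2.1 α w β (hw T hT)
    · intro m
      have hfin : ∀ T : Set (List A), (T ∩ {w | w.length = m}).Finite := fun T =>
        (List.finite_length_eq A m).subset Set.inter_subset_right
      obtain ⟨T, hT, hTmin⟩ := (wellFounded_lt (α := ℕ)).has_min
        ((fun T : Set (List A) => (T ∩ {w | w.length = m}).ncard) '' c) (hne.image _)
      obtain ⟨T, hT, rfl⟩ := hT
      obtain ⟨w, hw, hwm⟩ := (hc hT).2.2 m
      refine ⟨w, fun U hU => ?_, hwm⟩
      rcases hchain.total hT hU with h | h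
      · exact h hw
      · have h1 : U ∩ {w | w.length = m} ⊆ T ∩ {w | w.length = m} :=
          Set.inter_subset_inter_left _ h
        have h2 := not_lt.1 (hTmin _ ⟨U, hU, rfl⟩)
        have h3 := Set.eq_of_subset_of_ncard_le h1 h2 (hfin T)
        have : w ∈ U ∩ {w | w.length = m} := by rw [h3]; exact ⟨hw, hwm⟩
        exact this.1) S0 h0
  exact ⟨S, hS.prop, fun T hT hTS => hS.le_of_le hT hTS⟩

theorem exists_pat [Finite A] : ∃ N, ∀ w : List A, w.length = N → Pat w := by
  classical
  by_contra hc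
  push Not at hc
  obtain ⟨S, hS, hSmin⟩ := exists_min_lang {w : List A | ¬ Pat w}
    ⟨fun w hw => hw, fun α w β hw h => hw (h.mid α β), fun m => by
      obtain ⟨w, h1, h2⟩ := hc m
      exact ⟨w, h2, h1⟩⟩
  -- uniform recurrence
  have hur : ∀ w ∈ S, ∃ g, ∀ v ∈ S, v.length = g → ∃ α β, v = α ++ w ++ β := by
    intro w hw
    by_contra hg
    push Not at hg
    have : Lang {v | v ∈ S ∧ ∀ α β, v ≠ α ++ w ++ β} := by
      refine ⟨fun v hv => hS.1 v hv.1, fun α v β hv => ⟨hS.2.1 α v β hv.1, ?_⟩, fun m => ?_⟩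
      · intro α' β' h
        exact hv.2 (α ++ α') (β' ++ β) (by rw [h]; simp)
      · obtain ⟨v, h1, h2, h3⟩ := hg m
        exact ⟨v, ⟨h1, h3⟩, h2⟩
    exact (hSmin _ this (fun v hv => hv.1) hw).2 [] [] (by simp)
  have hext : ∀ w ∈ S, ∀ k, ∃ β : List A, β.length = k ∧ w ++ β ∈ S := by
    intro w hw k
    obtain ⟨g, hg⟩ := hur w hw
    obtain ⟨v, hv, hvl⟩ := hS.2.2 (g + k)
    have h1 : v.take g ∈ S := hS.2.1 [] _ (v.drop g) (by simpa using hv)
    obtain ⟨α, β, h2⟩ := hg _ h1 (by simp [hvl])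
    have h3 : v = α ++ w ++ (β ++ v.drop g) := by
      conv_lhs => rw [← List.take_append_drop g v, h2]
      simp
    refine ⟨(β ++ v.drop g).take k, by simp [hvl], ?_⟩
    refine hS.2.1 α _ ((β ++ v.drop g).drop k) ?_
    rw [List.append_assoc, List.append_assoc, List.take_append_drop, ← List.append_assoc, ← h3]
    exact hv
  -- least words of each length
  have hleast : ∀ m, ∃ w ∈ S, w.length = m ∧ ∀ v ∈ S, v.length = m → ¬ Lt v w := by
    intro m
    have hfin : (S ∩ {w | w.length = m}).Finite :=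
      (List.finite_length_eq A m).subset Set.inter_subset_right
    haveI := hfin.to_subtype
    haveI : IsTrans (S ∩ {w | w.length = m} : Set (List A)) (fun a b => Lt a.1 b.1) :=
      ⟨fun _ _ _ h1 h2 => h1.trans h2⟩
    haveI : Std.Irrefl (fun a b : (S ∩ {w | w.length = m} : Set (List A)) => Lt a.1 b.1) :=
      ⟨fun a => Lt.irrefl _⟩
    have hwf := Finite.wellFounded_of_trans_of_irrefl
      (fun a b : (S ∩ {w | w.length = m} : Set (List A)) => Lt a.1 b.1)
    obtain ⟨w0, hw0, hw0l⟩ := hS.2.2 m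
    obtain ⟨w, -, hw⟩ := hwf.has_min Set.univ ⟨⟨w0, hw0, hw0l⟩, trivial⟩
    exact ⟨w.1, w.2.1, w.2.2, fun v hv hvl => hw ⟨v, hv, hvl⟩ trivial⟩
  choose π hπS hπl hπmin using hleast
  have hstep : ∀ m, ∃ a, π (m + 1) = π m ++ [a] := by
    intro m
    have hne : π (m + 1) ≠ [] := fun h => by have := hπl (m + 1); rw [h] at this; simp at this
    have h1 := List.dropLast_append_getLast hne
    refine ⟨(π (m + 1)).getLast hne, ?_⟩
    have h2 : (π (m + 1)).dropLast ∈ S :=
      hS.2.1 [] _ [(π (m + 1)).getLast hne] (by rw [List.nil_append, h1]; exact hπS _)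
    have h3 : (π (m + 1)).dropLast.length = m := by simp [hπl]
    obtain ⟨β, hβ, hβS⟩ := hext _ (hπS m) 1
    rcases lt_trich (π (m + 1)).dropLast (π m) with h | h | ⟨s, h⟩ | ⟨s, h⟩
    · exact absurd h (hπmin m _ h2 h3)
    · have := h.append β [(π (m + 1)).getLast hne]
      rw [h1] at this
      exact absurd this (hπmin (m + 1) _ hβS (by simp [hπl, hβ]))
    · have := congrArg List.length h
      rw [List.length_append, h3, hπl] at this
      have hs : s = [] := List.length_eq_zero_iff.1 (by omega)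
      rw [hs, List.append_nil] at h
      rw [h, h1]
    · have := congrArg List.length h
      rw [List.length_append, h3, hπl] at this
      have hs : s = [] := List.length_eq_zero_iff.1 (by omega)
      rw [hs, List.append_nil] at h
      rw [← h, h1]
  choose ν hν using hstep
  have hπ : ∀ m, π m = seg ν 0 m := by
    intro m
    induction m with
    | zero => rw [List.length_eq_zero_iff.1 (hπl 0)]; simp [seg]
    | succ m ih => rw [hν, ih, seg_add, seg_one, Nat.zero_add]
  have hseg : ∀ q m, seg ν q m ∈ S := fun q m =>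
    hS.2.1 (seg ν 0 q) _ [] (by
      have := seg_add ν 0 q m
      rw [Nat.zero_add] at this
      rw [List.append_nil, ← this, ← hπ]; exact hπS _)
  obtain ⟨q, m, h⟩ := seq_pat ν (fun q i hi => by
    by_contra hlt
    refine hπmin (i + 1) _ (hseg q (i + 1)) (seg_length _ _ _) ?_
    rw [hπ, seg_add, seg_add, seg_one, seg_one, seg_congr (q := q) (q' := 0) (by simpa using hi)]
    exact ⟨seg ν 0 i, _, _, [], [], rfl, rfl, by simpa using not_le.1 hlt⟩) (fun m => by
    obtain ⟨g, hg⟩ := hur _ (hπS m)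
    obtain ⟨α, β, h⟩ := hg _ (hseg 1 g) (seg_length _ _ _)
    have hl := congrArg List.length h
    simp only [seg_length, List.length_append, hπl] at hl
    rw [hl, seg_add, seg_add] at h
    have h1 := (List.append_inj h (by simp [seg_length, hπl])).1
    have h2 := (List.append_inj h1 (by simp [seg_length])).2
    rw [hπ] at h2
    exact ⟨1 + α.length, by omega, fun j hj => by simpa using seg_eq h2 j hj⟩)
  exact hS.1 _ (hseg q m) h

end Pool.Agent.P.MP_25cc86_al
end

-- part Pool.Agent.P.MP_25cc86_al.Sandwich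
section

/-! The rewriting lemma: if squares `p p` and products `p q p` of iterated brackets of finitely
many ring elements lie in a subgroup stable under multiplication by these elements, then so do all
long monomials. -/

set_option linter.unusedSectionVars false

namespace Pool.Agent.P.MP_25cc86_al

variable {A : Type*} {R : Type*} [Ring R]

/-- The monomial of a word. -/
def mon (x : A → R) (w : List A) : R := (w.map x).prod

theorem mon_nil (x : A → R) : mon x [] = 1 := rfl

theorem mon_cons (x : A → R) (a : A) (w : List A) : mon x (a :: w) = x a * mon x w := by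
  simp [mon]

theorem mon_append (x : A → R) (u v : List A) : mon x (u ++ v) = mon x u * mon x v := by
  simp [mon]

/-- Iterated brackets of the elements `x a`. -/
inductive Br (x : A → R) : R → Prop
  | gen (a : A) : Br x (x a)
  | br {p q : R} : Br x p → Br x q → Br x (p * q - q * p)

variable [LinearOrder A]

/-- Span of the monomials of larger words of the same length. -/
def Big (x : A → R) (w : List A) : AddSubgroup R :=
  AddSubgroup.closure {r | ∃ v : List A, v.length = w.length ∧ Lt w v ∧ r = mon x v}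

/-- Span of the monomials of length `n`. -/
def Len (x : A → R) (n : ℕ) : AddSubgroup R :=
  AddSubgroup.closure {r | ∃ v : List A, v.length = n ∧ r = mon x v}

theorem big_le_len (x : A → R) (w : List A) : Big x w ≤ Len x w.length :=
  AddSubgroup.closure_mono fun _ ⟨v, h1, _, h3⟩ => ⟨v, h1, h3⟩

theorem big_mul_len {x : A → R} {u v : List A} {p q : R} (hp : p ∈ Big x u)
    (hq : q ∈ Len x v.length) : p * q ∈ Big x (u ++ v) := by
  induction hp using AddSubgroup.closure_induction with
  | mem p hp =>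
    obtain ⟨u', h1, h2, rfl⟩ := hp
    induction hq using AddSubgroup.closure_induction with
    | mem q hq =>
      obtain ⟨v', h3, rfl⟩ := hq
      exact AddSubgroup.subset_closure
        ⟨u' ++ v', by simp [h1, h3], h2.append _ _, (mon_append _ _ _).symm⟩
    | zero => simp
    | add a b _ _ ha hb => rw [mul_add]; exact add_mem ha hb
    | neg a _ ha => rw [mul_neg]; exact neg_mem ha
  | zero => simp
  | add a b _ _ ha hb => rw [add_mul]; exact add_mem ha hb
  | neg a _ ha => rw [neg_mul]; exact neg_mem ha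

theorem mon_mul_big {x : A → R} (u : List A) {v : List A} {q : R} (hq : q ∈ Big x v) :
    mon x u * q ∈ Big x (u ++ v) := by
  induction hq using AddSubgroup.closure_induction with
  | mem q hq =>
    obtain ⟨v', h3, h4, rfl⟩ := hq
    exact AddSubgroup.subset_closure
      ⟨u ++ v', by simp [h3], h4.left _, (mon_append _ _ _).symm⟩
  | zero => simp
  | add a b _ _ ha hb => rw [mul_add]; exact add_mem ha hb
  | neg a _ ha => rw [mul_neg]; exact neg_mem ha

/-- `p` is the monomial of `w` up to larger monomials. -/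
def Approx (x : A → R) (p : R) (w : List A) : Prop := p - mon x w ∈ Big x w

theorem approx_mon (x : A → R) (w : List A) : Approx x (mon x w) w := by
  simp [Approx]

theorem Approx.mul {x : A → R} {p q : R} {u v : List A} (hp : Approx x p u) (hq : Approx x q v) :
    Approx x (p * q) (u ++ v) := by
  have hq' : q ∈ Len x v.length := by
    have := add_mem (big_le_len x v hq) (AddSubgroup.subset_closure ⟨v, rfl, rfl⟩ :
      mon x v ∈ Len x v.length)
    simpa using this
  have := add_mem (big_mul_len hp hq') (mon_mul_big u hq)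
  unfold Approx
  rw [mon_append]
  convert this using 1
  noncomm_ring

theorem Approx.big {x : A → R} {p : R} {u v : List A} (hp : Approx x p v) (h : Lt u v)
    (hl : v.length = u.length) : p ∈ Big x u := by
  have h1 : Big x v ≤ Big x u := AddSubgroup.closure_mono fun _ ⟨w, h1, h2, h3⟩ =>
    ⟨w, h1.trans hl, h.trans h2, h3⟩
  have := add_mem (h1 hp) (AddSubgroup.subset_closure ⟨v, hl, h, rfl⟩ : mon x v ∈ Big x u)
  simpa using this

theorem Lyn.approx (x : A → R) {w : List A} (hw : Lyn w) : ∃ p, Br x p ∧ Approx x p w := by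
  induction h : w.length using Nat.strong_induction_on generalizing w with
  | _ n ih =>
    by_cases h2 : 2 ≤ w.length
    · obtain ⟨u, v, hu, hv, rfl⟩ := hw.split h2
      have h3 := List.length_pos_iff.2 hu.1
      have h4 := List.length_pos_iff.2 hv.1
      rw [List.length_append] at h
      obtain ⟨p, hp, hpa⟩ := ih u.length (by omega) hu rfl
      obtain ⟨q, hq, hqa⟩ := ih v.length (by omega) hv rfl
      refine ⟨_, hp.br hq, ?_⟩
      have h5 : Lt (u ++ v) (v ++ u) := by simpa using (hw.2 u v rfl hu.1 hv.1).append [] u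
      have h6 := sub_mem (hpa.mul hqa) ((hqa.mul hpa).big h5 (by simp [Nat.add_comm]))
      unfold Approx
      convert h6 using 1
      abel
    · obtain ⟨a, w', rfl⟩ := List.exists_cons_of_ne_nil hw.1
      have : w' = [] := List.length_eq_zero_iff.1 (by rw [List.length_cons] at h2; omega)
      subst this
      exact ⟨x a, Br.gen a, by simp [Approx, mon]⟩

omit [LinearOrder A] in
theorem rewrite [Finite A] (x : A → R) (J : AddSubgroup R)
    (hl : ∀ a, ∀ r ∈ J, x a * r ∈ J) (hr : ∀ a, ∀ r ∈ J, r * x a ∈ J)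
    (h2 : ∀ p, Br x p → p * p ∈ J) (h3 : ∀ p q, Br x p → Br x q → p * q * p ∈ J) :
    ∃ N, ∀ w : List A, w.length = N → mon x w ∈ J := by
  classical
  obtain ⟨n, ⟨e⟩⟩ := Finite.exists_equiv_fin A
  letI : LinearOrder A := LinearOrder.lift' e e.injective
  obtain ⟨N, hN⟩ := exists_pat (A := A)
  refine ⟨N, ?_⟩
  have hml : ∀ (α : List A), ∀ r ∈ J, mon x α * r ∈ J := by
    intro α r hr'
    induction α with
    | nil => simpa [mon_nil] using hr'
    | cons a α ih => rw [mon_cons, mul_assoc]; exact hl _ _ ih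
  have hmr : ∀ (α : List A), ∀ r ∈ J, r * mon x α ∈ J := by
    intro α
    induction α with
    | nil => intro r hr'; simpa [mon_nil] using hr'
    | cons a α ih => intro r hr'; rw [mon_cons, ← mul_assoc]; exact ih _ (hr _ _ hr')
  have : Finite {w : List A // w.length = N} := (List.finite_length_eq A N).to_subtype
  have : IsTrans {w : List A // w.length = N} (fun a b => Lt b.1 a.1) :=
    ⟨fun _ _ _ h1 h2 => h2.trans h1⟩
  have : Std.Irrefl (fun a b : {w : List A // w.length = N} => Lt b.1 a.1) :=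
    ⟨fun a => Lt.irrefl _⟩
  have hwf := Finite.wellFounded_of_trans_of_irrefl
    (fun a b : {w : List A // w.length = N} => Lt b.1 a.1)
  suffices ∀ w : {w : List A // w.length = N}, mon x w.1 ∈ J from fun w hw => this ⟨w, hw⟩
  intro w
  induction w using hwf.induction with
  | _ w ih =>
    have hbig : Big x w.1 ≤ J := (AddSubgroup.closure_le _).2 fun _ ⟨v, h1, h2, h3⟩ =>
      h3 ▸ ih ⟨v, h1.trans w.2⟩ h2
    obtain ⟨α, u, v, β, hw, hu, hv⟩ := hN w.1 w.2
    obtain ⟨p, hp, hpa⟩ := hu.approx x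
    have : ∃ r ∈ J, Approx x r (u ++ v ++ u) := by
      rcases hv with rfl | hv
      · exact ⟨p * p, h2 p hp, by simpa using hpa.mul hpa⟩
      · obtain ⟨q, hq, hqa⟩ := hv.approx x
        exact ⟨p * q * p, h3 p q hp hq, (hpa.mul hqa).mul hpa⟩
    obtain ⟨r, hrJ, hra⟩ := this
    have h4 := ((approx_mon x α).mul hra).mul (approx_mon x β)
    rw [← hw] at h4
    have := sub_mem (hmr β _ (hml α _ hrJ)) (hbig h4)
    simpa using this

end Pool.Agent.P.MP_25cc86_al
end

-- part Pool.Agent.P.MP_25cc86_al.Thick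
section

/-! Sets of involutions closed under conjugation and commutators, and their images in rings of
characteristic two in which the norms of the dihedral subgroups vanish. -/

namespace Pool.Agent.P.MP_25cc86_al

variable {G : Type*} [Group G]

/-- The commutator of two involutions. -/
def cm (a b : G) : G := a * b * (a * b)

/-- A set of elements of order at most two, closed under conjugation and commutators. -/
structure IsC (D : Set G) : Prop where
  sq : ∀ d ∈ D, d * d = 1
  conj : ∀ d ∈ D, ∀ g : G, g⁻¹ * d * g ∈ D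
  comm : ∀ a ∈ D, ∀ b ∈ D, cm a b ∈ D

theorem cancel_sq {a : G} (h : a * a = 1) (g : G) : a * (a * g) = g := by
  rw [← mul_assoc, h, one_mul]

theorem inv_of_sq {a : G} (h : a * a = 1) : a⁻¹ = a := inv_eq_of_mul_eq_one_right h

theorem comm_of_sq {a b : G} (ha : a * a = 1) (hb : b * b = 1) (h : a * b * (a * b) = 1) :
    a * b = b * a := by
  have := inv_of_sq h
  rw [mul_inv_rev, inv_of_sq ha, inv_of_sq hb] at this
  exact this.symm

namespace IsC

variable {D : Set G} (hD : IsC D)
include hD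

theorem conj' {d y : G} (hd : d ∈ D) (hy : y ∈ D) : y * d * y ∈ D := by
  have := hD.conj d hd y
  rwa [inv_of_sq (hD.sq y hy)] at this

theorem mul_cm {a b : G} (ha : a ∈ D) : a * cm a b = b * a * b := by
  simp only [cm, mul_assoc, cancel_sq (hD.sq a ha)]

theorem cm_symm {a b : G} (ha : a ∈ D) (hb : b ∈ D) : cm b a = cm a b := by
  rw [← inv_of_sq (hD.sq _ (hD.comm a ha b hb))]
  simp only [cm, mul_inv_rev, inv_of_sq (hD.sq a ha), inv_of_sq (hD.sq b hb), mul_assoc]

theorem mul_cm_mem {a b : G} (ha : a ∈ D) (hb : b ∈ D) : a * cm a b ∈ D := by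
  rw [hD.mul_cm ha]; exact hD.conj' ha hb

theorem cm_comm_left {a b : G} (ha : a ∈ D) (hb : b ∈ D) : a * cm a b = cm a b * a :=
  comm_of_sq (hD.sq a ha) (hD.sq _ (hD.comm a ha b hb)) (hD.sq _ (hD.mul_cm_mem ha hb))

theorem cm_comm_right {a b : G} (ha : a ∈ D) (hb : b ∈ D) : b * cm a b = cm a b * b := by
  rw [← hD.cm_symm ha hb]; exact hD.cm_comm_left hb ha

theorem swap {a b : G} (ha : a ∈ D) (hb : b ∈ D) : a * b = b * a * cm a b := by
  simp only [cm, mul_assoc, cancel_sq (hD.sq a ha), cancel_sq (hD.sq b hb)]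

theorem cm_eq_one {a b : G} (ha : a ∈ D) (hb : b ∈ D) (h : a * b = b * a) : cm a b = 1 := by
  unfold cm
  conv_lhs => rw [mul_assoc, ← mul_assoc b, ← h]
  simp only [mul_assoc, cancel_sq (hD.sq a ha), hD.sq b hb]

end IsC

section ring

variable {R : Type*} [Ring R] (φ : G →* R)

/-- The image of `g - 1` in characteristic two. -/
def X (g : G) : R := φ g + 1

/-- The standing hypotheses: characteristic two, and vanishing dihedral norms. -/
structure Hyp (D : Set G) : Prop where
  isC : IsC D
  two : ∀ r : R, r + r = 0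
  norm : ∀ a ∈ D, ∀ b ∈ D, X φ a * X φ b * X φ (cm a b) = 0

/-- The span of the `X d`. -/
def LL (D : Set G) : AddSubgroup R := AddSubgroup.closure (X φ '' D)

/-- Thick sandwiches. -/
def Th (D : Set G) : Set R := {σ | σ ∈ LL φ D ∧ σ * σ = 0 ∧ ∀ l ∈ LL φ D, σ * l * σ = 0}

variable {φ} {D : Set G} (H : Hyp φ D)
include H

namespace Hyp

theorem X_one : X φ 1 = 0 := by simp [X, H.two]

theorem X_mul (g h : G) : X φ (g * h) = X φ g * X φ h + X φ g + X φ h := by
  simp only [X, map_mul]
  linear_combination (norm := noncomm_ring) - H.two (φ g) - H.two (φ h) - H.two 1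

theorem X_sq {d : G} (hd : d ∈ D) : X φ d * X φ d = 0 := by
  have := H.X_mul d d
  rw [H.isC.sq d hd, H.X_one] at this
  linear_combination (norm := noncomm_ring) - this - H.two (X φ d)

theorem brk {a d : G} (ha : a ∈ D) (hd : d ∈ D) :
    X φ a * X φ d + X φ d * X φ a =
      X φ (cm a d) + X φ a * X φ (cm a d) + X φ d * X φ (cm a d) := by
  have h1 := H.X_mul a d
  rw [H.isC.swap ha hd, H.X_mul, H.X_mul] at h1
  have h2 := H.norm d hd a ha
  rw [H.isC.cm_symm ha hd] at h2
  linear_combination (norm := noncomm_ring) - h1 + h2 + H.two (X φ d * X φ a)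

theorem sand {a d : G} (ha : a ∈ D) (hd : d ∈ D) :
    X φ a * X φ d * X φ a = X φ a * X φ (cm a d) := by
  linear_combination (norm := noncomm_ring) X φ a * H.brk ha hd + H.norm a ha d hd -
    H.X_sq ha * X φ d + H.X_sq ha * X φ (cm a d)

theorem s_eq (a k : G) : X φ a * X φ k = X φ a + X φ k + X φ (a * k) := by
  linear_combination (norm := noncomm_ring) - H.X_mul a k - H.two (X φ a) - H.two (X φ k)

omit H in
theorem X_mem {d : G} (hd : d ∈ D) : X φ d ∈ LL φ D := AddSubgroup.subset_closure ⟨d, hd, rfl⟩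

theorem s_mem {a d : G} (ha : a ∈ D) (hd : d ∈ D) : X φ a * X φ (cm a d) ∈ LL φ D := by
  rw [H.s_eq]
  exact add_mem (add_mem (X_mem ha) (X_mem (H.isC.comm a ha d hd)))
    (X_mem (H.isC.mul_cm_mem ha hd))

theorem brk_mem {p q : R} (hp : p ∈ LL φ D) (hq : q ∈ LL φ D) : p * q + q * p ∈ LL φ D := by
  induction hp using AddSubgroup.closure_induction with
  | mem p hp =>
    obtain ⟨a, ha, rfl⟩ := hp
    induction hq using AddSubgroup.closure_induction with
    | mem q hq =>
      obtain ⟨d, hd, rfl⟩ := hq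
      rw [H.brk ha hd]
      refine add_mem (add_mem (X_mem (H.isC.comm a ha d hd)) (H.s_mem ha hd)) ?_
      rw [← H.isC.cm_symm ha hd]; exact H.s_mem hd ha
    | zero => simp
    | add a b _ _ ha hb => convert add_mem ha hb using 1; noncomm_ring
    | neg a _ ha => convert neg_mem ha using 1; noncomm_ring
  | zero => simp
  | add a b _ _ ha hb => convert add_mem ha hb using 1; noncomm_ring
  | neg a _ ha => convert neg_mem ha using 1; noncomm_ring

theorem sand_mem {y : G} (hy : y ∈ D) {q : R} (hq : q ∈ LL φ D) : X φ y * q * X φ y ∈ LL φ D := by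
  induction hq using AddSubgroup.closure_induction with
  | mem q hq =>
    obtain ⟨d, hd, rfl⟩ := hq
    rw [H.sand hy hd]; exact H.s_mem hy hd
  | zero => simp
  | add a b _ _ ha hb => convert add_mem ha hb using 1; noncomm_ring
  | neg a _ ha => convert neg_mem ha using 1; noncomm_ring

theorem phi_sq {y : G} (hy : y ∈ D) : φ y * φ y = 1 := by
  rw [← map_mul, H.isC.sq y hy, map_one]

theorem conj_mem {y : G} (hy : y ∈ D) {q : R} (hq : q ∈ LL φ D) : φ y * q * φ y ∈ LL φ D := by
  induction hq using AddSubgroup.closure_induction with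
  | mem q hq =>
    obtain ⟨d, hd, rfl⟩ := hq
    have : φ y * X φ d * φ y = X φ (y * d * y) := by
      simp only [X, map_mul]
      linear_combination (norm := noncomm_ring) H.phi_sq hy
    rw [this]; exact X_mem (H.isC.conj' hd hy)
  | zero => simp
  | add a b _ _ ha hb => convert add_mem ha hb using 1; noncomm_ring
  | neg a _ ha => convert neg_mem ha using 1; noncomm_ring

theorem thick_gen {x y z : G} (hx : x ∈ D) (hy : y ∈ D) (hz : z ∈ D) :
    X φ x * X φ y * X φ x * X φ z * (X φ x * X φ y * X φ x) = 0 := by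
  have hD := H.isC
  obtain ⟨k, hk⟩ : ∃ k, k = cm x z := ⟨_, rfl⟩
  obtain ⟨k0, hk0⟩ : ∃ k0, k0 = cm x y := ⟨_, rfl⟩
  have hkD : k ∈ D := hk ▸ hD.comm x hx z hz
  have hk0D : k0 ∈ D := hk0 ▸ hD.comm x hx y hy
  have hxkD : x * k ∈ D := hk ▸ hD.mul_cm_mem hx hz
  have hxk : x * k = k * x := hk ▸ hD.cm_comm_left hx hz
  have hxk0 : x * k0 = k0 * x := hk0 ▸ hD.cm_comm_left hx hy
  have hxk' : ∀ g, x * (k * g) = k * (x * g) := fun g => by rw [← mul_assoc, hxk, mul_assoc]
  have hxx := cancel_sq (hD.sq x hx)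
  have hyy := cancel_sq (hD.sq y hy)
  have hkk := cancel_sq (hD.sq k hkD)
  have hyx : cm y x = k0 := by rw [hk0, hD.cm_symm hx hy]
  obtain ⟨c, hc⟩ : ∃ c, c = cm y k := ⟨_, rfl⟩
  have hcD : c ∈ D := hc ▸ hD.comm y hy k hkD
  obtain ⟨κ, hκ⟩ : ∃ κ, κ = k * k0 * k := ⟨_, rfl⟩
  have hκD : κ ∈ D := hκ ▸ hD.conj' hk0D hkD
  have e1 : cm x k0 = 1 := hD.cm_eq_one hx hk0D hxk0
  have e2 : cm x (y * k0) = k0 := by
    conv_lhs => rw [← hyx, hD.mul_cm hy]
    rw [← hyx]
    simp only [cm, mul_assoc, hxx]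
  have e3 : cm x (y * c) = κ := by
    rw [hc, hD.mul_cm hy, hκ, hk0]
    simp only [cm, mul_assoc, hxk', hkk]
  have e4 : cm y (x * k) = c * κ := by
    rw [hc, hκ, ← hyx]
    simp only [cm, mul_assoc, hxk', hkk, hyy]
  have e5 : cm x (y * cm y (x * k)) = κ := by
    rw [hD.mul_cm hy, hκ, ← hyx]
    simp only [cm, mul_assoc, hxk', hkk, hxx]
  have hcκD : c * κ ∈ D := e4 ▸ hD.comm y hy _ hxkD
  have hcκ : c * κ = κ * c := comm_of_sq (hD.sq c hcD) (hD.sq κ hκD) (hD.sq _ hcκD)
  have hxκ : x * κ = κ * x := by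
    rw [hκ]; simp only [mul_assoc, hxk']
    rw [← mul_assoc x, hxk0, ← hxk]; simp only [mul_assoc]
  have e6 : cm x (c * κ) = cm x c := by
    unfold cm
    calc x * (c * κ) * (x * (c * κ)) = x * c * ((κ * x) * (c * κ)) := by simp only [mul_assoc]
      _ = x * c * (x * ((κ * c) * κ)) := by rw [← hxκ]; simp only [mul_assoc]
      _ = x * c * (x * c) := by rw [← hcκ]; simp only [mul_assoc, hD.sq κ hκD, mul_one]
  -- ring side
  have r0 : X φ x * X φ z * X φ x = X φ x + X φ k + X φ (x * k) := by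
    rw [H.sand hx hz, ← hk, H.s_eq]
  have r1 : ∀ e ∈ D, X φ x * (X φ y * X φ e * X φ y) * X φ x =
      X φ x * X φ k0 + X φ x * X φ (cm x (cm y e)) + X φ x * X φ (cm x (y * cm y e)) := by
    intro e he
    rw [H.sand hy he, H.s_eq y, hk0, ← H.sand hx hy, ← H.sand hx (hD.comm y hy e he),
      ← H.sand hx (hD.mul_cm_mem hy he)]
    noncomm_ring
  have a1 := r1 x hx
  have a2 := r1 k hkD
  have a3 := r1 _ hxkD
  rw [hyx, e1, e2, H.X_one] at a1
  rw [← hc, e3] at a2
  rw [e5, e4, e6] at a3
  linear_combination (norm := noncomm_ring) X φ x * X φ y * r0 * X φ y * X φ x + a1 + a2 + a3 +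
    H.two (X φ x * X φ k0) + H.two (X φ x * X φ k0) + H.two (X φ x * X φ (cm x c)) +
    H.two (X φ x * X φ κ)

theorem s_th {a d : G} (ha : a ∈ D) (hd : d ∈ D) : X φ a * X φ (cm a d) ∈ Th φ D := by
  refine ⟨H.s_mem ha hd, ?_, ?_⟩
  · rw [← H.sand ha hd]
    linear_combination (norm := noncomm_ring) X φ a * X φ d * H.X_sq ha * X φ d * X φ a
  · intro l hl
    rw [← H.sand ha hd]
    induction hl using AddSubgroup.closure_induction with
    | mem q hq =>
      obtain ⟨z, hz, rfl⟩ := hq
      exact H.thick_gen ha hd hz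
    | zero => simp
    | add a b _ _ ha hb => linear_combination (norm := noncomm_ring) ha + hb
    | neg a _ ha => linear_combination (norm := noncomm_ring) - ha

theorem th_brk {σ τ : R} (hσ : σ ∈ Th φ D) (hτ : τ ∈ Th φ D) : σ * τ + τ * σ ∈ Th φ D := by
  have h1 := hσ.2.2 τ hτ.1
  have h2 := hτ.2.2 σ hσ.1
  refine ⟨H.brk_mem hσ.1 hτ.1, ?_, fun l hl => ?_⟩
  · linear_combination (norm := noncomm_ring) h1 * τ + h2 * σ + σ * hτ.2.1 * σ + τ * hσ.2.1 * τ
  · have h3 := hσ.2.2 _ (H.brk_mem hτ.1 hl)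
    have h4 := hτ.2.2 _ (H.brk_mem hσ.1 hl)
    linear_combination (norm := noncomm_ring) h3 * τ - σ * l * h2 + h4 * σ - τ * l * h1 +
      σ * hτ.2.2 l hl * σ + τ * hσ.2.2 l hl * τ

theorem th_ideal_gen {σ : R} (hσ : σ ∈ Th φ D) {y : G} (hy : y ∈ D) :
    X φ y * σ + σ * X φ y ∈ AddSubgroup.closure (Th φ D) := by
  have h1 : φ y * σ * φ y ∈ Th φ D := by
    refine ⟨H.conj_mem hy hσ.1, ?_, fun l hl => ?_⟩
    · linear_combination (norm := noncomm_ring) φ y * σ * H.phi_sq hy * σ * φ y +
        φ y * hσ.2.1 * φ y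
    · linear_combination (norm := noncomm_ring) φ y * hσ.2.2 _ (H.conj_mem hy hl) * φ y
  have h2 : X φ y * σ * X φ y ∈ Th φ D := by
    refine ⟨H.sand_mem hy hσ.1, ?_, fun l hl => ?_⟩
    · linear_combination (norm := noncomm_ring) X φ y * σ * H.X_sq hy * σ * X φ y
    · linear_combination (norm := noncomm_ring) X φ y * hσ.2.2 _ (H.sand_mem hy hl) * X φ y
  have := add_mem (add_mem (AddSubgroup.subset_closure hσ) (AddSubgroup.subset_closure h1))
    (AddSubgroup.subset_closure h2 : _ ∈ AddSubgroup.closure (Th φ D))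
  convert this using 1
  simp only [X]
  linear_combination (norm := noncomm_ring) - H.two (φ y * σ * φ y)

theorem th_ideal {j l : R} (hj : j ∈ AddSubgroup.closure (Th φ D)) (hl : l ∈ LL φ D) :
    l * j + j * l ∈ AddSubgroup.closure (Th φ D) := by
  induction hj using AddSubgroup.closure_induction with
  | mem σ hσ =>
    induction hl using AddSubgroup.closure_induction with
    | mem q hq =>
      obtain ⟨y, hy, rfl⟩ := hq
      exact H.th_ideal_gen hσ hy
    | zero => simp
    | add a b _ _ ha hb => convert add_mem ha hb using 1; noncomm_ring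
    | neg a _ ha => convert neg_mem ha using 1; noncomm_ring
  | zero => simp
  | add a b _ _ ha hb => convert add_mem ha hb using 1; noncomm_ring
  | neg a _ ha => convert neg_mem ha using 1; noncomm_ring

end Hyp

end ring

end Pool.Agent.P.MP_25cc86_al
end

-- part Pool.Agent.P.MP_25cc86_al.Tzero
section

/-! Nilpotency of the augmentation ideal in rings in which the dihedral norms vanish. -/

namespace Pool.Agent.P.MP_25cc86_al

section general

variable {A : Type*} {R : Type*} [Ring R]

/-- Span of the monomials of length at least `n`. -/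
def Ge (x : A → R) (n : ℕ) : AddSubgroup R :=
  AddSubgroup.closure {r | ∃ v : List A, n ≤ v.length ∧ r = mon x v}

theorem mon_mem_ge (x : A → R) {n : ℕ} {v : List A} (h : n ≤ v.length) : mon x v ∈ Ge x n :=
  AddSubgroup.subset_closure ⟨v, h, rfl⟩

theorem ge_mono (x : A → R) {m n : ℕ} (h : m ≤ n) : Ge x n ≤ Ge x m :=
  AddSubgroup.closure_mono fun _ ⟨v, h1, h2⟩ => ⟨v, h.trans h1, h2⟩

/-- Bilinear induction over two spans. -/
theorem mul_mem_of_closure {S T : Set R} {J : AddSubgroup R} (h : ∀ s ∈ S, ∀ t ∈ T, s * t ∈ J)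
    {p q : R} (hp : p ∈ AddSubgroup.closure S) (hq : q ∈ AddSubgroup.closure T) : p * q ∈ J := by
  induction hp using AddSubgroup.closure_induction with
  | mem p hp =>
    induction hq using AddSubgroup.closure_induction with
    | mem q hq => exact h p hp q hq
    | zero => simp
    | add a b _ _ ha hb => rw [mul_add]; exact add_mem ha hb
    | neg a _ ha => rw [mul_neg]; exact neg_mem ha
  | zero => simp
  | add a b _ _ ha hb => rw [add_mul]; exact add_mem ha hb
  | neg a _ ha => rw [neg_mul]; exact neg_mem ha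

theorem ge_mul {x : A → R} {m n : ℕ} {p q : R} (hp : p ∈ Ge x m) (hq : q ∈ Ge x n) :
    p * q ∈ Ge x (m + n) := by
  refine mul_mem_of_closure ?_ hp hq
  rintro _ ⟨u, hu, rfl⟩ _ ⟨v, hv, rfl⟩
  rw [← mon_append]
  exact mon_mem_ge x (by rw [List.length_append]; omega)

theorem ge_zero_mul {x : A → R} {p q : R} (hp : p ∈ Ge x 0) (hq : q ∈ Ge x 0) :
    p * q ∈ Ge x 0 := ge_mono x (Nat.zero_le _) (ge_mul hp hq)

/-- Span of the products of an element of `E` and a monomial. -/
def JJ (x : A → R) (E : Set R) : AddSubgroup R :=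
  AddSubgroup.closure {r | ∃ t ∈ E, ∃ v : List A, r = t * mon x v}

theorem jj_mul {x : A → R} {E : Set R} {r s : R} (hr : r ∈ JJ x E) (hs : s ∈ Ge x 0) :
    r * s ∈ JJ x E := by
  refine mul_mem_of_closure ?_ hr hs
  rintro _ ⟨t, ht, u, rfl⟩ _ ⟨v, -, rfl⟩
  rw [mul_assoc, ← mon_append]
  exact AddSubgroup.subset_closure ⟨t, ht, _, rfl⟩

theorem mem_jj {x : A → R} {E : Set R} {j : R} (hj : j ∈ AddSubgroup.closure E) :
    j ∈ JJ x E := by
  have : AddSubgroup.closure E ≤ JJ x E :=
    AddSubgroup.closure_mono fun t ht => ⟨t, ht, [], by simp [mon_nil]⟩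
  exact this hj

theorem jj_mono (x : A → R) {F F' : Set R} (h : F ⊆ F') : JJ x F ≤ JJ x F' :=
  AddSubgroup.closure_mono fun _ ⟨t, ht, v, hv⟩ => ⟨t, h ht, v, hv⟩

theorem jj_finite {x : A → R} {E : Set R} {r : R} (hr : r ∈ JJ x E) :
    ∃ F : Set R, F.Finite ∧ F ⊆ E ∧ r ∈ JJ x F := by
  induction hr using AddSubgroup.closure_induction with
  | mem r hr =>
    obtain ⟨t, ht, v, rfl⟩ := hr
    exact ⟨{t}, Set.finite_singleton t, by simpa using ht,
      AddSubgroup.subset_closure ⟨t, rfl, v, rfl⟩⟩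
  | zero => exact ⟨∅, Set.finite_empty, Set.empty_subset _, zero_mem _⟩
  | add a b _ _ ha hb =>
    obtain ⟨F, h1, h2, h3⟩ := ha
    obtain ⟨F', h4, h5, h6⟩ := hb
    exact ⟨F ∪ F', h1.union h4, Set.union_subset h2 h5,
      add_mem (jj_mono x Set.subset_union_left h3) (jj_mono x Set.subset_union_right h6)⟩
  | neg a _ ha =>
    obtain ⟨F, h1, h2, h3⟩ := ha
    exact ⟨F, h1, h2, neg_mem h3⟩

/-- If all monomials of length `N` start, up to linear combinations, with a letter of a second
alphabet whose monomials of length `M` vanish, then long monomials vanish. -/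
theorem two_level {x : A → R} {F : Set R} {N M : ℕ}
    (h1 : ∀ w : List A, w.length = N → mon x w ∈ JJ x F)
    (h2 : ∀ u : List F, u.length = M → mon Subtype.val u = 0) :
    ∀ w : List A, M * N ≤ w.length → mon x w = 0 := by
  have key : ∀ k, ∀ w : List A, k * N ≤ w.length → mon x w ∈ AddSubgroup.closure
      {r | ∃ u : List F, u.length = k ∧ ∃ v : List A, r = mon Subtype.val u * mon x v} := by
    intro k
    induction k with
    | zero => exact fun w _ => AddSubgroup.subset_closure ⟨[], rfl, w, by simp [mon_nil]⟩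
    | succ k ih =>
      intro w hw
      rw [Nat.succ_mul] at hw
      rw [← List.take_append_drop N w, mon_append]
      refine mul_mem_of_closure (T := {mon x (w.drop N)}) ?_
        (h1 (w.take N) (by rw [List.length_take]; omega)) (AddSubgroup.subset_closure rfl)
      rintro _ ⟨t, ht, v, rfl⟩ _ rfl
      rw [mul_assoc, ← mon_append]
      refine mul_mem_of_closure (S := {t}) ?_ (AddSubgroup.subset_closure rfl)
        (ih _ (by rw [List.length_append, List.length_drop]; omega))
      rintro _ rfl _ ⟨u, hu, v', rfl⟩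
      exact AddSubgroup.subset_closure ⟨⟨_, ht⟩ :: u, by simp [hu], v',
        by rw [mon_cons, mul_assoc]⟩
  intro w hw
  have : AddSubgroup.closure
      {r | ∃ u : List F, u.length = M ∧ ∃ v : List A, r = mon Subtype.val u * mon x v} ≤ ⊥ := by
    rw [AddSubgroup.closure_le]
    rintro _ ⟨u, hu, v, rfl⟩
    simp [h2 u hu]
  simpa using this (key M w hw)

end general

variable {G : Type*} [Group G] {R : Type*} [Ring R] {φ : G →* R} {D : Set G} (H : Hyp φ D)
include H

namespace Hyp

theorem sub_eq (p q : R) : p - q = p + q := by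
  linear_combination (norm := noncomm_ring) - H.two q

theorem br_form {A : Type*} {g : A → G} (hg : ∀ a, g a ∈ D) {p : R}
    (hp : Br (fun a => X φ (g a)) p) :
    ∃ d ∈ D, ∃ j ∈ AddSubgroup.closure (Th φ D), p = X φ d + j := by
  have hJ : AddSubgroup.closure (Th φ D) ≤ LL φ D :=
    (AddSubgroup.closure_le _).2 fun t ht => ht.1
  induction hp with
  | gen a => exact ⟨g a, hg a, 0, zero_mem _, by simp⟩
  | br _ _ ihp ihq =>
    obtain ⟨d, hd, j, hj, rfl⟩ := ihp
    obtain ⟨e, he, j', hj', rfl⟩ := ihq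
    have h1 : X φ e * X φ (cm d e) ∈ Th φ D := by
      rw [← H.isC.cm_symm hd he]; exact H.s_th he hd
    refine ⟨cm d e, H.isC.comm d hd e he, _, add_mem (add_mem (add_mem
      (AddSubgroup.subset_closure (H.s_th hd he)) (AddSubgroup.subset_closure h1))
      (H.th_ideal hj' (X_mem hd))) (H.th_ideal hj (add_mem (X_mem he) (hJ hj'))), ?_⟩
    rw [H.sub_eq]
    linear_combination (norm := noncomm_ring) H.brk hd he

theorem X_ge {A : Type*} {g : A → G} (hg : ∀ a, g a ∈ D)
    (hgen : Subgroup.closure (Set.range g) = ⊤) (h : G) :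
    X φ h ∈ Ge (fun a => X φ (g a)) 1 := by
  have hh : h ∈ Subgroup.closure (Set.range g) := hgen ▸ Subgroup.mem_top h
  have hgen1 : ∀ a, X φ (g a) ∈ Ge (fun a => X φ (g a)) 1 := fun a => by
    simpa [mon] using mon_mem_ge (fun a => X φ (g a)) (n := 1) (v := [a]) (by simp)
  induction hh using Subgroup.closure_induction'' with
  | mem y hy => obtain ⟨a, rfl⟩ := hy; exact hgen1 a
  | inv_mem y hy =>
    obtain ⟨a, rfl⟩ := hy
    rw [inv_of_sq (H.isC.sq _ (hg a))]; exact hgen1 a
  | one => rw [H.X_one]; exact zero_mem _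
  | mul y z _ _ hy hz =>
    rw [H.X_mul]
    exact add_mem (add_mem (ge_mono _ (by omega) (ge_mul hy hz)) hy) hz

theorem level_one {A : Type*} [Finite A] {g : A → G} (hg : ∀ a, g a ∈ D)
    (hgen : Subgroup.closure (Set.range g) = ⊤) :
    ∃ N, ∀ w : List A, w.length = N →
      mon (fun a => X φ (g a)) w ∈ JJ (fun a => X φ (g a)) (Th φ D) := by
  set x : A → R := fun a => X φ (g a) with hx
  have hJ : AddSubgroup.closure (Th φ D) ≤ LL φ D :=
    (AddSubgroup.closure_le _).2 fun t ht => ht.1
  have hL : LL φ D ≤ Ge x 0 := (AddSubgroup.closure_le _).2 fun _ ⟨d, _, hd⟩ =>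
    hd ▸ ge_mono _ (by omega) (H.X_ge hg hgen d)
  have hl : ∀ l ∈ LL φ D, ∀ r ∈ JJ x (Th φ D), l * r ∈ JJ x (Th φ D) := by
    intro l hl r hr
    refine mul_mem_of_closure (S := {l}) ?_ (AddSubgroup.subset_closure rfl) hr
    rintro _ rfl _ ⟨t, ht, v, rfl⟩
    have hv : mon x v ∈ Ge x 0 := mon_mem_ge x (Nat.zero_le _)
    have h1 := jj_mul (mem_jj (x := x) (H.th_ideal (AddSubgroup.subset_closure ht) hl)) hv
    have h2 := jj_mul (mem_jj (x := x) (AddSubgroup.subset_closure ht)) (ge_zero_mul (hL hl) hv)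
    convert sub_mem h1 h2 using 1
    noncomm_ring
  refine rewrite x _ (fun a r hr => hl _ (X_mem (hg a)) r hr)
    (fun a r hr => jj_mul hr (hL (X_mem (hg a)))) ?_ ?_
  · intro p hp
    obtain ⟨d, hd, j, hj, rfl⟩ := H.br_form hg hp
    have h1 := hl _ (X_mem hd) _ (mem_jj (x := x) hj)
    have h2 := jj_mul (mem_jj (x := x) hj) (hL (add_mem (X_mem hd) (hJ hj)))
    convert add_mem h1 h2 using 1
    linear_combination (norm := noncomm_ring) H.X_sq hd
  · intro p q hp hq
    obtain ⟨d, hd, j, hj, rfl⟩ := H.br_form hg hp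
    obtain ⟨e, he, j', hj', rfl⟩ := H.br_form hg hq
    have hp' := add_mem (X_mem (φ := φ) hd) (hJ hj)
    have hq' := add_mem (X_mem (φ := φ) he) (hJ hj')
    have h0 := mem_jj (x := x) (AddSubgroup.subset_closure (H.s_th hd he))
    have h1 := hl _ (X_mem hd) _ (jj_mul (mem_jj (x := x) hj') (hL (X_mem hd)))
    have h2 := hl _ (X_mem hd) _ (hl _ hq' _ (mem_jj (x := x) hj))
    have h3 := jj_mul (mem_jj (x := x) hj) (ge_zero_mul (hL hq') (hL hp'))
    convert add_mem (add_mem (add_mem h0 h1) h2) h3 using 1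
    linear_combination (norm := noncomm_ring) H.sand hd he

theorem level_two {F : Set R} (hF : F.Finite) (hFT : F ⊆ Th φ D) :
    ∃ M, ∀ u : List F, u.length = M → mon Subtype.val u = 0 := by
  have := hF.to_subtype
  have hb : ∀ p, Br (Subtype.val : F → R) p → p ∈ Th φ D := by
    intro p hp
    induction hp with
    | gen a => exact hFT a.2
    | br _ _ ihp ihq => rw [H.sub_eq]; exact H.th_brk ihp ihq
  obtain ⟨M, hM⟩ := rewrite (Subtype.val : F → R) ⊥ (by simp) (by simp)
    (fun p hp => (hb p hp).2.1) (fun p q hp hq => (hb p hp).2.2 q (hb q hq).1)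
  exact ⟨M, fun u hu => hM u hu⟩

/-- The augmentation ideal is nilpotent. -/
theorem tzero {A : Type*} [Finite A] {g : A → G} (hg : ∀ a, g a ∈ D)
    (hgen : Subgroup.closure (Set.range g) = ⊤) :
    ∃ K, ∀ l : List G, l.length = K → (l.map (X φ)).prod = 0 := by
  obtain ⟨N, hN⟩ := H.level_one hg hgen
  set x : A → R := fun a => X φ (g a) with hx
  choose F hF1 hF2 hF3 using fun w : {w : List A // w.length = N} => jj_finite (hN w.1 w.2)
  have : Finite {w : List A // w.length = N} := (List.finite_length_eq A N).to_subtype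
  obtain ⟨M, hM⟩ := H.level_two (F := ⋃ w, F w) (Set.finite_iUnion hF1) (Set.iUnion_subset hF2)
  have h3 := two_level (x := x) (N := N) (fun w hw =>
    jj_mono x (Set.subset_iUnion F ⟨w, hw⟩) (hF3 ⟨w, hw⟩)) hM
  refine ⟨M * N, fun l hl => ?_⟩
  have h4 : ∀ l : List G, (l.map (X φ)).prod ∈ Ge x l.length := by
    intro l
    induction l with
    | nil => exact mon_mem_ge x (v := []) le_rfl
    | cons a l ih =>
      rw [List.map_cons, List.prod_cons, List.length_cons, Nat.add_comm]
      exact ge_mul (H.X_ge hg hgen a) ih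
  have h5 : Ge x (M * N) ≤ ⊥ := (AddSubgroup.closure_le _).2 fun _ ⟨v, h1, h2⟩ => by
    simp [h2, h3 v h1]
  simpa using h5 (hl ▸ h4 l)

end Hyp

end Pool.Agent.P.MP_25cc86_al
end

-- part Pool.Agent.P.MP_25cc86_al.Series
section

/-! Facts on the lower central series. -/

namespace Pool.Agent.P.MP_25cc86_al

open Subgroup
open scoped commutatorElement

variable {G : Type*} [Group G]

/-- The terms of the lower central series, indexed from zero. -/
abbrev gam (G : Type*) [Group G] (i : ℕ) : Subgroup G := (⊤ : Subgroup G).lowerCentralSeries i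

theorem gam_succ (i : ℕ) : gam G (i + 1) = ⁅gam G i, ⊤⁆ := rfl

theorem gam_anti {i j : ℕ} (h : i ≤ j) : gam G j ≤ gam G i :=
  Subgroup.lowerCentralSeries_antitone _ h

theorem le_iff_map_bot {H : Subgroup G} (N : Subgroup G) [N.Normal] :
    H ≤ N ↔ H.map (QuotientGroup.mk' N) = ⊥ := by
  rw [Subgroup.map_eq_bot_iff, QuotientGroup.ker_mk']

theorem three_subgroups {A B C N : Subgroup G} [N.Normal] (h1 : ⁅⁅B, C⁆, A⁆ ≤ N)
    (h2 : ⁅⁅C, A⁆, B⁆ ≤ N) : ⁅⁅A, B⁆, C⁆ ≤ N := by
  rw [le_iff_map_bot, map_commutator, map_commutator] at h1 h2 ⊢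
  exact commutator_commutator_eq_bot_of_rotate h1 h2

theorem gam_comm (j : ℕ) : ∀ i, ⁅gam G i, gam G j⁆ ≤ gam G (i + j + 1) := by
  induction j with
  | zero => exact fun i => le_rfl
  | succ j ih =>
    intro i
    rw [commutator_comm, gam_succ j]
    refine three_subgroups ?_ ?_
    · rw [commutator_comm ⊤, ← gam_succ]
      exact (ih (i + 1)).trans (gam_anti (by omega))
    · exact commutator_mono (ih i) le_rfl

theorem comm_le_of_gen {S T : Set G} (L : Subgroup G) [L.Normal]
    (h : ∀ s ∈ S, ∀ t ∈ T, ⁅s, t⁆ ∈ L) : ⁅closure S, closure T⁆ ≤ L := by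
  rw [le_iff_map_bot, map_commutator, MonoidHom.map_closure, MonoidHom.map_closure,
    commutator_eq_bot_iff_le_centralizer, centralizer_closure, closure_le]
  rintro _ ⟨s, hs, rfl⟩ _ ⟨t, ht, rfl⟩
  have := (QuotientGroup.eq_one_iff _).2 (h s hs t ht)
  change QuotientGroup.mk' L _ = 1 at this
  rw [map_commutatorElement, commutatorElement_eq_one_iff_mul_comm] at this
  exact this.symm

theorem IsC.comm_eq {D : Set G} (hD : IsC D) {a b : G} (ha : a ∈ D) (hb : b ∈ D) :
    ⁅a, b⁆ = cm a b := by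
  simp only [commutatorElement_def, cm, inv_of_sq (hD.sq a ha), inv_of_sq (hD.sq b hb), mul_assoc]

theorem IsC.gam_gen {D : Set G} (hD : IsC D) (hgen : closure D = ⊤) (i : ℕ) :
    gam G i ≤ closure (D ∩ gam G i) := by
  induction i with
  | zero => simp [hgen]
  | succ i ih =>
    have hn : (closure (D ∩ gam G (i + 1))).Normal := by
      refine ⟨fun x hx g => ?_⟩
      have : closure (D ∩ gam G (i + 1)) ≤
          (closure (D ∩ gam G (i + 1))).comap (MulAut.conj g).toMonoidHom :=
        (closure_le _).2 fun d hd => subset_closure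
          ⟨by simpa using hD.conj d hd.1 g⁻¹, Normal.conj_mem inferInstance d hd.2 g⟩
      exact this hx
    refine (commutator_mono ih hgen.ge).trans (comm_le_of_gen _ fun s hs t ht => subset_closure
      ⟨?_, commutator_mem_commutator hs.2 (mem_top t)⟩)
    rw [hD.comm_eq hs.1 ht]
    exact hD.comm s hs.1 t ht

theorem IsC.gam_fin {D : Set G} (hD : IsC D) {S : Set G} (hS : S.Finite) (hSD : S ⊆ D)
    (hgen : closure S = ⊤) (i : ℕ) :
    ∃ T : Set G, T.Finite ∧ T ⊆ D ∩ gam G i ∧ gam G i ≤ closure (gam G (i + 1) ∪ T) := by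
  induction i with
  | zero => exact ⟨S, hS, fun s hs => ⟨hSD hs, mem_top s⟩,
      hgen.ge.trans (closure_mono Set.subset_union_right)⟩
  | succ i ih =>
    obtain ⟨T, h1, h2, h3⟩ := ih
    have h4 : Set.image2 (fun t s => ⁅t, s⁆) T S ⊆ D ∩ gam G (i + 1) := by
      rintro _ ⟨t, ht, s, hs, rfl⟩
      refine ⟨?_, commutator_mem_commutator (h2 ht).2 (mem_top s)⟩
      simp only [hD.comm_eq (h2 ht).1 (hSD hs)]
      exact hD.comm t (h2 ht).1 s (hSD hs)
    refine ⟨_, h1.image2 _ hS, h4, ?_⟩
    set L := closure (gam G (i + 1 + 1) ∪ Set.image2 (fun t s => ⁅t, s⁆) T S) with hL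
    have hL1 : L ≤ gam G (i + 1) := (closure_le _).2
      (Set.union_subset (gam_anti (Nat.le_succ _)) fun x hx => (h4 hx).2)
    have hL2 : gam G (i + 1 + 1) ≤ L := fun x hx => subset_closure (Or.inl hx)
    have hn : L.Normal := by
      refine ⟨fun x hx g => ?_⟩
      have := L.mul_mem (L.inv_mem (hL2 (commutator_mem_commutator (hL1 hx) (mem_top g)))) hx
      simpa [commutatorElement_def, mul_assoc] using this
    refine (commutator_mono h3 hgen.ge).trans (comm_le_of_gen _ ?_)
    rintro s (hs | hs) t ht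
    · exact hL2 (commutator_mem_commutator hs (mem_top t))
    · exact subset_closure (Or.inr ⟨s, hs, t, ht, rfl⟩)

theorem finite_of_sq {H : Type*} [Group H] [Group.FG H] (h : ∀ x : H, x * x = 1) : Finite H := by
  let _ : CommGroup H := { ‹Group H› with mul_comm := fun a b => comm_of_sq (h a) (h b) (h _) }
  exact CommGroup.finite_of_fg_isMulTorsion H fun x =>
    isOfFinOrder_iff_pow_eq_one.2 ⟨2, two_pos, by rw [pow_two, h]⟩

theorem IsC.gam_index {D : Set G} (hD : IsC D) {S : Set G} (hS : S.Finite) (hSD : S ⊆ D)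
    (hgen : closure S = ⊤) (i : ℕ) : (gam G i).index ≠ 0 := by
  induction i with
  | zero => simp
  | succ i ih =>
    rw [← relIndex_mul_index (gam_anti (Nat.le_succ i))]
    refine mul_ne_zero ?_ ih
    obtain ⟨T, h1, h2, h3⟩ := hD.gam_fin hS hSD hgen i
    let π := QuotientGroup.mk' (gam G (i + 1))
    have h4 : (gam G i).map π ≤ closure (π '' T) := by
      refine (map_mono h3).trans ?_
      rw [MonoidHom.map_closure, closure_le]
      rintro _ ⟨x, hx | hx, rfl⟩
      · have : π x = 1 := (QuotientGroup.eq_one_iff _).2 hx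
        rw [this]; exact one_mem _
      · exact subset_closure ⟨x, hx, rfl⟩
    have h5 : (gam G i).map π ≤ center _ := by
      rw [← commutator_top_right_eq_bot_iff_le_center,
        ← map_top_of_surjective π (QuotientGroup.mk'_surjective _), ← map_commutator,
        ← le_iff_map_bot]
      exact le_rfl
    have h6 : ∀ z ∈ closure (π '' T), z * z = 1 ∧ z ∈ center _ := by
      intro z hz
      induction hz using closure_induction with
      | mem z hz =>
        obtain ⟨t, ht, rfl⟩ := hz
        exact ⟨by rw [← map_mul, hD.sq t (h2 ht).1, map_one], h5 ⟨t, (h2 ht).2, rfl⟩⟩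
      | one => exact ⟨one_mul _, one_mem _⟩
      | mul a b _ _ ha hb =>
        refine ⟨?_, mul_mem ha.2 hb.2⟩
        rw [mul_assoc, ← mul_assoc b, mem_center_iff.1 ha.2 b, mul_assoc, hb.1, mul_one, ha.1]
      | inv a _ ha => exact ⟨by rw [← mul_inv_rev, ha.1, inv_one], inv_mem ha.2⟩
    have := (h1.image π).to_subtype
    have h7 : Finite (closure (π '' T)) := finite_of_sq fun z => Subtype.ext (h6 z.1 z.2).1
    have h8 : Finite ((gam G i).map π) := Finite.of_injective _ (inclusion_injective h4)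
    conv_lhs => rw [← QuotientGroup.ker_mk' (gam G (i + 1)), relIndex_ker]
    exact Nat.card_pos.ne'

end Pool.Agent.P.MP_25cc86_al
end

-- part Pool.Agent.P.MP_25cc86_al.Modl
section

/-! The abelianizations of the terms of the lower central series as modules; the lower central
series becomes stationary at a perfect subgroup. -/

namespace Pool.Agent.P.MP_25cc86_al

open Subgroup
open scoped commutatorElement

variable {G : Type*} [Group G]

section one

variable (W : Subgroup G) [W.Normal]

/-- The abelianization of `W`, written additively. -/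
abbrev VV : Type _ := Additive (Abelianization W)

/-- The class of an element of `W`. -/
def pr (w : W) : VV W := Additive.ofMul (Abelianization.of w)

/-- The conjugation action on the abelianization. -/
def act : G →* AddMonoid.End (VV W) where
  toFun g := MonoidHom.toAdditive (Abelianization.map (MulAut.conjNormal (H := W) g).toMonoidHom)
  map_one' := by
    have : (MulAut.conjNormal (H := W) 1).toMonoidHom = MonoidHom.id W := by ext; simp
    rw [this, Abelianization.map_id]; rfl
  map_mul' g h := by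
    have : (MulAut.conjNormal (H := W) (g * h)).toMonoidHom =
        (MulAut.conjNormal (H := W) g).toMonoidHom.comp
          (MulAut.conjNormal (H := W) h).toMonoidHom := by ext; simp
    rw [this, ← Abelianization.map_comp]; rfl

variable {W}

omit [W.Normal] in
theorem pr_mul (a b : W) : pr W (a * b) = pr W a + pr W b := by simp [pr]

omit [W.Normal] in
theorem pr_one : pr W 1 = 0 := by simp [pr]

omit [W.Normal] in
theorem pr_inv (a : W) : pr W a⁻¹ = - pr W a := by simp [pr]

theorem act_pr (g : G) (w : W) : act W g (pr W w) = pr W (MulAut.conjNormal g w) := rfl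

theorem end_add {V : Type*} [AddCommGroup V] (f g : AddMonoid.End V) (v : V) :
    (f + g) v = f v + g v := rfl

omit [W.Normal] in
theorem pr_eq_zero {w : W} (h : pr W w = 0) : w.1 ∈ ⁅W, W⁆ := by
  have h1 : w ∈ _root_.commutator W := by
    rw [← Abelianization.ker_of]; exact h
  rw [← map_subtype_commutator]
  exact ⟨w, h1, rfl⟩

omit [W.Normal] in
theorem ext_gen {D : Set G} (hW : W ≤ closure (D ∩ W)) (f : AddMonoid.End (VV W))
    (h : ∀ d : W, d.1 ∈ D → f (pr W d) = 0) : f = 0 := by
  have key : ∀ x ∈ closure (D ∩ W), ∀ hx : x ∈ W, f (pr W ⟨x, hx⟩) = 0 := by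
    have hle : closure (D ∩ W) ≤ W := (closure_le _).2 Set.inter_subset_right
    intro x hx
    induction hx using closure_induction with
    | mem x hx => exact fun hx' => h ⟨x, hx'⟩ hx.1
    | one => intro _; exact (congrArg f pr_one).trans (map_zero f)
    | mul a b ha hb iha ihb =>
      intro _
      have := pr_mul (W := W) ⟨a, hle ha⟩ ⟨b, hle hb⟩
      exact (congrArg f this).trans (by rw [map_add, iha, ihb, add_zero])
    | inv a ha iha =>
      intro _
      have := pr_inv (W := W) ⟨a, hle ha⟩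
      exact (congrArg f this).trans (by rw [map_neg, iha, neg_zero])
  refine AddMonoidHom.ext fun v => ?_
  obtain ⟨w, rfl⟩ : ∃ w, pr W w = v := Quot.exists_rep v.toMul
  exact key w.1 (hW w.2) w.2

theorem IsC.hyp {D : Set G} (hD : IsC D) (hW : W ≤ closure (D ∩ W)) : Hyp (act W) D := by
  have h2 : (1 : AddMonoid.End (VV W)) + 1 = 0 := by
    refine ext_gen hW _ fun d hd => ?_
    have : d * d = 1 := Subtype.ext (hD.sq _ hd)
    change pr W d + pr W d = 0
    rw [← pr_mul, this, pr_one]
  refine ⟨hD, fun r => by rw [← mul_one r, ← mul_add, h2, mul_zero], fun a ha b hb => ?_⟩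
  have h4 : a * b * a * b * a * b * a = b := by
    have := hD.sq _ (hD.comm a ha b hb)
    rw [← mul_left_inj b, hD.sq b hb, ← this]
    simp only [cm, mul_assoc]
  have e1 : b * cm a b = a * b * a := by
    rw [← hD.cm_symm ha hb]; exact hD.mul_cm hb
  have e2 : a * cm a b = a * b * a * b * a := by
    rw [hD.cm_comm_left ha hb]; simp only [cm, mul_assoc]
  have e3 : a * b * cm a b = a * b * a * b * a * b := by simp only [cm, mul_assoc]
  have hsum : X (act W) a * X (act W) b * X (act W) (cm a b) =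
      act W 1 + act W a + act W (a * b) + act W (a * b * a) + act W (a * b * a * b) +
        act W (a * b * a * b * a) + act W (a * b * a * b * a * b) +
        act W (a * b * a * b * a * b * a) := by
    rw [h4, ← e3, ← e2, show a * b * a * b = cm a b by simp only [cm, mul_assoc], ← e1]
    simp only [X, map_mul, map_one]
    noncomm_ring
  rw [hsum]
  refine ext_gen hW _ fun d hd => ?_
  simp only [end_add, act_pr, ← pr_mul]
  rw [← pr_one]
  congr 1
  refine Subtype.ext ?_
  have h5 := hD.sq _ (hD.comm _ (hD.conj' ha hd) b hb)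
  simp only [coe_mul, MulAut.conjNormal_apply, OneMemClass.coe_one]
  refine Eq.trans ?_ h5
  simp only [mul_assoc] at h4
  simp only [cm, mul_assoc, inv_mul_cancel_left, mul_inv_rev]
  simp only [inv_of_sq (hD.sq a ha), inv_of_sq (hD.sq b hb),
    one_mul, inv_one]
  rw [h4]

/-- Elements whose classes are killed by all products of `j` elements `X g`. -/
def UU (W : Subgroup G) [W.Normal] (j : ℕ) : Subgroup G where
  carrier := {w | ∃ hw : w ∈ W, ∀ l : List G, l.length = j →
    (l.map (X (act W))).prod (pr W ⟨w, hw⟩) = 0}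
  one_mem' := ⟨one_mem _, fun l _ => (congrArg _ pr_one).trans (map_zero _)⟩
  mul_mem' := by
    rintro a b ⟨ha, ha'⟩ ⟨hb, hb'⟩
    refine ⟨mul_mem ha hb, fun l hl => ?_⟩
    have := pr_mul (W := W) ⟨a, ha⟩ ⟨b, hb⟩
    exact (congrArg _ this).trans (by rw [map_add, ha' l hl, hb' l hl, add_zero])
  inv_mem' := by
    rintro a ⟨ha, ha'⟩
    refine ⟨inv_mem ha, fun l hl => ?_⟩
    have := pr_inv (W := W) ⟨a, ha⟩
    exact (congrArg _ this).trans (by rw [map_neg, ha' l hl, neg_zero])

theorem uu_zero : UU W 0 ≤ ⁅W, W⁆ := fun _ ⟨_, h⟩ => pr_eq_zero (h [] rfl)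

theorem uu_succ (h2 : ∀ r : AddMonoid.End (VV W), r + r = 0) (j : ℕ) :
    ⁅UU W (j + 1), ⊤⁆ ≤ UU W j := by
  rw [commutator_le]
  rintro w ⟨hw, h⟩ g -
  have h1 : ⁅w, g⁆ ∈ W := commutator_le_left W ⊤ (commutator_mem_commutator hw (mem_top g))
  refine ⟨h1, fun l hl => ?_⟩
  have h3 : pr W ⟨⁅w, g⁆, h1⟩ = X (act W) g (pr W ⟨w, hw⟩) := by
    have e : (⟨⁅w, g⁆, h1⟩ : W) = ⟨w, hw⟩ * (MulAut.conjNormal g ⟨w, hw⟩)⁻¹ :=
      Subtype.ext (by simp [commutatorElement_def, mul_assoc])
    have e2 : act W g (pr W ⟨w, hw⟩) + act W g (pr W ⟨w, hw⟩) = 0 := by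
      rw [← end_add, h2]; rfl
    rw [e, pr_mul, pr_inv, ← act_pr, neg_eq_of_add_eq_zero_left e2, add_comm]
    rfl
  have h4 := h (l ++ [g]) (by simp [hl])
  rw [List.map_append, List.prod_append] at h4
  rw [h3]
  simpa using h4

end one

theorem IsC.exists_K {D : Set G} (hD : IsC D) {A : Type*} [Finite A] {g : A → G}
    (hg : ∀ a, g a ∈ D) (hgen : closure (Set.range g) = ⊤) :
    ∃ K, ∀ i, gam G (i + K) ≤ ⁅gam G i, gam G i⁆ := by
  have hgen' : closure D = ⊤ :=
    top_le_iff.1 (hgen.ge.trans (closure_mono (Set.range_subset_iff.2 hg)))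
  have H1 : ∀ i, Hyp (act (gam G i)) D := fun i => hD.hyp (hD.gam_gen hgen' i)
  let φ : G →* (∀ i, AddMonoid.End (VV (gam G i))) := MonoidHom.pi fun i => act (gam G i)
  have H : Hyp φ D := ⟨hD, fun r => funext fun i => (H1 i).two (r i),
    fun a ha b hb => funext fun i => (H1 i).norm a ha b hb⟩
  obtain ⟨K, hK⟩ := H.tzero hg hgen
  refine ⟨K, fun i => ?_⟩
  have h1 : ∀ l : List G, (l.map (X φ)).prod i = (l.map (X (act (gam G i)))).prod := by
    intro l
    induction l with
    | nil => rfl
    | cons a l ih => rw [List.map_cons, List.prod_cons, List.map_cons, List.prod_cons, ← ih]; rfl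
  have h2 : ∀ m j, m + j = K → gam G (i + m) ≤ UU (gam G i) j := by
    intro m
    induction m with
    | zero =>
      intro j hj w hw
      refine ⟨hw, fun l hl => ?_⟩
      rw [← h1, hK l (by omega)]
      rfl
    | succ m ih =>
      intro j hj
      exact (commutator_mono (ih (j + 1) (by omega)) le_rfl).trans (uu_succ (H1 i).two j)
  exact (h2 K 0 rfl).trans uu_zero

theorem IsC.exists_c {D : Set G} (hD : IsC D) {A : Type*} [Finite A] {g : A → G}
    (hg : ∀ a, g a ∈ D) (hgen : closure (Set.range g) = ⊤) :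
    ∃ c, (∀ m, gam G c ≤ gam G m) ∧ ⁅gam G c, gam G c⁆ = gam G c := by
  obtain ⟨K, hK⟩ := hD.exists_K hg hgen
  have h1 : gam G (K + K) ≤ gam G (K + K + 1) := (hK K).trans (gam_comm K K)
  have h2 : ∀ m, gam G (K + K) ≤ gam G (K + K + m) := by
    intro m
    induction m with
    | zero => exact le_rfl
    | succ m ih => exact h1.trans (commutator_mono ih le_rfl)
  exact ⟨K + K, fun m => (h2 m).trans (gam_anti (by omega)),
    le_antisymm (commutator_le_left _ _) ((h2 K).trans (hK _))⟩

end Pool.Agent.P.MP_25cc86_al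
end

-- part Pool.Agent.P.MP_25cc86_al.Baer
section

/-! A finite group generated by a commutator closed normal set of involutions is a 2-group
(the argument of Alperin and Lyons for the theorem of Baer and Suzuki). -/

namespace Pool.Agent.P.MP_25cc86_al

open Subgroup

theorem exists_normalizing {P : Type*} [Group P] [Finite P] [Group.IsNilpotent P] {D : Set P}
    (hD : ∀ d ∈ D, ∀ g, g⁻¹ * d * g ∈ D) (I : Subgroup P) {x0 : P} (h0 : x0 ∈ D) (h1 : x0 ∉ I) :
    ∃ x ∈ D, x ∉ I ∧ x ∈ normalizer (D ∩ I) := by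
  obtain ⟨M, hIM, hM⟩ := Finite.exists_le_maximal (p := fun M : Subgroup P => D ∩ M ⊆ I)
    (a := I) Set.inter_subset_right
  have hlt : M < ⊤ := lt_top_iff_ne_top.2 fun h => h1 (hM.1 ⟨h0, by simp [h]⟩)
  have h2 := Group.normalizerCondition_of_isNilpotent M hlt
  have h3 : ¬ (D ∩ normalizer (M : Set P) ⊆ I) := fun h => h2.not_ge (hM.2 h h2.le)
  obtain ⟨x, ⟨hxD, hxN⟩, hxI⟩ := Set.not_subset.1 h3
  refine ⟨x, hxD, hxI, fun n => ⟨fun ⟨hn1, hn2⟩ => ?_, fun ⟨hn1, hn2⟩ => ?_⟩⟩
  · have h4 : x * n * x⁻¹ ∈ D := by simpa using hD n hn1 x⁻¹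
    exact ⟨h4, hM.1 ⟨h4, (hxN n).1 (hIM hn2)⟩⟩
  · have h4 : n ∈ D := by simpa [mul_assoc] using hD _ hn1 x
    exact ⟨h4, hM.1 ⟨h4, (hxN n).2 (hIM hn2)⟩⟩

variable {G : Type*} [Group G]

theorem exists_normalizing' [Finite G] {D : Set G} (hD : ∀ d ∈ D, ∀ g, g⁻¹ * d * g ∈ D)
    {P : Subgroup G} (hP : IsPGroup 2 P) (Q : Subgroup G) (h : ¬ D ∩ P ⊆ D ∩ Q) :
    ∃ x ∈ D ∩ P, x ∉ Q ∧ x ∈ normalizer (D ∩ P ∩ (D ∩ Q)) := by
  obtain ⟨x0, ⟨h0, h1⟩, h2⟩ := Set.not_subset.1 h
  have := hP.isNilpotent
  obtain ⟨x, hx1, hx2, hx3⟩ := exists_normalizing (P := P) (D := {p | p.1 ∈ D})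
    (fun d hd g => hD d.1 hd g.1) (Q.subgroupOf P) (x0 := ⟨x0, h1⟩) h0 (fun h => h2 ⟨h0, h⟩)
  refine ⟨x.1, ⟨hx1, x.2⟩, hx2, fun n => ⟨fun ⟨⟨h3, h4⟩, _, h5⟩ => ?_, fun ⟨⟨h3, h4⟩, _, h5⟩ => ?_⟩⟩
  · obtain ⟨h6, h7⟩ := (hx3 ⟨n, h4⟩).1 ⟨h3, h5⟩
    exact ⟨⟨h6, P.mul_mem (P.mul_mem x.2 h4) (P.inv_mem x.2)⟩, h6, h7⟩
  · have h8 : n ∈ P := by
      simpa [mul_assoc] using P.mul_mem (P.mul_mem (P.inv_mem x.2) h4) x.2
    obtain ⟨h6, h7⟩ := (hx3 ⟨n, h8⟩).2 ⟨h3, h5⟩
    exact ⟨⟨h6, h8⟩, h6, h7⟩

theorem isPGroup_zpowers {g : G} {k : ℕ} (h : g ^ 2 ^ k = 1) : IsPGroup 2 (zpowers g) := by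
  rintro ⟨_, c, rfl⟩
  refine ⟨k, Subtype.ext ?_⟩
  change (g ^ c) ^ 2 ^ k = 1
  rw [← zpow_natCast, ← zpow_mul, mul_comm, zpow_mul, zpow_natCast, h, one_zpow]

theorem IsC.pair {D : Set G} (hD : IsC D) {x y : G} (hx : x ∈ D) (hy : y ∈ D) :
    IsPGroup 2 (zpowers (x * y) ⊔ zpowers x : Subgroup G) := by
  have h1 : (x * y) ^ 2 ^ 2 = 1 := by
    rw [← hD.sq _ (hD.comm x hx y hy)]
    simp only [cm, show 2 ^ 2 = 4 from rfl, pow_succ, pow_zero, one_mul, mul_assoc]
  have h2 : x ^ 2 ^ 1 = 1 := by rw [pow_one, pow_two, hD.sq x hx]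
  refine (isPGroup_zpowers h1).to_sup_of_normal_left' (isPGroup_zpowers h2) ?_
  rw [zpowers_le, mem_normalizer_iff_map_conj_eq, MonoidHom.map_zpowers, ← zpowers_inv]
  congr 1
  simp only [MonoidHom.coe_coe, MulAut.conj_apply, mul_inv_rev, inv_of_sq (hD.sq x hx),
    inv_of_sq (hD.sq y hy), cancel_sq (hD.sq x hx)]

theorem IsC.isPGroup [Finite G] {D : Set G} (hD : IsC D) (hgen : closure D = ⊤) :
    IsPGroup 2 G := by
  let S : Set G → Prop := fun A => ∃ P : Subgroup G, IsPGroup 2 P ∧ A = D ∩ P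
  have key : ∀ I : Set G, ∀ A B, Maximal S A → Maximal S B → A ∩ B = I → A = B := by
    intro I
    induction I using WellFoundedGT.induction with
    | ind I ih =>
      intro A B hA hB hI
      by_contra hne
      have h1 : ¬ A ⊆ B := fun h => hne (hA.eq_of_le hB.1 h)
      have h2 : ¬ B ⊆ A := fun h => hne (hB.eq_of_le hA.1 h).symm
      obtain ⟨P, hP, rfl⟩ := hA.1
      obtain ⟨Q, hQ, rfl⟩ := hB.1
      obtain ⟨x, hx1, hx2, hx3⟩ := exists_normalizing' hD.conj hP Q h1
      obtain ⟨y, hy1, hy2, hy3⟩ := exists_normalizing' hD.conj hQ P h2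
      rw [Set.inter_comm] at hy3
      rw [hI] at hx3 hy3
      have hIP : IsPGroup 2 (closure I) := hP.to_le ((closure_le _).2 fun z hz => (hI ▸ hz).1.2)
      have hJ := hIP.to_sup_of_normal_left' (hD.pair hx1.1 hy1.1)
        (sup_le (zpowers_le.2 (normalizer_le_normalizer_closure I (mul_mem hx3 hy3)))
          (zpowers_le.2 (normalizer_le_normalizer_closure I hx3)))
      obtain ⟨C, hC1, hC⟩ := Finite.exists_le_maximal (p := S) ⟨_, hJ, rfl⟩
      have hxC : x ∈ C := hC1 ⟨hx1.1, mem_sup_right (mem_sup_right (mem_zpowers x))⟩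
      have hyC : y ∈ C := by
        refine hC1 ⟨hy1.1, mem_sup_right (T := zpowers (x * y) ⊔ zpowers x) ?_⟩
        simpa using mul_mem (inv_mem (mem_sup_right (S := zpowers (x * y)) (mem_zpowers x)))
          (mem_sup_left (mem_zpowers (x * y)))
      have hIC : I ⊆ C := fun z hz => hC1 ⟨(hI ▸ hz).1.1, mem_sup_left (subset_closure hz)⟩
      have e1 := ih (D ∩ P ∩ C) (lt_of_le_of_ne (fun z hz => ⟨(hI ▸ hz).1, hIC hz⟩)
        fun h => hx2 (hI ▸ (h ▸ ⟨hx1, hxC⟩ : x ∈ I)).2.2) _ _ hA hC rfl
      have e2 := ih (D ∩ Q ∩ C) (lt_of_le_of_ne (fun z hz => ⟨(hI ▸ hz).2, hIC hz⟩)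
        fun h => hy2 (hI ▸ (h ▸ ⟨hy1, hyC⟩ : y ∈ I)).1.2) _ _ hB hC rfl
      exact hne (e1.trans e2.symm)
  obtain ⟨A, -, hA⟩ := Finite.exists_le_maximal (p := S) ⟨⊥, IsPGroup.of_bot, rfl⟩
  have hDA : D ⊆ A := by
    intro d hd
    have h2 : d ^ 2 ^ 1 = 1 := by rw [pow_one, pow_two, hD.sq d hd]
    obtain ⟨C, hC1, hC⟩ := Finite.exists_le_maximal (p := S) ⟨_, isPGroup_zpowers h2, rfl⟩
    rw [key _ A C hA hC rfl]
    exact hC1 ⟨hd, mem_zpowers d⟩
  obtain ⟨P, hP, rfl⟩ := hA.1
  have : (⊤ : Subgroup G) ≤ P := hgen ▸ (closure_le _).2 fun d hd => (hDA hd).2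
  exact (hP.to_le this).of_equiv topEquiv

end Pool.Agent.P.MP_25cc86_al
end

-- part Pool.Agent.P.MP_25cc86_al.Main
section

/-! The universal group and the main theorem. -/

namespace Pool.Agent.P.MP_25cc86_al

open Subgroup

theorem map_cm {G H : Type*} [Group G] [Group H] (f : G →* H) (a b : G) :
    f (cm a b) = cm (f a) (f b) := by simp only [cm, map_mul]

theorem IsC.image {G H : Type*} [Group G] [Group H] {D : Set G} (hD : IsC D) (f : G →* H)
    (hf : Function.Surjective f) : IsC (f '' D) where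
  sq := by rintro _ ⟨d, hd, rfl⟩; rw [← map_mul, hD.sq d hd, map_one]
  conj := by
    rintro _ ⟨d, hd, rfl⟩ g
    obtain ⟨g, rfl⟩ := hf g
    exact ⟨_, hD.conj d hd g, by simp⟩
  comm := by
    rintro _ ⟨a, ha, rfl⟩ _ ⟨b, hb, rfl⟩
    exact ⟨_, hD.comm a ha b hb, map_cm f a b⟩

theorem IsC.quot {G : Type*} [Group G] {D : Set G} (hD : IsC D) (hgen : closure D = ⊤)
    (N : Subgroup G) [N.Normal] [N.FiniteIndex] : IsPGroup 2 (G ⧸ N) := by
  refine (hD.image (QuotientGroup.mk' N) (QuotientGroup.mk'_surjective N)).isPGroup ?_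
  rw [← MonoidHom.map_closure, hgen, map_top_of_surjective _ (QuotientGroup.mk'_surjective N)]

theorem map_gam {G H : Type*} [Group G] [Group H] (f : G →* H) (hf : Function.Surjective f)
    (i : ℕ) : (gam G i).map f = gam H i := by
  rw [map_lowerCentralSeries, map_top_of_surjective _ hf]

/-- Words forced to represent elements of order at most two. -/
inductive DD (n : ℕ) : FreeGroup (Fin n) → Prop
  | gen (i : Fin n) : DD n (FreeGroup.of i)
  | conj {d : FreeGroup (Fin n)} (g : FreeGroup (Fin n)) : DD n d → DD n (g⁻¹ * d * g)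
  | comm {a b : FreeGroup (Fin n)} : DD n a → DD n b → DD n (cm a b)

/-- The defining normal subgroup of the universal group. -/
def NN (n : ℕ) : Subgroup (FreeGroup (Fin n)) := normalClosure {w | ∃ d, DD n d ∧ w = d * d}

instance (n : ℕ) : (NN n).Normal := normalClosure_normal

theorem isC_univ (n : ℕ) : IsC (QuotientGroup.mk' (NN n) '' {d | DD n d}) where
  sq := by
    rintro _ ⟨d, hd, rfl⟩
    rw [← map_mul]
    exact (QuotientGroup.eq_one_iff _).2 (subset_normalClosure ⟨d, hd, rfl⟩)
  conj := by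
    rintro _ ⟨d, hd, rfl⟩ g
    obtain ⟨g, rfl⟩ := QuotientGroup.mk'_surjective (NN n) g
    exact ⟨_, DD.conj g hd, by simp only [map_mul, map_inv]⟩
  comm := by
    rintro _ ⟨a, ha, rfl⟩ _ ⟨b, hb, rfl⟩
    exact ⟨_, DD.comm ha hb, map_cm _ a b⟩

theorem gen_univ (n : ℕ) :
    closure (Set.range fun i : Fin n => QuotientGroup.mk' (NN n) (FreeGroup.of i)) = ⊤ := by
  rw [Set.range_comp' (QuotientGroup.mk' (NN n)) FreeGroup.of, ← MonoidHom.map_closure,
    FreeGroup.closure_range_of, map_top_of_surjective _ (QuotientGroup.mk'_surjective _)]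

theorem main (n : ℕ) : ∃ c B : ℕ, ∀ (G : Type*) [Group G] (D : Set G), IsC D →
    ∀ x : Fin n → G, (∀ i, x i ∈ D) → closure (Set.range x) = ⊤ →
    (∃ k, (gam G c).index = 2 ^ k) ∧ (gam G c).index ≤ B ∧ ⁅gam G c, gam G c⁆ = gam G c ∧
      ∀ H : Subgroup G, H.FiniteIndex → gam G c ≤ H := by
  have hg : ∀ i : Fin n, QuotientGroup.mk' (NN n) (FreeGroup.of i) ∈
      QuotientGroup.mk' (NN n) '' {d | DD n d} := fun i => ⟨_, DD.gen i, rfl⟩
  obtain ⟨c, hc1, hc2⟩ := (isC_univ n).exists_c hg (gen_univ n)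
  have hB := (isC_univ n).gam_index (Set.finite_range _) (Set.range_subset_iff.2 hg)
    (gen_univ n) c
  refine ⟨c, (gam (FreeGroup (Fin n) ⧸ NN n) c).index, fun G _ D hD x hx hgen => ?_⟩
  have hgen' : closure D = ⊤ :=
    top_le_iff.1 (hgen.ge.trans (closure_mono (Set.range_subset_iff.2 hx)))
  have h1 : ∀ d, DD n d → FreeGroup.lift x d ∈ D := by
    intro d hd
    induction hd with
    | gen i => simpa using hx i
    | conj g _ ih => simpa using hD.conj _ ih (FreeGroup.lift x g)
    | comm _ _ iha ihb => rw [map_cm]; exact hD.comm _ iha _ ihb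
  have h2 : NN n ≤ (FreeGroup.lift x).ker := by
    refine normalClosure_le_normal ?_
    rintro _ ⟨d, hd, rfl⟩
    simpa using hD.sq _ (h1 d hd)
  let ψ := QuotientGroup.lift (NN n) (FreeGroup.lift x) h2
  have hψ : Function.Surjective ψ := by
    rw [← MonoidHom.range_eq_top, ← top_le_iff, ← hgen, closure_le]
    rintro _ ⟨i, rfl⟩
    exact ⟨QuotientGroup.mk (FreeGroup.of i), by simp [ψ]⟩
  have h3 : (gam G c).index ∣ (gam (FreeGroup (Fin n) ⧸ NN n) c).index :=
    map_gam ψ hψ c ▸ index_map_dvd _ hψ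
  have h4 : (gam G c).FiniteIndex := ⟨ne_zero_of_dvd_ne_zero hB h3⟩
  refine ⟨IsPGroup.iff_card.1 (hD.quot hgen' _),
    Nat.le_of_dvd (Nat.pos_of_ne_zero hB) h3, ?_, fun H hH => ?_⟩
  · rw [← map_gam ψ hψ, ← map_commutator, hc2]
  · have := (hD.quot hgen' H.normalCore).isNilpotent
    obtain ⟨m, hm⟩ := Subgroup.nilpotent_iff_lowerCentralSeries.1 this
    have h5 : gam G m ≤ H.normalCore := by
      rw [le_iff_map_bot, map_gam _ (QuotientGroup.mk'_surjective _)]
      exact hm
    refine le_trans ?_ (h5.trans H.normalCore_le)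
    rw [← map_gam ψ hψ, ← map_gam ψ hψ]
    exact map_mono (hc1 m)

theorem isC_of_pow {G : Type*} [Group G]
    (h : ∀ u v : G, orderOf u = 2 → orderOf v = 2 → (u * v) ^ 4 = 1) :
    IsC {u : G | u * u = 1} where
  sq _ hd := hd
  conj d hd g := by
    have : d * d = 1 := hd
    simp only [Set.mem_ofPred_eq, mul_assoc, mul_inv_cancel_left, cancel_sq this, inv_mul_cancel]
  comm a ha b hb := by
    have ha' : a * a = 1 := ha
    have hb' : b * b = 1 := hb
    by_cases h1 : a = 1
    · simp [cm, h1, hb']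
    by_cases h2 : b = 1
    · simp [cm, h2, ha']
    have := h a b (orderOf_eq_prime (by rw [pow_two, ha']) h1)
      (orderOf_eq_prime (by rw [pow_two, hb']) h2)
    simpa only [cm, Set.mem_ofPred_eq, pow_succ, pow_zero, one_mul, mul_assoc] using this

end Pool.Agent.P.MP_25cc86_al
end

-- part Pool.Agent.P.MP_25cc86_al.Rw
section

/-! A verified checker for rewriting certificates in groups generated by involutions. -/

namespace Pool.Agent.P.MP_25cc86_al

variable {G : Type*} [Group G]

/-- Conjugation on the right. -/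
def cj (x g : G) : G := g⁻¹ * x * g

/-- The value of a word. -/
def wv (gs : List G) : List ℕ → G
  | [] => 1
  | a :: w => gs.getD a 1 * wv gs w

theorem wv_append (gs : List G) (u v : List ℕ) : wv gs (u ++ v) = wv gs u * wv gs v := by
  induction u with
  | nil => simp [wv]
  | cons a u ih => simp only [List.cons_append, wv, ih, mul_assoc]

/-- Pushing a word on a stack with cancellation. -/
def push : List ℕ → List ℕ → List ℕ
  | st, [] => st
  | [], a :: w => push [a] w
  | b :: st, a :: w => bif Nat.beq a b then push st w else push (a :: b :: st) w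

/-- Digits in base `B`, shifted by one. -/
def dec (B : ℕ) : ℕ → ℕ → List ℕ
  | 0, _ => []
  | f + 1, n => bif Nat.beq n 0 then [] else (n % B - 1) :: dec B f (n / B)

/-- Inserting relators one after the other. -/
def steps (rs : List (List ℕ)) : List ℕ → List ℕ → List ℕ
  | w, [] => push [] w
  | w, s :: l =>
    steps rs (push (push (w.take (s % 256)).reverse (rs.getD (s / 256) [])) (w.drop (s % 256))).reverse l

/-- Deriving new relators. -/
def lems : List (List ℕ) → List (ℕ × ℕ × ℕ) → List (List ℕ)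
  | rs, [] => rs
  | rs, (w, s, t) :: l =>
    lems (List.reverseAux (steps rs (dec 32 256 w) (dec 16777216 4096 t))
      (steps rs (dec 32 256 w) (dec 16777216 4096 s)) :: rs) l

section

variable {gs : List G} (hg : ∀ a, gs.getD a 1 * gs.getD a 1 = 1)
include hg

theorem wv_reverse (w : List ℕ) : wv gs w.reverse = (wv gs w)⁻¹ := by
  induction w with
  | nil => simp [wv]
  | cons a w ih =>
    rw [List.reverse_cons, wv_append, ih]
    simp only [wv, mul_one, mul_inv_rev, inv_of_sq (hg a)]

theorem wv_push (w : List ℕ) : ∀ st, wv gs (push st w) = (wv gs w)⁻¹ * wv gs st := by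
  induction w with
  | nil => intro st; simp [push, wv]
  | cons a w ih =>
    intro st
    cases st with
    | nil => simp only [push, ih, wv, mul_inv_rev, inv_of_sq (hg a), mul_one]
    | cons b st =>
      simp only [push]
      cases h : Nat.beq a b with
      | true =>
        obtain rfl := Nat.eq_of_beq_eq_true h
        simp only [cond_true, ih, wv, mul_inv_rev, inv_of_sq (hg a), mul_assoc,
          cancel_sq (hg a)]
      | false => simp only [cond_false, ih, wv, mul_inv_rev, inv_of_sq (hg a), mul_assoc]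

theorem wv_steps {rs : List (List ℕ)} (hr : ∀ r ∈ rs, wv gs r = 1) (l : List ℕ) :
    ∀ w, wv gs (steps rs w l) = (wv gs w)⁻¹ := by
  induction l with
  | nil => intro w; simp [steps, wv_push hg, wv]
  | cons s l ih =>
    intro w
    have h1 : wv gs (rs.getD (s / 256) []) = 1 := by
      rw [List.getD_eq_getElem?_getD]
      cases h : rs[s / 256]? with
      | none => rfl
      | some r => exact hr r (List.mem_of_getElem? h)
    rw [steps, ih, wv_reverse hg, wv_push hg, wv_push hg, h1, wv_reverse hg, inv_inv, inv_one,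
      one_mul, ← mul_inv_rev, ← wv_append, List.take_append_drop]

theorem wv_lems (l : List (ℕ × ℕ × ℕ)) :
    ∀ rs : List (List ℕ), (∀ r ∈ rs, wv gs r = 1) → ∀ r ∈ lems rs l, wv gs r = 1 := by
  induction l with
  | nil => exact fun rs h => h
  | cons x l ih =>
    obtain ⟨w, s, t⟩ := x
    intro rs h
    refine ih _ fun r hr => ?_
    rcases List.mem_cons.1 hr with rfl | hr
    · rw [List.reverseAux_eq, wv_append, wv_reverse hg, wv_steps hg h, wv_steps hg h, inv_inv,
        mul_inv_cancel]
    · exact h r hr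

end

/-- Expressions in the generators. -/
inductive Ex : Type
  | o : Ex
  | g : ℕ → Ex
  | m : Ex → Ex → Ex
  | j : Ex → Ex → Ex
  | c : Ex → Ex → Ex

namespace Ex

/-- The value of an expression. -/
def ev (gs : List G) : Ex → G
  | o => 1
  | g i => gs.getD i 1
  | m x y => x.ev gs * y.ev gs
  | j x y => cj (x.ev gs) (y.ev gs)
  | c x y => cm (x.ev gs) (y.ev gs)

/-- The word of an expression. -/
def w : Ex → List ℕ
  | o => []
  | g i => [i]
  | m x y => x.w ++ y.w
  | j x y => y.w.reverse ++ x.w ++ y.w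
  | c x y => x.w ++ y.w ++ (x.w ++ y.w)

/-- Expressions built from the first `n` generators by conjugation and commutators. -/
def isD (n : ℕ) : Ex → Bool
  | o => false
  | g i => Nat.blt i n
  | m _ _ => false
  | j x _ => x.isD n
  | c x y => x.isD n && y.isD n

theorem wv_w {gs : List G} (hg : ∀ a, gs.getD a 1 * gs.getD a 1 = 1) (x : Ex) :
    wv gs x.w = x.ev gs := by
  induction x with
  | o => rfl
  | g i => simp [w, wv, ev]
  | m x y hx hy => rw [w, wv_append, hx, hy, ev]
  | j x y hx hy => rw [w, wv_append, wv_append, wv_reverse hg, hx, hy, ev, cj]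
  | c x y hx hy => simp only [w, wv_append, hx, hy, ev, cm]

theorem ev_mem {D : Set G} (hD : IsC D) {gs : List G} (hg : ∀ x ∈ gs, x ∈ D) (x : Ex)
    (h : x.isD gs.length = true) : x.ev gs ∈ D := by
  induction x with
  | o => simp [isD] at h
  | g i =>
    have h1 : i < gs.length := by simpa [isD, Nat.blt_eq] using h
    rw [ev, List.getD_eq_getElem _ _ h1]
    exact hg _ (List.getElem_mem h1)
  | m x y _ _ => simp [isD] at h
  | j x y hx _ => exact hD.conj _ (hx h) _
  | c x y hx hy =>
    rw [isD, Bool.and_eq_true] at h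
    exact hD.comm _ (hx h.1) _ (hy h.2)

end Ex

/-- All members of a list lie in `D`. -/
def AllD (D : Set G) : List G → Prop
  | [] => True
  | x :: l => x ∈ D ∧ AllD D l

/-- All equations of a list hold. -/
def AllE (gs : List G) : List (Ex × Ex) → Prop
  | [] => True
  | p :: l => p.1.ev gs = p.2.ev gs ∧ AllE gs l

omit [Group G] in
theorem AllD.mem {D : Set G} : ∀ {l : List G}, AllD D l → ∀ x ∈ l, x ∈ D
  | [], _ => by simp
  | _ :: _, h => List.forall_mem_cons.2 ⟨h.1, h.2.mem⟩

theorem AllE.mem {gs : List G} :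
    ∀ {l : List (Ex × Ex)}, AllE gs l → ∀ p ∈ l, p.1.ev gs = p.2.ev gs
  | [], _ => by simp
  | _ :: _, h => List.forall_mem_cons.2 ⟨h.1, h.2.mem⟩

/-- The relator of an equation. -/
def rel (p : Ex × Ex) : List ℕ := p.1.w ++ p.2.w.reverse

/-- The check of a certificate. -/
def chk (n : ℕ) (ds : List Ex) (hs : List (Ex × Ex)) (t : Ex × Ex) (l : List (ℕ × ℕ × ℕ))
    (s : ℕ) : Bool :=
  ds.all (Ex.isD n) &&
    (steps (lems (ds.map (fun d => d.w ++ d.w) ++ hs.map rel) l) (rel t)
      (dec 16777216 4096 s)).isEmpty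

theorem IsC.run {D : Set G} (hD : IsC D) (gs : List G) (hg : AllD D gs) (hs : List (Ex × Ex))
    (hh : AllE gs hs) (t : Ex × Ex) (ds : List Ex) (l : List (ℕ × ℕ × ℕ)) (s n : ℕ)
    (hn : gs.length = n) (h : chk n ds hs t l s = true) : t.1.ev gs = t.2.ev gs := by
  subst hn
  have hq : ∀ a, gs.getD a 1 * gs.getD a 1 = 1 := by
    intro a
    rw [List.getD_eq_getElem?_getD]
    cases h : gs[a]? with
    | none => simp
    | some x => exact hD.sq x (hg.mem x (List.mem_of_getElem? h))
  have hrel : ∀ p : Ex × Ex, wv gs (rel p) = p.1.ev gs * (p.2.ev gs)⁻¹ := fun p => by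
    rw [rel, wv_append, wv_reverse hq, Ex.wv_w hq, Ex.wv_w hq]
  rw [chk, Bool.and_eq_true, List.all_eq_true, List.isEmpty_iff] at h
  have h1 := wv_steps hq (wv_lems hq l (ds.map (fun d => d.w ++ d.w) ++ hs.map rel) ?_)
    (dec 16777216 4096 s) (rel t)
  · rw [h.2, hrel, mul_inv_rev, inv_inv] at h1
    exact (mul_inv_eq_one.1 h1.symm).symm
  · intro r hr
    rcases List.mem_append.1 hr with hr | hr
    · obtain ⟨d, hd, rfl⟩ := List.mem_map.1 hr
      rw [wv_append, Ex.wv_w hq]
      exact hD.sq _ (Ex.ev_mem hD hg.mem d (h.1 d hd))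
    · obtain ⟨p, hp, rfl⟩ := List.mem_map.1 hr
      rw [hrel, hh.mem p hp, mul_inv_cancel]

end Pool.Agent.P.MP_25cc86_al
end
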