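import Pool.Agent.K.MP_25cc86_al.C0

namespace Pool.Agent.P.MP_25cc86_al.IsC

variable {G : Type*} [Group G] {D : Set G} (hD : IsC D)
include hD

theorem beta_f {x d e : G} (hx : x ∈ D) (hd : d ∈ D) (he : e ∈ D)  : cm x (cj x (d * e)) =
    cm (cj x (cj d e)) (cj x e) := by
  have r : cm x (cj x (d * e)) = cm (cj x (cj d e)) (cj x e) :=
    hD.run [x, d, e] ⟨hx, hd, he, trivial⟩ [] trivial ((.c (.g 0) (.j (.g 0) (.m (.g 1) (.g
    2)))), (.c (.j (.g 0) (.j (.g 1) (.g 2))) (.j (.g 0) (.g 2)))) [(.c (.g 0) (.g 1)), (.c (.g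
    0) (.g 2)), (.c (.g 0) (.j (.g 1) (.g 2))), (.c (.g 1) (.c (.g 0) (.g 2)))] [(0, 0, 0), (0,
    257, 0), (38318050089436225, 0, 1), (66625, 1, 0), (0, 1281, 0), (39445083901232225, 0, 1),
    (99425, 1, 0), (0, 2305, 0), (45517573511410247944693100168972385, 0, 1), (105328511073, 1,
    0), (1204840138851, 2, 0), (108923628620835, 0, 1), (0, 3841, 0),
    (90728937237216653038784674395837406293036066, 0, 1), (106756851141666, 0,
    506092038207307777), (1197440140119075, 34443627272, 34460402433)]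
    51470120263807957669354223605697648590424379137 3 rfl (by decide +kernel)
  exact r

theorem z2_half {a b y d e : G} (ha : a ∈ D) (hb : b ∈ D) (hy : y ∈ D) (hd : d ∈ D) (he : e
    ∈ D) (hay : Commute a y) (hay2 : a * y ∈ D) (Ha : ∀ x ∈ D, Commute y (cj a x)) (hby :
    Commute y b) (Hb : ∀ x ∈ D, Commute y (cj b x)) : Commute (cm a (cj y (d * e))) b := by
  have hb1 : Commute y b := hby
  obtain ⟨f, hf, ef⟩ : ∃ z, z ∈ D ∧ z = cj d e := ⟨_, (hD.conj _ hd _), rfl⟩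
  obtain ⟨a1, ha1, ea1⟩ : ∃ z, z ∈ D ∧ z = cj a (d * e) := ⟨_, (hD.conj _ ha _), rfl⟩
  obtain ⟨y1, hy1, ey1⟩ : ∃ z, z ∈ D ∧ z = cj y (d * e) := ⟨_, (hD.conj _ hy _), rfl⟩
  obtain ⟨a2, ha2, ea2⟩ : ∃ z, z ∈ D ∧ z = cj a f := ⟨_, (hD.conj _ ha _), rfl⟩
  obtain ⟨y2, hy2, ey2⟩ : ∃ z, z ∈ D ∧ z = cj y f := ⟨_, (hD.conj _ hy _), rfl⟩
  obtain ⟨a3, ha3, ea3⟩ : ∃ z, z ∈ D ∧ z = cj a e := ⟨_, (hD.conj _ ha _), rfl⟩
  obtain ⟨y3, hy3, ey3⟩ : ∃ z, z ∈ D ∧ z = cj y e := ⟨_, (hD.conj _ hy _), rfl⟩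
  obtain ⟨c, hc, ec⟩ : ∃ z, z ∈ D ∧ z = a * y := ⟨_, hay2, rfl⟩
  obtain ⟨c1, hc1, ec1⟩ : ∃ z, z ∈ D ∧ z = cj c (d * e) := ⟨_, (hD.conj _ hc _), rfl⟩
  obtain ⟨c2, hc2, ec2⟩ : ∃ z, z ∈ D ∧ z = cj c f := ⟨_, (hD.conj _ hc _), rfl⟩
  obtain ⟨c3, hc3, ec3⟩ : ∃ z, z ∈ D ∧ z = cj c e := ⟨_, (hD.conj _ hc _), rfl⟩
  have fc1 : c1 = a1 * y1 :=
    hD.run [a, y, c, d, e, f, a1, y1, c1] ⟨ha, hy, hc, hd, he, hf, ha1, hy1, hc1, trivial⟩
    [((.g 5), (.j (.g 3) (.g 4))), ((.g 6), (.j (.g 0) (.m (.g 3) (.g 4)))), ((.g 7), (.j (.g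
    1) (.m (.g 3) (.g 4)))), ((.g 2), (.m (.g 0) (.g 1))), ((.g 8), (.j (.g 2) (.m (.g 3) (.g
    4))))] ⟨ef, ea1, ey1, ec, ec1, trivial⟩ ((.g 8), (.m (.g 6) (.g 7))) [] [(0, 769, 0),
    (33859, 0, 1), (1, 2, 0), (3138, 2, 0), (3, 2, 0), (0, 1281, 0), (139628710, 0, 1), (164,
    3, 0), (0, 2305, 0), (1242491293863, 0, 1), (5249, 4, 0), (234628, 2, 0), (5410852, 0, 1),
    (4132, 1, 0), (0, 4097, 0), (2342002954408, 0, 1), (5250, 4, 0), (0, 5377, 0),
    (3441514614953, 0, 1), (5251, 4, 0), (300164, 2, 0), (5410916, 0, 1), (4196, 1, 0),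
    (201957, 3843, 2305), (132230, 0, 5), (202021, 4355, 513), (134278, 0, 5), (273810566, 513,
    281569516325380), (275911844, 0, 3), (9, 2, 0), (7432, 2, 0), (7, 2, 0)] 1 9 rfl
    (by decide +kernel)
  have fc2 : c2 = a2 * y2 :=
    hD.run [a, y, c, d, e, f, a2, y2, c2] ⟨ha, hy, hc, hd, he, hf, ha2, hy2, hc2, trivial⟩
    [((.g 5), (.j (.g 3) (.g 4))), ((.g 6), (.j (.g 0) (.g 5))), ((.g 7), (.j (.g 1) (.g 5))),
    ((.g 2), (.m (.g 0) (.g 1))), ((.g 8), (.j (.g 2) (.g 5)))] ⟨ef, ea2, ey2, ec, ec2,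
    trivial⟩ ((.g 8), (.m (.g 6) (.g 7))) [] [(0, 769, 0), (33859, 0, 1), (1, 2, 0), (3138, 2,
    0), (3, 2, 0), (0, 1281, 0), (139628710, 0, 1), (0, 2049, 0), (40043719, 0, 1), (0, 2817,
    0), (73599176, 0, 1), (194, 3, 0), (0, 4097, 0), (107154633, 0, 1), (5319, 1794, 1281),
    (6181, 0, 4), (5321, 2306, 513), (6245, 0, 4), (268325, 513, 281530844841475), (275943557,
    0, 3), (9, 2, 0), (7432, 2, 0), (7, 2, 0)] 1 9 rfl (by decide +kernel)
  have fc3 : c3 = a3 * y3 :=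
    hD.run [a, y, c, d, e, f, a3, y3, c3] ⟨ha, hy, hc, hd, he, hf, ha3, hy3, hc3, trivial⟩
    [((.g 5), (.j (.g 3) (.g 4))), ((.g 6), (.j (.g 0) (.g 4))), ((.g 7), (.j (.g 1) (.g 4))),
    ((.g 2), (.m (.g 0) (.g 1))), ((.g 8), (.j (.g 2) (.g 4)))] ⟨ef, ea3, ey3, ec, ec3,
    trivial⟩ ((.g 8), (.m (.g 6) (.g 7))) [] [(0, 769, 0), (33859, 0, 1), (1, 2, 0), (3138, 2,
    0), (3, 2, 0), (0, 1281, 0), (139628710, 0, 1), (164, 3, 0), (0, 2305, 0), (38962343, 0,
    1), (0, 3073, 0), (72517800, 0, 1), (162, 3, 0), (0, 4353, 0), (106073257, 0, 1), (6311,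
    1794, 1281), (5158, 0, 4), (6313, 2306, 513), (5222, 0, 4), (267302, 513, 281535139808771),
    (275911844, 0, 3), (9, 2, 0), (7432, 2, 0), (7, 2, 0)] 1 9 rfl (by decide +kernel)
  have ga : cm a (cj a (d * e)) = cm (cj a (cj d e)) (cj a e) := hD.beta_f ha hd he
  have bba : cm a a1 = cm a2 a3 :=
    hD.run [a, d, e, f, a1, a2, a3] ⟨ha, hd, he, hf, ha1, ha2, ha3, trivial⟩ [((.g 3), (.j (.g
    1) (.g 2))), ((.g 4), (.j (.g 0) (.m (.g 1) (.g 2)))), ((.g 5), (.j (.g 0) (.g 3))), ((.g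
    6), (.j (.g 0) (.g 2))), ((.c (.g 0) (.j (.g 0) (.m (.g 1) (.g 2)))), (.c (.j (.g 0) (.j
    (.g 1) (.g 2))) (.j (.g 0) (.g 2))))] ⟨ef, ea1, ea2, ea3, ga, trivial⟩ ((.c (.g 0) (.g 4)),
    (.c (.g 5) (.g 6))) [] [(0, 1, 0), (70355044, 0, 1), (98, 3, 0), (0, 1281, 0), (37880966,
    0, 1), (129, 3, 0), (0, 2305, 0), (36799591, 0, 1), (97, 3, 0), (0, 2561, 0),
    (1171555125349, 0, 1), (3137, 4, 0), (166978, 2, 0), (3246114, 0, 1), (2082, 1, 0), (0,
    4865, 0), (100321949755837294137473796641828380199196339747194977, 0, 1),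
    (38318084483745889, 1, 0), (4196, 3842, 4097), (3206, 4354, 3585), (4131, 0, 4), (4199,
    4610, 16780545), (2150, 513, 4), (7271, 3586, 3841), (232611, 3843, 2305), (66631, 0, 5),
    (3312708, 1793, 2819), (103977027, 0, 1), (168003, 1, 0), (100486, 432627077875763714,
    16783361), (141626466, 0, 3), (133, 0, 3), (100487, 257, 103095995650), (3246244,
    133211095041, 0), (3290531875, 0, 1), (2083, 1, 0), (6279, 7682, 1281), (6277, 7938, 1281),
    (3215395, 4867, 4353), (136414307, 2, 0), (3324185667, 0, 1), (2296899, 0, 167570833409),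
    (69405763, 0, 1), (6391907, 2, 0), (103877667, 0, 1), (103558, 2306, 10241), (102439, 2305,
    94506068995), (3182629, 6147, 2305), (242289701, 0, 167587610625), (3347590, 514, 11265),
    (2196643, 2954924507388707074, 6401), (3425732673, 0, 3), (2183365734, 6660,
    1441996331525603841), (40788399588454, 0, 1), (75473846528937027,
    33878257293629436477842433, 361132429496289539), (109250946845935713, 0, 1), (172975229025,
    0, 21774833655077693609213953), (5670533367905, 0, 1), (1176537185, 1, 0), (1176537185, 0,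
    2682615605309334499893842485421652973140099359301435400), (35536275553, 0, 1), (102795361,
    1, 0), (36766787, 0, 7), (1176537187, 2, 0), (177408808995, 0, 1), (68226085, 7,
    2450521228897685505), (37682879687, 0, 1), (165025, 5, 0), (7544006, 2, 0), (173052966, 0,
    1), (37926, 1, 0), (5478631, 2, 0), (34768071, 0, 1), (203937, 5, 0), (7537829, 2, 0),
    (207852581, 0, 1)] 2 7 rfl (by decide +kernel)
  have gy : cm y (cj y (d * e)) = cm (cj y (cj d e)) (cj y e) := hD.beta_f hy hd he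
  have bby : cm y y1 = cm y2 y3 :=
    hD.run [y, d, e, f, y1, y2, y3] ⟨hy, hd, he, hf, hy1, hy2, hy3, trivial⟩ [((.g 3), (.j (.g
    1) (.g 2))), ((.g 4), (.j (.g 0) (.m (.g 1) (.g 2)))), ((.g 5), (.j (.g 0) (.g 3))), ((.g
    6), (.j (.g 0) (.g 2))), ((.c (.g 0) (.j (.g 0) (.m (.g 1) (.g 2)))), (.c (.j (.g 0) (.j
    (.g 1) (.g 2))) (.j (.g 0) (.g 2))))] ⟨ef, ey1, ey2, ey3, gy, trivial⟩ ((.c (.g 0) (.g 4)),
    (.c (.g 5) (.g 6))) [] [(0, 1, 0), (70355044, 0, 1), (98, 3, 0), (0, 1281, 0), (37880966,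
    0, 1), (129, 3, 0), (0, 2305, 0), (36799591, 0, 1), (97, 3, 0), (0, 2561, 0),
    (1171555125349, 0, 1), (3137, 4, 0), (166978, 2, 0), (3246114, 0, 1), (2082, 1, 0), (0,
    4865, 0), (100321949755837294137473796641828380199196339747194977, 0, 1),
    (38318084483745889, 1, 0), (4196, 3842, 4097), (3206, 4354, 3585), (4131, 0, 4), (4199,
    4610, 16780545), (2150, 513, 4), (7271, 3586, 3841), (232611, 3843, 2305), (66631, 0, 5),
    (3312708, 1793, 2819), (103977027, 0, 1), (168003, 1, 0), (100486, 432627077875763714,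
    16783361), (141626466, 0, 3), (133, 0, 3), (100487, 257, 103095995650), (3246244,
    133211095041, 0), (3290531875, 0, 1), (2083, 1, 0), (6279, 7682, 1281), (6277, 7938, 1281),
    (3215395, 4867, 4353), (136414307, 2, 0), (3324185667, 0, 1), (2296899, 0, 167570833409),
    (69405763, 0, 1), (6391907, 2, 0), (103877667, 0, 1), (103558, 2306, 10241), (102439, 2305,
    94506068995), (3182629, 6147, 2305), (242289701, 0, 167587610625), (3347590, 514, 11265),
    (2196643, 2954924507388707074, 6401), (3425732673, 0, 3), (2183365734, 6660,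
    1441996331525603841), (40788399588454, 0, 1), (75473846528937027,
    33878257293629436477842433, 361132429496289539), (109250946845935713, 0, 1), (172975229025,
    0, 21774833655077693609213953), (5670533367905, 0, 1), (1176537185, 1, 0), (1176537185, 0,
    2682615605309334499893842485421652973140099359301435400), (35536275553, 0, 1), (102795361,
    1, 0), (36766787, 0, 7), (1176537187, 2, 0), (177408808995, 0, 1), (68226085, 7,
    2450521228897685505), (37682879687, 0, 1), (165025, 5, 0), (7544006, 2, 0), (173052966, 0,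
    1), (37926, 1, 0), (5478631, 2, 0), (34768071, 0, 1), (203937, 5, 0), (7537829, 2, 0),
    (207852581, 0, 1)] 2 7 rfl (by decide +kernel)
  have gc : cm c (cj c (d * e)) = cm (cj c (cj d e)) (cj c e) := hD.beta_f hc hd he
  have bbc : cm c c1 = cm c2 c3 :=
    hD.run [c, d, e, f, c1, c2, c3] ⟨hc, hd, he, hf, hc1, hc2, hc3, trivial⟩ [((.g 3), (.j (.g
    1) (.g 2))), ((.g 4), (.j (.g 0) (.m (.g 1) (.g 2)))), ((.g 5), (.j (.g 0) (.g 3))), ((.g
    6), (.j (.g 0) (.g 2))), ((.c (.g 0) (.j (.g 0) (.m (.g 1) (.g 2)))), (.c (.j (.g 0) (.j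
    (.g 1) (.g 2))) (.j (.g 0) (.g 2))))] ⟨ef, ec1, ec2, ec3, gc, trivial⟩ ((.c (.g 0) (.g 4)),
    (.c (.g 5) (.g 6))) [] [(0, 1, 0), (70355044, 0, 1), (98, 3, 0), (0, 1281, 0), (37880966,
    0, 1), (129, 3, 0), (0, 2305, 0), (36799591, 0, 1), (97, 3, 0), (0, 2561, 0),
    (1171555125349, 0, 1), (3137, 4, 0), (166978, 2, 0), (3246114, 0, 1), (2082, 1, 0), (0,
    4865, 0), (100321949755837294137473796641828380199196339747194977, 0, 1),
    (38318084483745889, 1, 0), (4196, 3842, 4097), (3206, 4354, 3585), (4131, 0, 4), (4199,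
    4610, 16780545), (2150, 513, 4), (7271, 3586, 3841), (232611, 3843, 2305), (66631, 0, 5),
    (3312708, 1793, 2819), (103977027, 0, 1), (168003, 1, 0), (100486, 432627077875763714,
    16783361), (141626466, 0, 3), (133, 0, 3), (100487, 257, 103095995650), (3246244,
    133211095041, 0), (3290531875, 0, 1), (2083, 1, 0), (6279, 7682, 1281), (6277, 7938, 1281),
    (3215395, 4867, 4353), (136414307, 2, 0), (3324185667, 0, 1), (2296899, 0, 167570833409),
    (69405763, 0, 1), (6391907, 2, 0), (103877667, 0, 1), (103558, 2306, 10241), (102439, 2305,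
    94506068995), (3182629, 6147, 2305), (242289701, 0, 167587610625), (3347590, 514, 11265),
    (2196643, 2954924507388707074, 6401), (3425732673, 0, 3), (2183365734, 6660,
    1441996331525603841), (40788399588454, 0, 1), (75473846528937027,
    33878257293629436477842433, 361132429496289539), (109250946845935713, 0, 1), (172975229025,
    0, 21774833655077693609213953), (5670533367905, 0, 1), (1176537185, 1, 0), (1176537185, 0,
    2682615605309334499893842485421652973140099359301435400), (35536275553, 0, 1), (102795361,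
    1, 0), (36766787, 0, 7), (1176537187, 2, 0), (177408808995, 0, 1), (68226085, 7,
    2450521228897685505), (37682879687, 0, 1), (165025, 5, 0), (7544006, 2, 0), (173052966, 0,
    1), (37926, 1, 0), (5478631, 2, 0), (34768071, 0, 1), (203937, 5, 0), (7537829, 2, 0),
    (207852581, 0, 1)] 2 7 rfl (by decide +kernel)
  have i1 : Commute y (cj a f) := Ha _ hf
  have t1 : Commute y a2 :=
    hD.run [a, y, f, a2] ⟨ha, hy, hf, ha2, trivial⟩ [((.m (.g 0) (.g 1)), (.m (.g 1) (.g 0))),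
    ((.g 3), (.j (.g 0) (.g 2))), ((.m (.g 1) (.j (.g 0) (.g 2))), (.m (.j (.g 0) (.g 2)) (.g
    1)))] ⟨hay, ea2, i1, trivial⟩ ((.m (.g 1) (.g 3)), (.m (.g 3) (.g 1))) [] [(0, 1, 0),
    (35718209, 0, 1), (65, 1, 0), (0, 1025, 0), (36799588, 0, 1), (97, 3, 0), (0, 2049, 0),
    (75473880921244770, 0, 1), (99426, 1, 0), (4196, 770, 1025), (70290468, 259, 50331649),
    (3257992324, 0, 25786580994), (3323037729, 0, 2), (1122, 1, 0), (134212, 47278196739, 1),
    (68644, 1281, 51573161989), (71339105, 0, 3)] 2 4 rfl (by decide +kernel)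
  have i2 : Commute y (cj a e) := Ha _ he
  have t2 : Commute y a3 :=
    hD.run [a, y, e, a3] ⟨ha, hy, he, ha3, trivial⟩ [((.m (.g 0) (.g 1)), (.m (.g 1) (.g 0))),
    ((.g 3), (.j (.g 0) (.g 2))), ((.m (.g 1) (.j (.g 0) (.g 2))), (.m (.j (.g 0) (.g 2)) (.g
    1)))] ⟨hay, ea3, i2, trivial⟩ ((.m (.g 1) (.g 3)), (.m (.g 3) (.g 1))) [] [(0, 1, 0),
    (35718209, 0, 1), (65, 1, 0), (0, 1025, 0), (36799588, 0, 1), (97, 3, 0), (0, 2049, 0),
    (75473880921244770, 0, 1), (99426, 1, 0), (4196, 770, 1025), (70290468, 259, 50331649),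
    (3257992324, 0, 25786580994), (3323037729, 0, 2), (1122, 1, 0), (134212, 47278196739, 1),
    (68644, 1281, 51573161989), (71339105, 0, 3)] 2 4 rfl (by decide +kernel)
  have i3 : Commute y (cj a d) := Ha _ hd
  have t3 : Commute y2 a :=
    hD.run [a, y, f, y2] ⟨ha, hy, hf, hy2, trivial⟩ [((.m (.g 0) (.g 1)), (.m (.g 1) (.g 0))),
    ((.g 3), (.j (.g 1) (.g 2))), ((.m (.g 1) (.j (.g 0) (.g 2))), (.m (.j (.g 0) (.g 2)) (.g
    1)))] ⟨hay, ey2, i1, trivial⟩ ((.m (.g 3) (.g 0)), (.m (.g 0) (.g 3))) [] [(0, 1, 0),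
    (35718209, 0, 1), (65, 1, 0), (0, 1025, 0), (70355044, 0, 1), (98, 3, 0), (0, 2049, 0),
    (75473880921244770, 0, 1), (99426, 1, 0), (4196, 770, 1025), (70290500, 1,
    504966129710530819), (70968805475, 0, 2), (34914, 5, 2307), (2166819, 0, 1), (4230212,
    1025, 793196523042111491), (4430366819, 0, 2), (1092, 3330, 4), (67620, 0, 1)] 1 4 rfl
    (by decide +kernel)
  have t4 : Commute y3 a :=
    hD.run [a, y, e, y3] ⟨ha, hy, he, hy3, trivial⟩ [((.m (.g 0) (.g 1)), (.m (.g 1) (.g 0))),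
    ((.g 3), (.j (.g 1) (.g 2))), ((.m (.g 1) (.j (.g 0) (.g 2))), (.m (.j (.g 0) (.g 2)) (.g
    1)))] ⟨hay, ey3, i2, trivial⟩ ((.m (.g 3) (.g 0)), (.m (.g 0) (.g 3))) [] [(0, 1, 0),
    (35718209, 0, 1), (65, 1, 0), (0, 1025, 0), (70355044, 0, 1), (98, 3, 0), (0, 2049, 0),
    (75473880921244770, 0, 1), (99426, 1, 0), (4196, 770, 1025), (70290500, 1,
    504966129710530819), (70968805475, 0, 2), (34914, 5, 2307), (2166819, 0, 1), (4230212,
    1025, 793196523042111491), (4430366819, 0, 2), (1092, 3330, 4), (67620, 0, 1)] 1 4 rfl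
    (by decide +kernel)
  have t5 : Commute y1 a2 :=
    hD.run [a, y, d, e, f, y1, a2] ⟨ha, hy, hd, he, hf, hy1, ha2, trivial⟩ [((.g 4), (.j (.g 2)
    (.g 3))), ((.g 5), (.j (.g 1) (.m (.g 2) (.g 3)))), ((.g 6), (.j (.g 0) (.g 4))), ((.m (.g
    1) (.j (.g 0) (.g 3))), (.m (.j (.g 0) (.g 3)) (.g 1))), ((.m (.g 1) (.j (.g 0) (.g 2))),
    (.m (.j (.g 0) (.g 2)) (.g 1)))] ⟨ef, ey1, ea2, i2, i3, trivial⟩ ((.m (.g 5) (.g 6)), (.m
    (.g 6) (.g 5))) [] [(0, 1, 0), (104991877, 0, 1), (131, 3, 0), (0, 1281, 0), (38962343, 0,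
    1), (0, 1537, 0), (2306534870150, 0, 1), (4194, 4, 0), (0, 2817, 0), (76600914733040770, 0,
    1), (132226, 1, 0), (0, 3841, 0), (75473880921244770, 0, 1), (99426, 1, 0), (2196579, 2,
    0), (103844931, 0, 1), (5253, 3330, 3585), (4263, 3842, 3073), (5156, 0, 4), (6425735,
    2819, 257), (138512519, 0, 1), (3215591, 68736253954, 0), (4297764, 1283, 769), (171050116,
    2, 0), (4432564324, 0, 1), (3379300, 0, 98851356673), (104042596, 0, 1), (7474308, 2, 0),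
    (138514468, 0, 1), (5279941, 2563, 1793), (239179941, 1009369386760273922, 0), (5539695652,
    0, 1), (3214372, 0, 2090514768061267969), (103877668, 0, 1), (68644, 1, 0), (4396068, 4097,
    432908617276984579), (138615939, 0, 1), (205620358, 7428, 513), (6681625734, 769,
    16777476), (224197122264697924, 0, 6)] 2 7 rfl (by decide +kernel)
  have t6 : Commute y1 a3 :=
    hD.run [a, y, d, e, y1, a3] ⟨ha, hy, hd, he, hy1, ha3, trivial⟩ [((.g 4), (.j (.g 1) (.m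
    (.g 2) (.g 3)))), ((.g 5), (.j (.g 0) (.g 3))), ((.m (.g 1) (.j (.g 0) (.g 2))), (.m (.j
    (.g 0) (.g 2)) (.g 1)))] ⟨ey1, ea3, i3, trivial⟩ ((.m (.g 4) (.g 5)), (.m (.g 5) (.g 4)))
    [] [(0, 257, 0), (37880966, 0, 1), (129, 3, 0), (0, 769, 0), (2306534870149, 0, 1), (4194,
    4, 0), (168035, 2, 0), (4328515, 0, 1), (3139, 1, 0), (0, 2817, 0), (75473880921244770, 0,
    1), (99426, 1, 0), (2196579, 2, 0), (103844931, 0, 1), (6278, 2818, 3073), (200868, 3075,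
    1537), (100454, 0, 5), (4362278, 2051, 513), (1149030, 16778242, 257), (4469067905, 0, 3),
    (5249, 4, 0), (201860, 2, 0), (5410852, 0, 1), (4132, 1, 0)] 90244644865 6 rfl
    (by decide +kernel)
  have t7 : Commute y2 a1 :=
    hD.run [a, y, d, e, f, y2, a1] ⟨ha, hy, hd, he, hf, hy2, ha1, trivial⟩ [((.g 4), (.j (.g 2)
    (.g 3))), ((.g 6), (.j (.g 0) (.m (.g 2) (.g 3)))), ((.g 5), (.j (.g 1) (.g 4))), ((.m (.g
    1) (.j (.g 0) (.g 3))), (.m (.j (.g 0) (.g 3)) (.g 1)))] ⟨ef, ea1, ey2, i2, trivial⟩ ((.m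
    (.g 5) (.g 6)), (.m (.g 6) (.g 5))) [] [(0, 1, 0), (104991877, 0, 1), (131, 3, 0), (0,
    1281, 0), (72517798, 0, 1), (0, 1537, 0), (1207023209607, 0, 1), (4193, 4, 0), (233571, 2,
    0), (4328483, 0, 1), (3107, 1, 0), (0, 3585, 0), (76600914733040770, 0, 1), (132226, 1, 0),
    (2229380, 2, 0), (138448964, 0, 1), (5253, 3330, 3585), (4262, 3842, 3073), (5188, 0, 4),
    (168164, 4099, 2049), (99429, 0, 5), (7474310, 3331, 769), (138511494, 0, 1), (3182790,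
    77326188546, 0), (4297796, 1795, 1281), (171051140, 2, 0), (4432531556, 0, 1), (3346532, 0,
    107441291265), (104009828, 0, 1), (6425732, 2, 0), (138514500, 0, 1), (4428868, 3073,
    563014394709763), (138647683, 0, 1), (7721813093, 3073, 133160763396), (248243130499, 0,
    3)] 2 7 rfl (by decide +kernel)
  have t8 : Commute y3 a1 :=
    hD.run [a, y, d, e, y3, a1] ⟨ha, hy, hd, he, hy3, ha1, trivial⟩ [((.g 5), (.j (.g 0) (.m
    (.g 2) (.g 3)))), ((.g 4), (.j (.g 1) (.g 3))), ((.m (.g 1) (.j (.g 0) (.g 2))), (.m (.j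
    (.g 0) (.g 2)) (.g 1)))] ⟨ea1, ey3, i3, trivial⟩ ((.m (.g 4) (.g 5)), (.m (.g 5) (.g 4)))
    [] [(0, 257, 0), (71436421, 0, 1), (130, 3, 0), (0, 769, 0), (1207023209606, 0, 1), (4193,
    4, 0), (200803, 2, 0), (4328483, 0, 1), (3107, 1, 0), (0, 2817, 0), (75473880921244770, 0,
    1), (99426, 1, 0), (5253, 2306, 2561), (168132, 2563, 1025), (99429, 0, 5), (4395077, 1539,
    513), (2196581, 257, 16778242), (2288062594, 0, 3), (5316, 0, 4), (170116, 2, 0), (6492228,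
    0, 1), (4164, 1, 0)] 85916123138 6 rfl (by decide +kernel)
  have s1 : Commute y1 a1 :=
    hD.run [a, y, d, e, f, y1, a1] ⟨ha, hy, hd, he, hf, hy1, ha1, trivial⟩ [((.m (.g 0) (.g
    1)), (.m (.g 1) (.g 0))), ((.g 4), (.j (.g 2) (.g 3))), ((.g 6), (.j (.g 0) (.m (.g 2) (.g
    3)))), ((.g 5), (.j (.g 1) (.m (.g 2) (.g 3))))] ⟨hay, ef, ea1, ey1, trivial⟩ ((.m (.g 5)
    (.g 6)), (.m (.g 6) (.g 5))) [] [(0, 1, 0), (35718209, 0, 1), (65, 1, 0), (0, 1025, 0),
    (104991877, 0, 1), (131, 3, 0), (0, 2049, 0), (1207023209607, 0, 1), (4193, 4, 0), (233571,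
    2, 0), (4328483, 0, 1), (3107, 1, 0), (0, 3841, 0), (2306534870150, 0, 1), (4194, 4, 0),
    (200803, 2, 0), (4328515, 0, 1), (3139, 1, 0), (168164, 3075, 1537), (99429, 0, 5),
    (168132, 3587, 513), (100453, 0, 5), (205620325, 1796, 513), (4432397413, 0, 1),
    (239175781, 281565221359364, 513), (208769155, 0, 3)] 2 7 rfl (by decide +kernel)
  have s2 : Commute y2 a2 :=
    hD.run [a, y, d, e, f, y2, a2] ⟨ha, hy, hd, he, hf, hy2, ha2, trivial⟩ [((.m (.g 0) (.g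
    1)), (.m (.g 1) (.g 0))), ((.g 4), (.j (.g 2) (.g 3))), ((.g 6), (.j (.g 0) (.g 4))), ((.g
    5), (.j (.g 1) (.g 4)))] ⟨hay, ef, ea2, ey2, trivial⟩ ((.m (.g 5) (.g 6)), (.m (.g 6) (.g
    5))) [] [(0, 1, 0), (35718209, 0, 1), (65, 1, 0), (0, 1025, 0), (104991877, 0, 1), (0,
    1793, 0), (38962343, 0, 1), (161, 3, 0), (0, 2817, 0), (72517798, 0, 1), (162, 3, 0),
    (4263, 1538, 1025), (5156, 0, 4), (4262, 2050, 769), (5188, 0, 4), (201764, 1027, 513),
    (234564, 281530844841987, 257), (208800868, 0, 3)] 2 7 rfl (by decide +kernel)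
  have s3 : Commute y3 a3 :=
    hD.run [a, y, d, e, f, y3, a3] ⟨ha, hy, hd, he, hf, hy3, ha3, trivial⟩ [((.m (.g 0) (.g
    1)), (.m (.g 1) (.g 0))), ((.g 4), (.j (.g 2) (.g 3))), ((.g 6), (.j (.g 0) (.g 3))), ((.g
    5), (.j (.g 1) (.g 3)))] ⟨hay, ef, ea3, ey3, trivial⟩ ((.m (.g 5) (.g 6)), (.m (.g 6) (.g
    5))) [] [(0, 1, 0), (35718209, 0, 1), (65, 1, 0), (0, 1025, 0), (104991877, 0, 1), (131, 3,
    0), (0, 2049, 0), (37880967, 0, 1), (129, 3, 0), (0, 3073, 0), (71436422, 0, 1), (130, 3,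
    0), (5255, 1538, 1025), (4133, 0, 4), (5254, 2050, 769), (4165, 0, 4), (200741, 1027, 513),
    (233541, 281535139809283, 257), (208769155, 0, 3)] 2 7 rfl (by decide +kernel)
  obtain ⟨u, hu, eu⟩ : ∃ z, z ∈ D ∧ z = cm a y1 := ⟨_, (hD.comm _ ha _ hy1), rfl⟩
  obtain ⟨u1, hu1, eu1⟩ : ∃ z, z ∈ D ∧ z = cm y a1 := ⟨_, (hD.comm _ hy _ ha1), rfl⟩
  obtain ⟨u2, hu2, eu2⟩ : ∃ z, z ∈ D ∧ z = cm a2 y3 := ⟨_, (hD.comm _ ha2 _ hy3), rfl⟩
  obtain ⟨u3, hu3, eu3⟩ : ∃ z, z ∈ D ∧ z = cm y2 a3 := ⟨_, (hD.comm _ hy2 _ ha3), rfl⟩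
  obtain ⟨A, hA, eA⟩ : ∃ z, z ∈ D ∧ z = cm a a1 := ⟨_, (hD.comm _ ha _ ha1), rfl⟩
  obtain ⟨B, hB, eB⟩ : ∃ z, z ∈ D ∧ z = cm y y1 := ⟨_, (hD.comm _ hy _ hy1), rfl⟩
  have eA2 : A = cm a2 a3 :=
    hD.run [A, a, a1, a2, a3] ⟨hA, ha, ha1, ha2, ha3, trivial⟩ [((.c (.g 1) (.g 2)), (.c (.g 3)
    (.g 4))), ((.g 0), (.c (.g 1) (.g 2)))] ⟨bba, eA, trivial⟩ ((.g 0), (.c (.g 3) (.g 4))) []
    [(0, 257, 0), (3290531937, 0, 1), (67, 3, 0), (35906, 2, 0), (97, 16777219, 0), (0,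
    281479288456449, 0), (5507289249, 0, 1)] 1 5 rfl (by decide +kernel)
  have eB2 : B = cm y2 y3 :=
    hD.run [B, y, y1, y2, y3] ⟨hB, hy, hy1, hy2, hy3, trivial⟩ [((.c (.g 1) (.g 2)), (.c (.g 3)
    (.g 4))), ((.g 0), (.c (.g 1) (.g 2)))] ⟨bby, eB, trivial⟩ ((.g 0), (.c (.g 3) (.g 4))) []
    [(0, 257, 0), (3290531937, 0, 1), (67, 3, 0), (35906, 2, 0), (97, 16777219, 0), (0,
    281479288456449, 0), (5507289249, 0, 1)] 1 5 rfl (by decide +kernel)
  have A1 : Commute A y :=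
    hD.run [A, a2, a3, y] ⟨hA, ha2, ha3, hy, trivial⟩ [((.m (.g 3) (.g 1)), (.m (.g 1) (.g
    3))), ((.m (.g 3) (.g 2)), (.m (.g 2) (.g 3))), ((.g 0), (.c (.g 1) (.g 2)))] ⟨t1, t2, eA2,
    trivial⟩ ((.m (.g 0) (.g 3)), (.m (.g 3) (.g 0))) [] [(0, 1, 0), (136384580, 0, 1), (0,
    769, 0), (137465956, 0, 1), (0, 1537, 0), (3290531937, 0, 1), (67, 3, 0), (35906, 2, 0),
    (97, 16777219, 0), (1124, 2, 1281), (2146, 0, 4311745025), (68676, 4311744514,
    4723015845671015024897), (36963, 0, 12901679106)] 2 4 rfl (by decide +kernel)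
  have A2 : Commute A y1 :=
    hD.run [A, a2, a3, y1] ⟨hA, ha2, ha3, hy1, trivial⟩ [((.m (.g 3) (.g 1)), (.m (.g 1) (.g
    3))), ((.m (.g 3) (.g 2)), (.m (.g 2) (.g 3))), ((.g 0), (.c (.g 1) (.g 2)))] ⟨t5, t6, eA2,
    trivial⟩ ((.m (.g 0) (.g 3)), (.m (.g 3) (.g 0))) [] [(0, 1, 0), (136384580, 0, 1), (0,
    769, 0), (137465956, 0, 1), (0, 1537, 0), (3290531937, 0, 1), (67, 3, 0), (35906, 2, 0),
    (97, 16777219, 0), (1124, 2, 1281), (2146, 0, 4311745025), (68676, 4311744514,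
    4723015845671015024897), (36963, 0, 12901679106)] 2 4 rfl (by decide +kernel)
  have A3 : Commute A y2 :=
    hD.run [A, a, a1, y2] ⟨hA, ha, ha1, hy2, trivial⟩ [((.m (.g 3) (.g 1)), (.m (.g 1) (.g
    3))), ((.m (.g 3) (.g 2)), (.m (.g 2) (.g 3))), ((.g 0), (.c (.g 1) (.g 2)))] ⟨t3, t7, eA,
    trivial⟩ ((.m (.g 0) (.g 3)), (.m (.g 3) (.g 0))) [] [(0, 1, 0), (136384580, 0, 1), (0,
    769, 0), (137465956, 0, 1), (0, 1537, 0), (3290531937, 0, 1), (67, 3, 0), (35906, 2, 0),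
    (97, 16777219, 0), (1124, 2, 1281), (2146, 0, 4311745025), (68676, 4311744514,
    4723015845671015024897), (36963, 0, 12901679106)] 2 4 rfl (by decide +kernel)
  have A4 : Commute A y3 :=
    hD.run [A, a, a1, y3] ⟨hA, ha, ha1, hy3, trivial⟩ [((.m (.g 3) (.g 1)), (.m (.g 1) (.g
    3))), ((.m (.g 3) (.g 2)), (.m (.g 2) (.g 3))), ((.g 0), (.c (.g 1) (.g 2)))] ⟨t4, t8, eA,
    trivial⟩ ((.m (.g 0) (.g 3)), (.m (.g 3) (.g 0))) [] [(0, 1, 0), (136384580, 0, 1), (0,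
    769, 0), (137465956, 0, 1), (0, 1537, 0), (3290531937, 0, 1), (67, 3, 0), (35906, 2, 0),
    (97, 16777219, 0), (1124, 2, 1281), (2146, 0, 4311745025), (68676, 4311744514,
    4723015845671015024897), (36963, 0, 12901679106)] 2 4 rfl (by decide +kernel)
  have B1 : Commute B a :=
    hD.run [B, y2, y3, a] ⟨hB, hy2, hy3, ha, trivial⟩ [((.m (.g 1) (.g 3)), (.m (.g 3) (.g
    1))), ((.m (.g 2) (.g 3)), (.m (.g 3) (.g 2))), ((.g 0), (.c (.g 1) (.g 2)))] ⟨t3, t4, eB2,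
    trivial⟩ ((.m (.g 0) (.g 3)), (.m (.g 3) (.g 0))) [] [(0, 1, 0), (71436418, 0, 1), (130, 1,
    0), (0, 1025, 0), (104991875, 0, 1), (131, 1, 0), (0, 2049, 0), (3290531937, 0, 1), (67, 3,
    0), (35906, 2, 0), (97, 16777219, 0), (1124, 2, 1281), (2146, 0, 4311745025), (68676,
    4311744514, 4723087903265052953089), (36963, 0, 12901679106)] 2 4 rfl (by decide +kernel)
  have B2 : Commute B a1 :=
    hD.run [B, y2, y3, a1] ⟨hB, hy2, hy3, ha1, trivial⟩ [((.m (.g 1) (.g 3)), (.m (.g 3) (.g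
    1))), ((.m (.g 2) (.g 3)), (.m (.g 3) (.g 2))), ((.g 0), (.c (.g 1) (.g 2)))] ⟨t7, t8, eB2,
    trivial⟩ ((.m (.g 0) (.g 3)), (.m (.g 3) (.g 0))) [] [(0, 1, 0), (71436418, 0, 1), (130, 1,
    0), (0, 1025, 0), (104991875, 0, 1), (131, 1, 0), (0, 2049, 0), (3290531937, 0, 1), (67, 3,
    0), (35906, 2, 0), (97, 16777219, 0), (1124, 2, 1281), (2146, 0, 4311745025), (68676,
    4311744514, 4723087903265052953089), (36963, 0, 12901679106)] 2 4 rfl (by decide +kernel)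
  have B3 : Commute B a2 :=
    hD.run [B, y, y1, a2] ⟨hB, hy, hy1, ha2, trivial⟩ [((.m (.g 1) (.g 3)), (.m (.g 3) (.g
    1))), ((.m (.g 2) (.g 3)), (.m (.g 3) (.g 2))), ((.g 0), (.c (.g 1) (.g 2)))] ⟨t1, t5, eB,
    trivial⟩ ((.m (.g 0) (.g 3)), (.m (.g 3) (.g 0))) [] [(0, 1, 0), (71436418, 0, 1), (130, 1,
    0), (0, 1025, 0), (104991875, 0, 1), (131, 1, 0), (0, 2049, 0), (3290531937, 0, 1), (67, 3,
    0), (35906, 2, 0), (97, 16777219, 0), (1124, 2, 1281), (2146, 0, 4311745025), (68676,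
    4311744514, 4723087903265052953089), (36963, 0, 12901679106)] 2 4 rfl (by decide +kernel)
  have B4 : Commute B a3 :=
    hD.run [B, y, y1, a3] ⟨hB, hy, hy1, ha3, trivial⟩ [((.m (.g 1) (.g 3)), (.m (.g 3) (.g
    1))), ((.m (.g 2) (.g 3)), (.m (.g 3) (.g 2))), ((.g 0), (.c (.g 1) (.g 2)))] ⟨t2, t6, eB,
    trivial⟩ ((.m (.g 0) (.g 3)), (.m (.g 3) (.g 0))) [] [(0, 1, 0), (71436418, 0, 1), (130, 1,
    0), (0, 1025, 0), (104991875, 0, 1), (131, 1, 0), (0, 2049, 0), (3290531937, 0, 1), (67, 3,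
    0), (35906, 2, 0), (97, 16777219, 0), (1124, 2, 1281), (2146, 0, 4311745025), (68676,
    4311744514, 4723087903265052953089), (36963, 0, 12901679106)] 2 4 rfl (by decide +kernel)
  have k1 : cm (a * y) (a1 * y1) = ((u * A) * B) * u1 :=
    hD.run [a, y, a1, y1, u, u1, A, B] ⟨ha, hy, ha1, hy1, hu, hu1, hA, hB, trivial⟩ [((.m (.g
    0) (.g 1)), (.m (.g 1) (.g 0))), ((.m (.g 3) (.g 2)), (.m (.g 2) (.g 3))), ((.g 4), (.c (.g
    0) (.g 3))), ((.g 5), (.c (.g 1) (.g 2))), ((.g 6), (.c (.g 0) (.g 2))), ((.g 7), (.c (.g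
    1) (.g 3))), ((.m (.g 6) (.g 1)), (.m (.g 1) (.g 6))), ((.m (.g 6) (.g 3)), (.m (.g 3) (.g
    6))), ((.m (.g 7) (.g 0)), (.m (.g 0) (.g 7))), ((.m (.g 7) (.g 2)), (.m (.g 2) (.g 7)))]
    ⟨hay, s1, eu, eu1, eA, eB, A1, A2, B1, B2, trivial⟩ ((.c (.m (.g 0) (.g 1)) (.m (.g 2) (.g
    3))), (.m (.m (.m (.g 4) (.g 6)) (.g 7)) (.g 5))) [] [(0, 1, 0), (35718209, 0, 1), (65, 1,
    0), (0, 1025, 0), (137465956, 0, 1), (0, 2817, 0), (237050951, 0, 1), (0, 3585, 0),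
    (239213703, 0, 1), (0, 4353, 0), (269525032, 0, 1), (0, 5121, 0), (271687784, 0, 1), (0,
    3841, 0), (4329702533, 0, 1), (36, 3, 0), (167969, 2, 0), (133, 0, 16777219), (33921, 257,
    0), (38020, 2, 0), (161, 16777219, 0), (0, 6145, 0), (3290531942, 0, 1), (67, 3, 0),
    (199746, 2, 0), (102, 0, 16777219), (67682, 257, 0), (71779, 2, 0), (194, 16777219, 0),
    (100451, 33554690, 0), (0, 8705, 0), (3255927911, 0, 1), (35, 3, 0), (232481, 2, 0), (103,
    0, 16777219), (33889, 257, 0), (40035, 2, 0), (225, 16777219, 0), (0, 11009, 0),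
    (4364306568, 0, 1), (68, 3, 0), (266306, 2, 0), (136, 0, 16777219), (67714, 257, 0),
    (73860, 2, 0), (258, 16777219, 0), (133252, 33554690, 0), (167970, 11265, 7938), (5376033,
    2, 0), (167976, 25803367937, 2738751549181272322), (5509153, 0, 141750697986), (172164, 0,
    2), (4132, 0, 133160771585), (199752, 171832248065, 504966280034393346), (6556738, 0,
    124570828802), (204899, 0, 2), (3139, 0, 115980901377), (138337, 12291, 6145), (3108,
    405885940638368665437764858150916, 0), (7376995, 2, 0), (232488, 201897029889,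
    3531385259692137218), (7605281, 0, 115980894210), (237667, 0, 2), (204930, 1795, 5633),
    (8657026, 1, 0), (2182, 446450739293932784606415440314372, 0), (8525890, 2, 0), (8521826,
    10753, 6659), (68738, 21439119196034634297552234063632663576581, 16130), (8589411,
    144396714608951298, 0), (270470, 0, 1), (137283, 3, 10497), (6492227, 1, 0), (8458276,
    6659, 5121), (37960, 281779952943109, 1440130374104300577451877777546241), (276894753, 0,
    2)] 26237680718591423922475619452239192209888563501207702294398217068024086659846 8 rfl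
    (by decide +kernel)
  have k2 : cm (a2 * y2) (a3 * y3) = ((u2 * A) * B) * u3 :=
    hD.run [a2, y2, a3, y3, u2, u3, A, B] ⟨ha2, hy2, ha3, hy3, hu2, hu3, hA, hB, trivial⟩ [((.m
    (.g 1) (.g 0)), (.m (.g 0) (.g 1))), ((.m (.g 3) (.g 2)), (.m (.g 2) (.g 3))), ((.g 4), (.c
    (.g 0) (.g 3))), ((.g 5), (.c (.g 1) (.g 2))), ((.g 6), (.c (.g 0) (.g 2))), ((.g 7), (.c
    (.g 1) (.g 3))), ((.m (.g 6) (.g 1)), (.m (.g 1) (.g 6))), ((.m (.g 6) (.g 3)), (.m (.g 3)
    (.g 6))), ((.m (.g 7) (.g 0)), (.m (.g 0) (.g 7))), ((.m (.g 7) (.g 2)), (.m (.g 2) (.g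
    7)))] ⟨s2, s3, eu2, eu3, eA2, eB2, A3, A4, B3, B4, trivial⟩ ((.c (.m (.g 0) (.g 1)) (.m (.g
    2) (.g 3))), (.m (.m (.m (.g 4) (.g 6)) (.g 7)) (.g 5))) [] [(0, 1, 0), (68192290, 0, 1),
    (0, 769, 0), (137465956, 0, 1), (0, 2561, 0), (237050951, 0, 1), (0, 3329, 0), (239213703,
    0, 1), (0, 4097, 0), (269525032, 0, 1), (0, 4865, 0), (271687784, 0, 1), (0, 3585, 0),
    (4329702533, 0, 1), (36, 3, 0), (167969, 2, 0), (133, 0, 16777219), (33921, 257, 0),
    (38020, 2, 0), (161, 16777219, 0), (0, 5889, 0), (3290531942, 0, 1), (67, 3, 0), (199746,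
    2, 0), (102, 0, 16777219), (67682, 257, 0), (71779, 2, 0), (194, 16777219, 0), (100451,
    33554690, 0), (0, 8449, 0), (3255927911, 0, 1), (35, 3, 0), (232481, 2, 0), (103, 0,
    16777219), (33889, 257, 0), (40035, 2, 0), (225, 16777219, 0), (0, 10753, 0), (4364306568,
    0, 1), (68, 3, 0), (266306, 2, 0), (136, 0, 16777219), (67714, 257, 0), (73860, 2, 0),
    (258, 16777219, 0), (133252, 33554690, 0), (167970, 11265, 7938), (5376033, 2, 0), (167976,
    25803367937, 2738751549181272322), (5509153, 0, 141750697986), (172164, 0, 2), (4132, 0,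
    133160771585), (199752, 171832248065, 504966280034393346), (6556738, 0, 124570828802),
    (204899, 0, 2), (3139, 0, 115980901377), (138337, 12291, 6145), (3108,
    405885940638368665437764858150916, 0), (7376995, 2, 0), (232488, 201897029889,
    3531385259692137218), (7605281, 0, 115980894210), (237667, 0, 2), (204930, 1795, 5633),
    (8657026, 1, 0), (2182, 446450739293932784606415440314372, 0), (8525890, 2, 0), (8521826,
    10753, 6659), (68738, 21439119196034634297552234063632663576581, 16130), (8589411,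
    144396714608951298, 0), (270470, 0, 1), (137283, 3, 10497), (6492227, 1, 0), (8458276,
    6659, 5121), (37960, 281779952943109, 1440130374104300577451877777546241), (276894753, 0,
    2)] 26237680718591423922475619452239192209888563501207702294398217068024086659846 8 rfl
    (by decide +kernel)
  have k3 : ((u * A) * B) * u1 = ((u2 * A) * B) * u3 :=
    hD.run [a, y, a1, y1, a2, y2, a3, y3, c, c1, c2, c3, u, u1, u2, u3, A, B] ⟨ha, hy, ha1,
    hy1, ha2, hy2, ha3, hy3, hc, hc1, hc2, hc3, hu, hu1, hu2, hu3, hA, hB, trivial⟩ [((.g 8),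
    (.m (.g 0) (.g 1))), ((.g 9), (.m (.g 2) (.g 3))), ((.g 10), (.m (.g 4) (.g 5))), ((.g 11),
    (.m (.g 6) (.g 7))), ((.c (.g 8) (.g 9)), (.c (.g 10) (.g 11))), ((.c (.m (.g 0) (.g 1))
    (.m (.g 2) (.g 3))), (.m (.m (.m (.g 12) (.g 16)) (.g 17)) (.g 13))), ((.c (.m (.g 4) (.g
    5)) (.m (.g 6) (.g 7))), (.m (.m (.m (.g 14) (.g 16)) (.g 17)) (.g 15)))] ⟨ec, fc1, fc2,
    fc3, bbc, k1, k2, trivial⟩ ((.m (.m (.m (.g 12) (.g 16)) (.g 17)) (.g 13)), (.m (.m (.m (.g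
    14) (.g 16)) (.g 17)) (.g 15))) [] [(0, 1, 0), (33865, 0, 1), (1, 2, 0), (9282, 2, 0), (9,
    2, 0), (0, 1537, 0), (101514, 0, 1), (3, 2, 0), (10372, 2, 0), (10, 2, 0), (0, 3073, 0),
    (169163, 0, 1), (5, 2, 0), (11462, 2, 0), (11, 2, 0), (0, 4609, 0), (236812, 0, 1), (7, 2,
    0), (12552, 2, 0), (12, 2, 0), (0, 6145, 0), (445165161519850825, 0, 1), (337225, 1, 0),
    (0, 263988259272361562685372295552001, 0), (525282250114540873, 0, 1), (337225, 1, 0), (0,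
    1022176450769983890581655641504568320001, 0), (597342111897298249, 0, 1), (337225, 1, 0),
    (305450, 5, 0), (16304656, 2, 0), (311764304, 0, 1), (337232, 1, 0), (534826, 0, 5)]
    33556481 18 rfl (by decide +kernel)
  have A5 : Commute A u1 :=
    hD.run [A, y, a, a1, u1] ⟨hA, hy, ha, ha1, hu1, trivial⟩ [((.g 4), (.c (.g 1) (.g 3))),
    ((.g 0), (.c (.g 2) (.g 3))), ((.m (.g 0) (.g 1)), (.m (.g 1) (.g 0)))] ⟨eu1, eA, A1,
    trivial⟩ ((.m (.g 0) (.g 4)), (.m (.g 4) (.g 0))) [] [(0, 513, 0), (35718209, 0, 1), (65,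
    1, 0), (0, 769, 0), (4364306565, 0, 1), (68, 3, 0), (168002, 2, 0), (0, 2049, 0),
    (4398910593, 0, 1), (100, 3, 0), (36963, 2, 0), (129, 16777219, 0), (34946, 1281,
    6054074479838706515577091), (38020, 0, 4311744514)] 2 5 rfl (by decide +kernel)
  have A6 : Commute A u3 :=
    hD.run [A, y2, a2, a3, u3] ⟨hA, hy2, ha2, ha3, hu3, trivial⟩ [((.g 4), (.c (.g 1) (.g 3))),
    ((.g 0), (.c (.g 2) (.g 3))), ((.m (.g 0) (.g 1)), (.m (.g 1) (.g 0)))] ⟨eu3, eA2, A3,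
    trivial⟩ ((.m (.g 0) (.g 4)), (.m (.g 4) (.g 0))) [] [(0, 513, 0), (35718209, 0, 1), (65,
    1, 0), (0, 769, 0), (4364306565, 0, 1), (68, 3, 0), (168002, 2, 0), (0, 2049, 0),
    (4398910593, 0, 1), (100, 3, 0), (36963, 2, 0), (129, 16777219, 0), (34946, 1281,
    6054074479838706515577091), (38020, 0, 4311744514)] 2 5 rfl (by decide +kernel)
  have B5 : Commute B u1 :=
    hD.run [B, y, y1, a1, u1] ⟨hB, hy, hy1, ha1, hu1, trivial⟩ [((.g 4), (.c (.g 1) (.g 3))),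
    ((.g 0), (.c (.g 1) (.g 2))), ((.m (.g 0) (.g 3)), (.m (.g 3) (.g 0)))] ⟨eu1, eB, B2,
    trivial⟩ ((.m (.g 0) (.g 4)), (.m (.g 4) (.g 0))) [] [(0, 513, 0), (37880961, 0, 1), (129,
    1, 0), (0, 769, 0), (4364306565, 0, 1), (68, 3, 0), (168002, 2, 0), (0, 2049, 0),
    (3290531937, 0, 1), (67, 3, 0), (35906, 2, 0), (97, 16777219, 0), (68674, 33554690, 0),
    (101410, 1, 0), (65, 16777219, 0), (34946, 2049, 9680851290164299237949443), (38020, 0,
    55851352066)] 2 5 rfl (by decide +kernel)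
  have B6 : Commute B u3 :=
    hD.run [B, y2, y3, a3, u3] ⟨hB, hy2, hy3, ha3, hu3, trivial⟩ [((.g 4), (.c (.g 1) (.g 3))),
    ((.g 0), (.c (.g 1) (.g 2))), ((.m (.g 0) (.g 3)), (.m (.g 3) (.g 0)))] ⟨eu3, eB2, B4,
    trivial⟩ ((.m (.g 0) (.g 4)), (.m (.g 4) (.g 0))) [] [(0, 513, 0), (37880961, 0, 1), (129,
    1, 0), (0, 769, 0), (4364306565, 0, 1), (68, 3, 0), (168002, 2, 0), (0, 2049, 0),
    (3290531937, 0, 1), (67, 3, 0), (35906, 2, 0), (97, 16777219, 0), (68674, 33554690, 0),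
    (101410, 1, 0), (65, 16777219, 0), (34946, 2049, 9680851290164299237949443), (38020, 0,
    55851352066)] 2 5 rfl (by decide +kernel)
  have k4 : u = (u2 * u3) * u1 :=
    hD.run [u, u1, u2, u3, A, B] ⟨hu, hu1, hu2, hu3, hA, hB, trivial⟩ [((.m (.m (.m (.g 0) (.g
    4)) (.g 5)) (.g 1)), (.m (.m (.m (.g 2) (.g 4)) (.g 5)) (.g 3))), ((.m (.g 4) (.g 1)), (.m
    (.g 1) (.g 4))), ((.m (.g 4) (.g 3)), (.m (.g 3) (.g 4))), ((.m (.g 5) (.g 1)), (.m (.g 1)
    (.g 5))), ((.m (.g 5) (.g 3)), (.m (.g 3) (.g 5)))] ⟨k3, A5, A6, B5, B6, trivial⟩ ((.g 0),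
    (.m (.m (.g 2) (.g 3)) (.g 1))) [] [(0, 257, 0), (169940037, 0, 1), (0, 1025, 0),
    (172102789, 0, 1), (0, 1793, 0), (203495494, 0, 1), (0, 2561, 0), (205658246, 0, 1), (0,
    81367322921039373548571039107073, 0), (137465921, 0, 1), (65, 1, 0), (34, 3, 0), (3204, 2,
    0), (33860, 0, 1), (97, 3, 0)] 2 6 rfl (by decide +kernel)
  have j1 : Commute y (cj b a1) := Hb _ ha1
  have m1 : Commute u1 b :=
    hD.run [y, b, a1, u1] ⟨hy, hb, ha1, hu1, trivial⟩ [((.m (.g 0) (.g 1)), (.m (.g 1) (.g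
    0))), ((.g 3), (.c (.g 0) (.g 2))), ((.m (.g 0) (.j (.g 1) (.g 2))), (.m (.j (.g 1) (.g 2))
    (.g 0)))] ⟨hb1, eu1, j1, trivial⟩ ((.m (.g 3) (.g 1)), (.m (.g 1) (.g 3))) [] [(0, 1, 0),
    (35718209, 0, 1), (65, 1, 0), (0, 1025, 0), (3255927908, 0, 1), (35, 3, 0), (134177, 2, 0),
    (33889, 1, 0), (36963, 2, 0), (129, 16777219, 0), (0, 60926465450117113486352725314561, 0),
    (4470090107011, 0, 1), (2179, 0, 1), (69731, 0, 2)] 1 4 rfl (by decide +kernel)
  obtain ⟨x2, hx2, ex2⟩ : ∃ z, z ∈ D ∧ z = cj e a2 := ⟨_, (hD.conj _ he _), rfl⟩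
  obtain ⟨x3, hx3, ex3⟩ : ∃ z, z ∈ D ∧ z = cj f a3 := ⟨_, (hD.conj _ hf _), rfl⟩
  have j2 : Commute y (cj b e) := Hb _ he
  have j3 : Commute y (cj b f) := Hb _ hf
  have j4 : Commute y (cj b x2) := Hb _ hx2
  have j5 : Commute y (cj b x3) := Hb _ hx3
  have m2 : Commute u2 b :=
    hD.run [y, b, e, a2, y3, x2, u2] ⟨hy, hb, he, ha2, hy3, hx2, hu2, trivial⟩ [((.g 4), (.j
    (.g 0) (.g 2))), ((.m (.g 0) (.g 3)), (.m (.g 3) (.g 0))), ((.g 6), (.c (.g 3) (.g 4))),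
    ((.g 5), (.j (.g 2) (.g 3))), ((.m (.g 0) (.j (.g 1) (.g 2))), (.m (.j (.g 1) (.g 2)) (.g
    0))), ((.m (.g 0) (.j (.g 1) (.g 5))), (.m (.j (.g 1) (.g 5)) (.g 0)))] ⟨ey3, t1, eu2, ex2,
    j2, j4, trivial⟩ ((.m (.g 6) (.g 1)), (.m (.g 1) (.g 6))) [(.c (.g 0) (.g 2)), (.c (.g 1)
    (.g 4))] [(0, 513, 0), (36799589, 0, 1), (97, 3, 0), (0, 1537, 0), (37880961, 0, 1), (129,
    1, 0), (0, 2817, 0), (104991878, 0, 1), (131, 3, 0), (0, 3329, 0), (5507289255, 0, 1),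
    (133, 3, 0), (234628, 2, 0), (135332, 1, 0), (138405, 2, 0), (228, 16777219, 0), (0, 4097,
    0), (39445083901232225, 0, 1), (99425, 1, 0), (0, 5121, 0), (77763133990668450, 0, 1),
    (166050, 1, 0), (0, 7169, 0), (39480269347063905, 0, 1), (100449, 1, 0), (1149027, 2, 0),
    (103877667, 0, 1), (0, 8705, 0), (42861370782451905, 0, 1), (198849, 1, 0), (5221, 6914,
    7169), (101413, 864972728036229121, 0), (3245153, 0, 1), (1121, 8606711809, 0), (6279,
    6402, 4609), (234630, 2089951839549135617, 5890), (6308, 4311744516, 0), (1252484, 0, 2),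
    (166, 3, 0), (235553, 2, 0), (199, 3, 0), (39077, 2, 0), (72422435, 5123, 2049),
    (5441127523, 0, 48380645770484072870576130), (74258221089, 0, 2), (162, 1, 0), (70849, 3,
    1537), (208832705, 1, 73047999748), (247169359046, 0, 2)] 1 7 rfl (by decide +kernel)
  have m3 : Commute u3 b :=
    hD.run [y, b, f, a3, y2, x3, u3] ⟨hy, hb, hf, ha3, hy2, hx3, hu3, trivial⟩ [((.g 4), (.j
    (.g 0) (.g 2))), ((.m (.g 0) (.g 3)), (.m (.g 3) (.g 0))), ((.g 6), (.c (.g 4) (.g 3))),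
    ((.g 5), (.j (.g 2) (.g 3))), ((.m (.g 0) (.j (.g 1) (.g 2))), (.m (.j (.g 1) (.g 2)) (.g
    0))), ((.m (.g 0) (.j (.g 1) (.g 5))), (.m (.j (.g 1) (.g 5)) (.g 0)))] ⟨ey2, t2, eu3, ex3,
    j3, j5, trivial⟩ ((.m (.g 6) (.g 1)), (.m (.g 1) (.g 6))) [(.c (.g 0) (.g 2)), (.c (.g 1)
    (.g 4))] [(0, 513, 0), (36799589, 0, 1), (97, 3, 0), (0, 1537, 0), (37880961, 0, 1), (129,
    1, 0), (0, 2817, 0), (104991878, 0, 1), (131, 3, 0), (0, 3329, 0), (4468118663, 0, 1),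
    (164, 3, 0), (233637, 2, 0), (135, 0, 16777219), (169093, 257, 0), (171140, 2, 0), (229,
    16777219, 0), (136324, 33554690, 0), (0, 4609, 0), (39445083901232225, 0, 1), (99425, 1,
    0), (0, 5633, 0), (77763133990668450, 0, 1), (166050, 1, 0), (0, 7681, 0),
    (39480269347063905, 0, 1), (100449, 1, 0), (1149027, 2, 0), (103877667, 0, 1), (0, 9217,
    0), (42861370782451905, 0, 1), (198849, 1, 0), (5221, 7426, 7681), (101413,
    864972736626163713, 0), (3245153, 0, 1), (1121, 8606711809, 0), (6279, 6914, 5633),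
    (234630, 2234067036214926593, 4866), (6308, 4311744516, 0), (1252484, 0, 2), (166, 3, 0),
    (235553, 2, 0), (199, 3, 0), (39077, 2, 0), (72422435, 5123, 2049), (5441127523, 0,
    50798497409713331219988482), (74258221089, 0, 2), (162, 1, 0), (70849, 3, 1537),
    (208832705, 1, 73047999748), (247169359046, 0, 2)] 1 7 rfl (by decide +kernel)
  have m : Commute u b :=
    hD.run [u, u1, u2, u3, b] ⟨hu, hu1, hu2, hu3, hb, trivial⟩ [((.g 0), (.m (.m (.g 2) (.g 3))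
    (.g 1))), ((.m (.g 1) (.g 4)), (.m (.g 4) (.g 1))), ((.m (.g 2) (.g 4)), (.m (.g 4) (.g
    2))), ((.m (.g 3) (.g 4)), (.m (.g 4) (.g 3)))] ⟨k4, m1, m2, m3, trivial⟩ ((.m (.g 0) (.g
    4)), (.m (.g 4) (.g 0))) [] [(0, 1, 0), (137465921, 0, 1), (65, 1, 0), (34, 3, 0), (3204,
    2, 0), (33860, 0, 1), (97, 3, 0), (0, 2049, 0), (72517794, 0, 1), (162, 1, 0), (0, 3073,
    0), (106073251, 0, 1), (163, 1, 0), (0, 4097, 0), (139628708, 0, 1), (164, 1, 0), (4165,
    2306, 648799821351618049), (1125, 1025, 4), (37987, 0, 2)] 2 5 rfl (by decide +kernel)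
  have r : Commute (cm a (cj y (d * e))) b :=
    hD.run [a, b, y, d, e, y1, u] ⟨ha, hb, hy, hd, he, hy1, hu, trivial⟩ [((.g 5), (.j (.g 2)
    (.m (.g 3) (.g 4)))), ((.g 6), (.c (.g 0) (.g 5))), ((.m (.g 6) (.g 1)), (.m (.g 1) (.g
    6)))] ⟨ey1, eu, m, trivial⟩ ((.m (.c (.g 0) (.j (.g 2) (.m (.g 3) (.g 4)))) (.g 1)), (.m
    (.g 1) (.c (.g 0) (.j (.g 2) (.m (.g 3) (.g 4)))))) [] [(0, 513, 0), (237050951, 0, 1), (0,
    769, 0), (6477251783, 0, 1), (38, 3, 0), (235553, 2, 0), (33985, 1, 0), (40134, 2, 0),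
    (225, 16777219, 0), (197830, 33554690, 0), (0, 2561, 0), (3441514614950, 0, 1), (5251, 4,
    0), (6182, 0, 17196647681), (4364326, 515, 1), (40100, 5, 1539), (202543203, 2, 0),
    (136230, 34376515589, 0), (105028641, 0, 51556384770), (3360725156, 1537, 1027)]
    2726246822337428129222129025445762433028 7 rfl (by decide +kernel)
  exact r

theorem z2 {a b d e : G} (ha : a ∈ D) (hb : b ∈ D) (hd : d ∈ D) (he : e ∈ D) (Ha : ∀ x ∈ D,
    Commute (cm a b) (cj a x)) (Hb : ∀ x ∈ D, Commute (cm a b) (cj b x)) : Commute (cm a b) (cj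
    (cm a b) (d * e)) := by
  obtain ⟨y, hy, ey⟩ : ∃ z, z ∈ D ∧ z = cm a b := ⟨_, (hD.comm _ ha _ hb), rfl⟩
  have h1 : Commute a y :=
    hD.run [a, b, y] ⟨ha, hb, hy, trivial⟩ [((.g 2), (.c (.g 0) (.g 1)))] ⟨ey, trivial⟩ ((.m
    (.g 0) (.g 2)), (.m (.g 2) (.g 0))) [] [(0, 1, 0), (2182153283, 0, 1), (34, 3, 0), (100385,
    2, 0), (33857, 1, 0), (35906, 2, 0), (97, 16777219, 0)] 2 3 rfl (by decide +kernel)
  have h2 : Commute b y :=
    hD.run [a, b, y] ⟨ha, hb, hy, trivial⟩ [((.g 2), (.c (.g 0) (.g 1)))] ⟨ey, trivial⟩ ((.m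
    (.g 1) (.g 2)), (.m (.g 2) (.g 1))) [] [(0, 1, 0), (2182153283, 0, 1), (34, 3, 0), (100385,
    2, 0), (67, 0, 16777219)] 2 3 rfl (by decide +kernel)
  have h3 : cj a b = a * y :=
    hD.run [a, b, y] ⟨ha, hb, hy, trivial⟩ [((.g 2), (.c (.g 0) (.g 1))), ((.m (.g 0) (.g 2)),
    (.m (.g 2) (.g 0))), ((.m (.g 1) (.g 2)), (.m (.g 2) (.g 1)))] ⟨ey, h1, h2, trivial⟩ ((.j
    (.g 0) (.g 1)), (.m (.g 0) (.g 2))) [] [(0, 257, 0), (36799585, 0, 1), (97, 1, 0), (0,
    1281, 0), (70355042, 0, 1), (98, 1, 0), (0, 61164141475179384806556949284353, 0),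
    (1177585698, 0, 1), (2082, 0, 21491613697)] 1 3 rfl (by decide +kernel)
  have h4 : cj b a = b * y :=
    hD.run [a, b, y] ⟨ha, hb, hy, trivial⟩ [((.g 2), (.c (.g 0) (.g 1))), ((.m (.g 0) (.g 2)),
    (.m (.g 2) (.g 0))), ((.m (.g 1) (.g 2)), (.m (.g 2) (.g 1)))] ⟨ey, h1, h2, trivial⟩ ((.j
    (.g 1) (.g 0)), (.m (.g 1) (.g 2))) [] [(0, 257, 0), (36799585, 0, 1), (97, 1, 0), (0,
    1281, 0), (70355042, 0, 1), (98, 1, 0), (0, 61164141475179384806556949284353, 0),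
    (1177585698, 0, 1), (2082, 0, 21491613697), (66626, 2, 0), (34, 288793356186681347, 0),
    (100385, 2, 0)] 1 3 rfl (by decide +kernel)
  rw [← ey] at Ha Hb
  have u : Commute (cm a (cj y (d * e))) b := hD.z2_half ha hb hy hd he h1 (h3 ▸ hD.conj _
      ha _) Ha h2.symm Hb
  have v : Commute (cm b (cj y (d * e))) a := hD.z2_half hb ha hy hd he h2 (h4 ▸ hD.conj _
      hb _) Hb h1.symm Ha
  obtain ⟨z, hz, ez⟩ : ∃ z, z ∈ D ∧ z = cj y (d * e) := ⟨_, (hD.conj _ hy _), rfl⟩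
  have u1 : Commute (cm a z) b :=
    hD.run [a, b, y, d, e, z] ⟨ha, hb, hy, hd, he, hz, trivial⟩ [((.m (.c (.g 0) (.j (.g 2) (.m
    (.g 3) (.g 4)))) (.g 1)), (.m (.g 1) (.c (.g 0) (.j (.g 2) (.m (.g 3) (.g 4)))))), ((.g 5),
    (.j (.g 2) (.m (.g 3) (.g 4))))] ⟨u, ez, trivial⟩ ((.m (.c (.g 0) (.g 5)) (.g 1)), (.m (.g
    1) (.c (.g 0) (.g 5)))) [] [(0, 257, 0), (3441514614950, 0, 1), (5251, 4, 0), (201860, 2,
    0), (5410916, 0, 1), (4196, 1, 0), (0, 1537, 0),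
    (8047333184180489215867282471680266349276396197289947926689, 0, 1), (2490600718143164577,
    1, 0), (5444805, 771, 769), (137500837, 2, 0), (5542907013, 0, 1), (6425733, 1, 0),
    (4953989713705828086846498, 1025, 30215766797), (6579268945026148181316296270516385, 0, 1),
    (4613723834650785, 1, 0), (1306327356969060, 12, 0), (73363921394927781, 2, 0),
    (1194723980029856901, 0, 1), (182608166851347522, 770, 0), (4759325181136213026, 0, 1),
    (5986486810362123298, 3851, 1281), (1337679213536317637, 14, 3073),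
    (2494779286469866106785892, 0, 4), (1275710309570, 1, 0), (2406427496609, 10, 0),
    (71644454487238, 258, 0), (1166722636748870, 0, 1), (1275710309441, 10, 0),
    (152298305604467954722, 0, 4849871099046132132611841), (2512328625534683714594, 0, 1),
    (6636935713826, 1, 1281), (2327806915680289, 0, 2), (2238889202726, 1, 33556481),
    (71675660046501, 2, 0), (1167721214645317, 0, 1), (4505589711937, 12901679114, 0),
    (7692604289185667282758922277922, 563018689677325, 3640944847367374884576257),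
    (1402658319046076370294854, 1290, 18), (45983014217859118297974982, 0,
    31469850602412786657001474), (1436969194308097446811714, 0, 2), (44905287322128045212870,
    0, 167520501762), (7646989139081480069562521260132, 0, 6), (1245810850, 1, 0), (2319552673,
    8, 0), (207434613958, 51556384770, 0), (2274224114821, 0, 1), (1142097090, 0,
    281535123030024), (39182222091773663122470, 1793, 0), (1249109788664571549060229, 0, 1),
    (2405037186985212644485, 13019119617, 0), (6054140606200894494754, 2739595961243271184,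
    4849871675788320707716613), (1375891608403220514, 0, 1), (1306947357829, 171815469066, 0),
    (2348669127915376740, 0, 5), (68355270, 2, 0), (1113626694, 0, 1), (1246273, 6, 0)] 2 6 rfl
    (by decide +kernel)
  have v1 : Commute (cm b z) a :=
    hD.run [a, b, y, d, e, z] ⟨ha, hb, hy, hd, he, hz, trivial⟩ [((.m (.c (.g 1) (.j (.g 2) (.m
    (.g 3) (.g 4)))) (.g 0)), (.m (.g 0) (.c (.g 1) (.j (.g 2) (.m (.g 3) (.g 4)))))), ((.g 5),
    (.j (.g 2) (.m (.g 3) (.g 4))))] ⟨v, ez, trivial⟩ ((.m (.c (.g 1) (.g 5)) (.g 0)), (.m (.g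
    0) (.c (.g 1) (.g 5)))) [] [(0, 257, 0), (3441514614950, 0, 1), (5251, 4, 0), (201860, 2,
    0), (5410916, 0, 1), (4196, 1, 0), (0, 1537, 0),
    (8047333230948541652609983284526456013634018587721722859682, 0, 1), (1230752777082375301,
    0, 14), (5444805, 771, 769), (137500837, 2, 0), (5542907013, 0, 1), (6425733, 1, 0),
    (1290537823981928763755654, 1029, 83886081), (83570692472114779087016134, 0, 51556384770),
    (6420155425814519018007844491364, 0, 4), (4613724908392609, 1, 0), (1306327358017636, 12,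
    0), (218605009378511013, 2, 0), (1194723980063411333, 0, 1), (2289359407712449, 16777228,
    0), (1385704437063347133760423593120838, 3377704216824843, 1025),
    (3051870389951106662742352470827971724317766, 0, 1), (1275710310594, 0, 10),
    (40822729939010, 2, 0), (6968880895526946, 0, 1), (2375221938210, 1, 0), (2235702546594,
    10, 0), (212381942843590, 258, 0), (2327806915707974, 0, 1), (2375221937346, 10, 0),
    (1201907008870564, 2051, 7169), (78889000580977796, 2, 0), (1191382528890671204, 0, 1),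
    (2432227264860260, 1, 0), (38494078287119525, 0, 14516555577429145335889922),
    (1163491780169889, 0, 1), (2407501238433, 1, 0), (1275710310594, 10, 3585),
    (5773678438581282, 0, 3), (37591873327269, 514, 0), (2328839853315109, 0, 1),
    (4505590761506, 8606711818, 0), (181460293258373, 12952010753, 0), (6968880895526946, 0,
    1), (2375221938210, 1, 0), (212414222143653, 2, 0), (2327806915707973, 0, 1),
    (4505590760642, 10, 0), (1275710310594, 2306, 6401), (1290537823982961701295142, 6921,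
    5633), (80018328060878545128395814, 0, 1), (7335166922016627129222342, 0,
    685882295020594777190123010954109124610), (8034572647495697660672585383383202, 0, 8),
    (2319552673, 1, 0), (1245810850, 8, 0), (208509372614, 68736253954, 0), (1140386303109, 0,
    1), (2183334081, 281552302899208, 0), (208477982885, 33554690, 0), (2268889946149, 0, 1),
    (4399990978, 0, 8), (208341764294, 1794, 0), (2273248941094, 0, 1),
    (6268361986706220603378111526, 4724744946487425770497, 74995902116141685515759369),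
    (3873516572198139387185272897, 0, 5), (4465034434, 1, 0), (2350057636, 0, 8), (75201844356,
    2, 0), (6805411500132, 0, 1), (2183303268, 1, 0), (208508487845, 2, 0), (2268888960133, 0,
    1), (7163248947286053558342, 794322384311030273, 9446030283907050515719),
    (1354540979530470747291673237542, 0, 6), (6363201, 1, 0)] 1 6 rfl (by decide +kernel)
  have w : Commute (cm a b) z :=
    hD.run [a, b, z] ⟨ha, hb, hz, trivial⟩ [((.m (.c (.g 0) (.g 2)) (.g 1)), (.m (.g 1) (.c (.g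
    0) (.g 2)))), ((.m (.c (.g 1) (.g 2)) (.g 0)), (.m (.g 0) (.c (.g 1) (.g 2))))] ⟨u1, v1,
    trivial⟩ ((.m (.c (.g 0) (.g 1)) (.g 2)), (.m (.g 2) (.c (.g 0) (.g 1)))) [(.c (.g 0) (.g
    2)), (.c (.g 1) (.g 2))] [(0, 1, 0), (39445083901232225, 0, 1), (99425, 1, 0), (0, 1025,
    0), (75509066367076450, 0, 1), (100450, 1, 0), (0, 12985567233, 0),
    (1292535418560041813089, 0, 1), (2196577, 21508390913, 0), (0, 12985568257, 0),
    (2474278799732173277282, 0, 1), (1149026, 0, 21508390913), (72010992674, 1541, 769),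
    (73772608556066, 0, 1), (36735074, 7, 0), (2184218723, 0, 216454295761977346), (68256834,
    2, 0), (1109493794, 0, 1)] 2 3 rfl (by decide +kernel)
  have r : Commute (cm a b) (cj (cm a b) (d * e)) :=
    hD.run [a, b, y, d, e, z] ⟨ha, hb, hy, hd, he, hz, trivial⟩ [((.g 2), (.c (.g 0) (.g 1))),
    ((.g 5), (.j (.g 2) (.m (.g 3) (.g 4)))), ((.m (.c (.g 0) (.g 1)) (.g 5)), (.m (.g 5) (.c
    (.g 0) (.g 1))))] ⟨ey, ez, w, trivial⟩ ((.m (.c (.g 0) (.g 1)) (.j (.c (.g 0) (.g 1)) (.m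
    (.g 3) (.g 4)))), (.m (.j (.c (.g 0) (.g 1)) (.m (.g 3) (.g 4))) (.c (.g 0) (.g 1)))) []
    [(0, 1, 0), (2182153283, 0, 1), (34, 3, 0), (100385, 2, 0), (67, 0, 16777219), (33857, 257,
    0), (35906, 2, 0), (97, 16777219, 0), (66626, 33554690, 0), (0, 2561, 0), (3441514614950,
    0, 1), (5251, 4, 0), (0, 6058796702487897404608001, 0), (107154627, 0, 1), (195, 1, 0),
    (2082, 0, 30081550337), (104612, 259, 1025), (139660452, 1540, 1), (3360789636, 2, 0),
    (141905006692, 0, 1), (171085924, 1, 0), (4399991973, 2, 0), (177273441413, 0, 1)]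
    377755214344295424691749597687804744390540031820970814659635479319297 6 rfl
    (by decide +kernel)
  exact r

end Pool.Agent.P.MP_25cc86_al.IsC
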