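import Pool.Agent.K.MP_25cc86_al.C3

/-! The chain of laws: if thick elements of a quotient are trivial and the norms of elementary
abelian subgroups of rank three are thick, then the quotient is trivial on `D`. -/

namespace Pool.Agent.P.MP_25cc86_al

variable {G : Type*} [Group G] {D : Set G}

/-- `s` commutes with all conjugates of `y` by elements of `D`. -/
def Sig (D : Set G) (y s : G) : Prop := ∀ x ∈ D, Commute y (cj s x)

theorem cj_of_commute {x g : G} (h : Commute x g) : cj x g = x := by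
  rw [cj, mul_assoc, h.eq, inv_mul_cancel_left]

theorem IsC.sig_cj (hD : IsC D) {y s g : G} (h : Sig D y s) (hg : Commute y g) :
    Sig D y (cj s g) := by
  intro x hx
  have h1 := commute_cj (h _ (hD.conj x hx g⁻¹)) g
  rw [cj_of_commute hg] at h1
  have h2 : cj (cj s (g⁻¹⁻¹ * x * g⁻¹)) g = cj (cj s g) x := by simp only [cj]; group
  rwa [h2] at h1

theorem IsC.sig_of (hD : IsC D) {y s : G} (hy : y ∈ D) (hys : Commute y s)
    (h : ∀ x ∈ D, Commute (cm x y) s) : Sig D y s := by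
  intro x hx
  have h1 : Commute (cj y x) s := by
    have : cj y x = y * cm x y := by
      rw [hD.cm_symm hy hx, hD.cm_eq_cj hx, cancel_sq (hD.sq y hy)]
    rw [this]
    exact hys.mul_left (h x hx)
  have h2 := commute_cj h1 x
  rwa [hD.cj_cj hx] at h2

theorem IsC.thk_of (hD : IsC D) {a b : G} (ha : a ∈ D) (hb : b ∈ D) (h1 : Sig D (cm a b) a)
    (h2 : Sig D (cm a b) b) : Thk D (cm a b) := fun _ hd _ he => hD.z2 ha hb hd he h1 h2

section chain

variable {H : Type*} [Group H] {f : G →* H} (hD : IsC D)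
  (hC : ∀ p ∈ D, ∀ q ∈ D, Commute p q → p * q ∈ D) (hE : IsC (f '' D))
  (hN : ∀ u ∈ D, ∀ a ∈ D, ∀ p ∈ D, ∀ q ∈ D, Commute a p → Commute a q → Commute p q →
    cm (cm (cm (f u) (f a)) (f p)) (f q) = 1)
include hD hC hE hN

theorem level_two {a b c e : G} (ha : a ∈ D) (hb : b ∈ D) (hc : c ∈ D) (he : e ∈ D) :
    Sig (f '' D) (cm (cm (cm (f a) (f b)) (cm (f a) (f c))) (cm (f a) (f e)))
      (cm (cm (f a) (f b)) (cm (f a) (f c))) := by
  obtain ⟨y0, y1, y2, y3⟩ := hD.s1_comm ha hb hc he hC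
  obtain ⟨q1, q2, q3, q4, q5, q6⟩ := hD.q_facts ha hb hc
  have hw := hD.comm _ (hD.comm a ha b hb) _ (hD.comm a ha c hc)
  have hy := hD.comm _ hw _ (hD.comm a ha e he)
  have hyw : Commute (cm (cm (cm a b) (cm a c)) (cm a e)) (cm (cm a b) (cm a c)) :=
    (show Commute _ _ from hD.cm_comm_left hw (hD.comm a ha e he)).symm
  simp only [← map_cm]
  have h1 : cj a b ∈ D := hD.conj a ha b
  have h2 : cj a c ∈ D := hD.conj a ha c
  have h3 : cj a (b * c) ∈ D := hD.conj a ha _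
  generalize cm (cm (cm a b) (cm a c)) (cm a e) = y at *
  generalize cm (cm a b) (cm a c) = w at *
  generalize cj a b = a1 at *
  generalize cj a c = a2 at *
  generalize cj a (b * c) = a3 at *
  have m : ∀ {z}, z ∈ D → f z ∈ f '' D := fun hz => ⟨_, hz, rfl⟩
  refine hE.sig_of (m hy) (hyw.map f) ?_
  rintro _ ⟨x, hx, rfl⟩
  have c2w : Commute a2 w := by rw [q5]; exact hD.cm_comm_right h1 h2
  have p1 := hC _ ha _ h2 q2
  have p2 := hC _ h3 _ h1 q3
  have p3 := hC _ ha _ h1 q1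
  have p4 := hC _ h3 _ h2 q4
  have p5 := hC _ h2 _ hw c2w
  have k1 : Commute (a * a2) (a3 * a1) := hD.q_flat ha h1 h2 h3 hw q1 q2 q3 q4 q5 q6
  have k2 : Commute (a * a1) (a3 * a2) :=
    hD.q_flat ha h2 h1 h3 hw q2 q1 q4 q3 (q5.trans (hD.cm_symm h2 h1)) q6
  have s : ∀ {u v}, u ∈ D → v ∈ D → Commute y u → Commute y v →
      Commute (cm (f x) (f y)) (cj (cm (f x) (f y)) (f u * f v)) := fun hu hv c1 c2 => by
    have := (hD.s3 hy hx hu hv c1 c2 hC).map f
    simpa only [map_cj, map_cm, map_mul] using this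
  refine hE.s1_mod (hE.comm _ (m hx) _ (m hy)) (m ha) (m h1) (m h2) (m h3) (m hw) (q1.map f)
    (q2.map f) (q3.map f) (q4.map f) (by rw [q5, map_cm]) (by rw [q6, map_cm])
    (hN x hx y hy _ ha _ h1 y0 y1 q1) (hN x hx y hy _ ha _ h2 y0 y2 q2)
    (hN x hx y hy _ h3 _ h1 y3 y1 q3) (hN x hx y hy _ h3 _ h2 y3 y2 q4) ?_ ?_
    (s h1 h2 y1 y2) ?_ (s ha h2 y0 y2) (s ha h3 y0 y3) ?_ ?_
  · simpa only [map_mul] using
      hN x hx y hy _ p1 _ p2 (y0.mul_right y2) (y3.mul_right y1) k1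
  · simpa only [map_mul] using
      hN x hx y hy _ p3 _ p4 (y0.mul_right y1) (y3.mul_right y2) k2
  · simpa only [map_mul] using s p2 p5 (y3.mul_right y1) (y2.mul_right hyw)
  · simpa only [map_mul] using s ha p4 y0 (y3.mul_right y2)
  · simpa only [map_mul] using s ha p2 y0 (y3.mul_right y1)

theorem law_sig {a b c e : H} (ha : a ∈ f '' D) (hb : b ∈ f '' D) (hc : c ∈ f '' D)
    (he : e ∈ f '' D) : Sig (f '' D) (cm (cm (cm a b) (cm a c)) (cm a e))
      (cm (cm a b) (cm a c)) := by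
  obtain ⟨a, ha, rfl⟩ := ha
  obtain ⟨b, hb, rfl⟩ := hb
  obtain ⟨c, hc, rfl⟩ := hc
  obtain ⟨e, he, rfl⟩ := he
  exact level_two hD hC hE hN ha hb hc he

omit hC hE in
theorem law_x {a b x c : H} (ha : a ∈ f '' D) (hb : b ∈ f '' D) (hx : x ∈ f '' D)
    (hc : c ∈ f '' D) : cm (cm (cm c a) (cm a b)) (cm (cj a x) (cm x b)) = 1 := by
  obtain ⟨a, ha, rfl⟩ := ha
  obtain ⟨b, hb, rfl⟩ := hb
  obtain ⟨x, hx, rfl⟩ := hx
  obtain ⟨c, hc, rfl⟩ := hc
  obtain ⟨-, r1, r2, r3⟩ := hD.x0_facts ha hb hx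
  have := hN c hc a ha _ (hD.comm a ha b hb) _
    (hD.comm (cj a x) (hD.conj a ha x) _ (hD.comm x hx b hb)) r1 r2 r3
  simpa only [map_cm, map_cj] using this

variable (hT : ∀ y ∈ f '' D, Thk (f '' D) y → y = 1)
include hT

theorem law_met {a b c d e : H} (ha : a ∈ f '' D) (hb : b ∈ f '' D) (hc : c ∈ f '' D)
    (hd : d ∈ f '' D) (he : e ∈ f '' D) :
    Commute (cm (cm a b) (cm a c)) (cm (cm a d) (cm a e)) := by
  have hw := hE.comm _ (hE.comm a ha b hb) _ (hE.comm a ha c hc)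
  have hv := hE.comm _ (hE.comm a ha d hd) _ (hE.comm a ha e he)
  have h1 := law_sig hD hC hE hN ha hb hc (hE.conj _ (hE.comm a ha e he) d)
  have h2 := law_sig hD hC hE hN ha hd he (hE.conj _ (hE.comm a ha c hc) b)
  have e1 := (hE.b_facts ha hd he).1
  have e2 := (hE.b_facts ha hb hc).1
  change Sig _ (cm _ (cm a (cj (cm a e) d))) _ at h1
  change Sig _ (cm _ (cm a (cj (cm a c) b))) _ at h2
  rw [← e1] at h1
  rw [← e2, hE.cm_symm hw hv] at h2
  exact hE.commute_of_cm hw hv (hT _ (hE.comm _ hw _ hv) (hE.thk_of hw hv h1 h2))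

theorem law_three {a b c e : H} (ha : a ∈ f '' D) (hb : b ∈ f '' D) (hc : c ∈ f '' D)
    (he : e ∈ f '' D) : Commute (cm (cm a b) (cm a c)) (cm a e) := by
  have hw := hE.comm _ (hE.comm a ha b hb) _ (hE.comm a ha c hc)
  have ht := hE.comm a ha e he
  refine hE.commute_of_cm hw ht (hT _ (hE.comm _ hw _ ht)
    (hE.thk_of hw ht (law_sig hD hC hE hN ha hb hc he) fun x hx => ?_))
  have hv : cj (cm a c) b ∈ f '' D := hE.conj _ (hE.comm a ha c hc) b
  have e1 := (hE.b_facts ha hb hc).1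
  have hz : cj x e ∈ f '' D := hE.conj x hx e
  have hs := hE.comm a ha _ hz
  have m1 : Commute (cm (cm a b) (cm a c)) (cm (cm a e) (cm a (cj x e))) :=
    law_met hD hC hE hN hT ha hb hc he hz
  rw [e1] at m1 hw ⊢
  generalize cj (cm a c) b = v at hv m1 hw ⊢
  obtain ⟨-, b1, -, b2⟩ := hE.b_facts ha hv he
  refine hE.l3_core (hE.comm _ hw _ ht) ha he hx b1 b2 ?_ ?_
  · rw [hE.met_swap hw ht hs m1 (law_met hD hC hE hN hT ha hv he hv hz),
      (hE.b_facts ha hv hz).1]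
    exact (hE.b_facts ha (hE.conj _ hs v) he).2.2.2
  · rw [← (hE.x0_facts ha he hx).1]
    refine hE.commute_of_cm (hE.comm _ hw _ ht)
      (hE.comm _ (hE.conj a ha x) _ (hE.comm x hx e he)) ?_
    rw [← hE.cm_symm ha hv]
    exact law_x hD hN ha he hx hv

theorem law_two {a b c : H} (ha : a ∈ f '' D) (hb : b ∈ f '' D) (hc : c ∈ f '' D) :
    Commute (cj a b) (cj a c) := by
  obtain ⟨-, b1, b2, b3⟩ := hE.b_facts ha hb hc
  have h0 : Sig (f '' D) (cm (cm a b) (cm a c)) a := fun x hx => by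
    have : cj a x = a * cm a x := by rw [hE.cm_eq_cj hx, cancel_sq (hE.sq a ha)]
    rw [this]
    exact b1.mul_right (law_three hD hC hE hN hT ha hb hc hx)
  have h1 := hE.sig_cj h0 b2
  have h2 := hE.sig_cj h0 b3
  rw [(hE.q_facts ha hb hc).2.2.2.2.1] at h1 h2
  have m1 : cj a b ∈ f '' D := hE.conj a ha b
  have m2 : cj a c ∈ f '' D := hE.conj a ha c
  exact hE.commute_of_cm m1 m2 (hT _ (hE.comm _ m1 _ m2) (hE.thk_of m1 m2 h1 h2))

theorem law_one {a : H} (ha : a ∈ f '' D) : a = 1 := by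
  refine hT a ha fun d hd e he => ?_
  have := commute_cj (law_two hD hC hE hN hT ha he hd) e
  rwa [hE.cj_cj he, ← cj_mul] at this

end chain

/-- The reduction of the finiteness theorem to the thickness of norms of rank three. -/
theorem IsC.finite_of_norm (hD : IsC D) (hC : ∀ p ∈ D, ∀ q ∈ D, Commute p q → p * q ∈ D)
    (hR : ∀ u ∈ D, ∀ a ∈ D, ∀ p ∈ D, ∀ q ∈ D, Commute a p → Commute a q → Commute p q →
      Thk D (cm (cm (cm u a) p) q))
    {n : ℕ} (x : Fin n → G) (hx : ∀ i, x i ∈ D) (hgen : Subgroup.closure (Set.range x) = ⊤) :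
    Finite G ∧ IsPGroup 2 G := by
  refine hD.final x hx hgen fun M _ hT a ha => ?_
  refine law_one hD hC (hD.image _ (QuotientGroup.mk'_surjective M)) ?_ hT ⟨a, ha, rfl⟩
  intro u hu a ha p hp q hq h1 h2 h3
  simp only [← map_cm]
  exact hT _ ⟨_, hD.comm _ (hD.comm _ (hD.comm u hu a ha) p hp) q hq, rfl⟩
    ((hR u hu a ha p hp q hq h1 h2 h3).image _)

end Pool.Agent.P.MP_25cc86_al
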