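import Pool.Agent.K.MP_25cc86_al.C5

-- part Pool.Agent.P.MP_25cc86_al.Lv4
section

/-! The subgroup generated by the commutators with a norm of rank three has class at most three;
hence the norm dies in every quotient without thick elements. -/

namespace Pool.Agent.P.MP_25cc86_al

variable {G : Type*} [Group G] {D : Set G}

/-- `t` is a commutator of `y` with an element of `D`. -/
def InT (D : Set G) (y t : G) : Prop := ∃ x ∈ D, t = cm x y

/-- `z` centralizes all commutators of `y` with elements of `D`. -/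
def CT (D : Set G) (y z : G) : Prop := ∀ t, InT D y t → Commute t z

/-- `g` is an element of `D` that centralizes `y` and acts trivially modulo the centre. -/
def Gd (D : Set G) (y g : G) : Prop :=
  g ∈ D ∧ Commute y g ∧ ∀ t, InT D y t → CT D y (cm t g)

theorem cj_cm (x y g : G) : cj (cm x y) g = cm (cj x g) (cj y g) := by
  simp only [cj, cm]; group

theorem commute_of_cj {x g : G} (h : cj x g = x) : Commute x g := by
  have : x * g = g * cj x g := by simp only [cj]; group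
  rw [h] at this
  exact this

theorem commute_cm {z a b : G} (h1 : Commute z a) (h2 : Commute z b) : Commute z (cm a b) :=
  (h1.mul_right h2).mul_right (h1.mul_right h2)

theorem commute_cj_right {z a b : G} (h1 : Commute z a) (h2 : Commute z b) :
    Commute z (cj a b) :=
  (h2.inv_right.mul_right h1).mul_right h2

/-- Central involutions drop out of a commutator. -/
theorem cm_mul_mul {t s a b : G} (ha : a * a = 1) (hb : b * b = 1) (h1 : Commute t a)
    (h2 : Commute s a) (h3 : Commute t b) (h4 : Commute s b) (h5 : Commute a b) :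
    cm (t * a) (s * b) = cm t s := by
  have e1 : t * a * (s * b) = t * s * (a * b) := by
    rw [mul_assoc, ← mul_assoc a, ← h2.eq]; simp only [mul_assoc]
  have e2 : Commute (t * s) (a * b) := (h1.mul_left h2).mul_right (h3.mul_left h4)
  have e3 : a * b * (a * b) = 1 := by
    rw [mul_assoc, ← mul_assoc b, ← h5.eq, mul_assoc, hb, mul_one, ha]
  rw [cm, cm, e1]
  generalize t * s = w at e2 ⊢
  generalize a * b = z at e2 e3 ⊢
  rw [mul_assoc, ← mul_assoc z, ← e2.eq, mul_assoc, e3, mul_one]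

namespace IsC

variable (hD : IsC D)
include hD

theorem cj_eq {a b : G} (ha : a ∈ D) (hb : b ∈ D) : cj a b = a * cm a b := by
  rw [hD.cm_eq_cj hb, cancel_sq (hD.sq a ha)]

theorem t_mem {y t : G} (hy : y ∈ D) (h : InT D y t) : t ∈ D := by
  obtain ⟨x, hx, rfl⟩ := h
  exact hD.comm x hx y hy

theorem t_comm {y t : G} (hy : y ∈ D) (h : InT D y t) : Commute y t := by
  obtain ⟨x, hx, rfl⟩ := h
  exact hD.cm_comm_right hx hy

theorem t_cj {y t g : G} (h : InT D y t) (hg : Commute y g) : InT D y (cj t g) := by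
  obtain ⟨x, hx, rfl⟩ := h
  exact ⟨cj x g, hD.conj x hx g, hD.cj_t hg⟩

theorem t_cm (hC : ∀ p ∈ D, ∀ q ∈ D, Commute p q → p * q ∈ D) {y t v : G} (hy : y ∈ D)
    (h : InT D y t) (hv : v ∈ D) (hyv : Commute y v) : InT D y (cm t v) := by
  obtain ⟨x, hx, rfl⟩ := h
  exact ⟨cm x v, hD.comm x hx v hv, hD.t_cl hx hy hv hyv (hC y hy v hv hyv)⟩

theorem ct_cj {y z g : G} (h : CT D y z) (hg : g ∈ D) (hyg : Commute y g) :
    CT D y (cj z g) := by
  intro t ht
  have := commute_cj (h _ (hD.t_cj ht hyg)) g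
  rwa [hD.cj_cj hg] at this

theorem gd_cj {y g c : G} (h : Gd D y g) (hc : c ∈ D) (hyc : Commute y c) :
    Gd D y (cj g c) := by
  refine ⟨hD.conj g h.1 c, commute_cj_right h.2.1 hyc, fun t ht => ?_⟩
  have := hD.ct_cj (h.2.2 _ (hD.t_cj ht hyc)) hc hyc
  rwa [cj_cm, hD.cj_cj hc] at this

/-- An element that is central modulo the centre commutes with commutators. -/
theorem z2_comm {x t s : G} (hx : x ∈ D) (ht : t ∈ D) (hs : s ∈ D) (h1 : Commute s (cm x t))
    (h2 : Commute t (cm x s)) : Commute x (cm t s) := by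
  have a1 : Commute t (cm x t) := hD.cm_comm_right hx ht
  have a2 : Commute s (cm x s) := hD.cm_comm_right hx hs
  have a3 : Commute x (cm x s) := hD.cm_comm_left hx hs
  have a4 : Commute (cm x s) (cm x t) := commute_cm a3.symm h2.symm
  have m1 := hD.comm x hx t ht
  have m2 := hD.comm x hx s hs
  have cjm : ∀ a b g : G, cj (a * b) g = cj a g * cj b g := fun a b g => by
    simp only [cj]; group
  have e1 : cj x (t * s) = x * (cm x s * cm x t) := by
    rw [cj_mul, hD.cj_eq hx ht, cjm, hD.cj_eq hx hs, cj_of_commute h1.symm, mul_assoc]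
  have e2 : Commute (cm x s * cm x t) (t * s) :=
    (h2.symm.mul_right a2.symm).mul_left (a1.symm.mul_right h1.symm)
  refine commute_of_cj ?_
  rw [cm, cj_mul, e1, cjm, e1, cj_of_commute e2, mul_assoc, mul_assoc, ← mul_assoc (cm x t),
    ← a4.eq, mul_assoc, hD.sq _ m1, mul_one, hD.sq _ m2, mul_one]

/-- The action of an involution on a commutator, modulo the second centre. -/
theorem cm_cm_eq {t s x w : G} (ht : t ∈ D) (hs : s ∈ D) (hx : x ∈ D) (hw : w ∈ D)
    (h1 : Commute t x) (h2 : Commute s w) (h3 : Commute x w) (h4 : Commute t (cm x s))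
    (h5 : Commute w (cm x s)) (h6 : Commute s (cm w t)) :
    cm (t * x) (s * w) = cm t s * (cm x s * cm w t) := by
  have a1 : Commute x (cm x s) := hD.cm_comm_left hx hs
  have a2 : Commute s (cm x s) := hD.cm_comm_right hx hs
  have a3 : Commute w (cm w t) := hD.cm_comm_left hw ht
  have a4 : Commute t (cm w t) := hD.cm_comm_right hw ht
  have a5 : Commute x (cm w t) := commute_cm h3 h1.symm
  have a6 : Commute (cm x s) (cm w t) := commute_cm h5.symm h4.symm
  have e1 := hD.swap hx hs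
  have e2 := hD.swap hw ht
  have q1 := hD.sq x hx
  have q2 := hD.sq w hw
  generalize cm x s = c at *
  generalize cm w t = d at *
  have r1 : ∀ g, x * (s * g) = s * (x * (c * g)) := fun g => by
    rw [← mul_assoc, e1]; simp only [mul_assoc]
  have r2 : ∀ g, w * (t * g) = t * (w * (d * g)) := fun g => by
    rw [← mul_assoc, e2]; simp only [mul_assoc]
  have k : ∀ {a b : G}, Commute a b → ∀ g, b * (a * g) = a * (b * g) := fun h g => by
    rw [← mul_assoc, ← h.eq, mul_assoc]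
  have z : t * x * (s * w) * (t * x * (s * w)) * 1 = t * s * (t * s) * (c * d) * 1 := by
    simp only [mul_assoc]
    rw [r1, k h5, k h4, r2, k h1, k a1, k a5, k h3, cancel_sq q1, k a2, k h6, k h2, k h5, k a3,
      cancel_sq q2, k a6]
  simpa only [mul_one, cm] using z

section main

variable (hC : ∀ p ∈ D, ∀ q ∈ D, Commute p q → p * q ∈ D) {y u : G} (hy : y ∈ D)
include hC hy

theorem gd_comm {g t s : G} (hg : Gd D y g) (ht : InT D y t) (hs : InT D y s) :
    Commute (cm t s) g := by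
  have mt := hD.t_mem hy ht
  have ms := hD.t_mem hy hs
  have c1 := hg.2.2 t ht
  have c2 := hg.2.2 s hs
  refine commute_of_cj ?_
  rw [cj_cm, hD.cj_eq mt hg.1, hD.cj_eq ms hg.1]
  exact cm_mul_mul (hD.sq _ (hD.comm t mt g hg.1)) (hD.sq _ (hD.comm s ms g hg.1)) (c1 t ht)
    (c1 s hs) (c2 t ht) (c2 s hs) (c2 _ (hD.t_cm hC hy ht hg.1 hg.2.1))

theorem t_s2 {t v w : G} (ht : InT D y t) (hv : v ∈ D) (hw : w ∈ D) (h1 : Commute y v)
    (h2 : Commute y w) : Commute (cm t v) (cm w v) := by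
  obtain ⟨x, hx, rfl⟩ := ht
  exact hD.s2 hy hx hw hv h2 h1 hC

variable (hu : u ∈ D) (hyu : Commute y u)
  (h1 : ∀ z ∈ D, Commute z u → (∀ g, Gd D y g → Commute z g) → Sig D z y)
include hu hyu h1

omit hu hyu in
theorem ct_of {t s : G} (ht : InT D y t) (hs : InT D y s) (h : Commute (cm t s) u) :
    CT D y (cm t s) := by
  have m := hD.comm t (hD.t_mem hy ht) s (hD.t_mem hy hs)
  have h2 := hD.sig_symm (h1 _ m h fun g hg => hD.gd_comm hC hy hg ht hs)
  rintro _ ⟨x, hx, rfl⟩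
  exact hD.sig_t hy h2 (commute_cm (hD.t_comm hy ht) (hD.t_comm hy hs)) hx

theorem ct_two {t s : G} (ht : InT D y t) (hs : InT D y s) : CT D y (cm (cm t u) s) := by
  have mt := hD.t_mem hy ht
  have ms := hD.t_mem hy hs
  have mx := hD.comm t mt u hu
  refine hD.ct_of hC hy h1 (hD.t_cm hC hy ht hu hyu) hs (commute_of_cj ?_)
  have a1 : Commute (cm t u) u := (show Commute u _ from hD.cm_comm_right mt hu).symm
  have a2 := cj_of_commute (hD.t_s2 hC hy ht hu ms hyu (hD.t_comm hy hs))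
  have ms' : cj s u ∈ D := hD.conj s ms u
  rw [hD.cm_eq_cj (a := s) hu, cj_mul] at a2
  have a3 := congrArg (fun z => cj z (cj s u)) a2
  simp only [hD.cj_cj ms'] at a3
  rw [cj_cm, cj_of_commute a1, hD.cm_eq_cj ms', hD.cm_eq_cj ms, a3]

theorem ct_u {t s : G} (ht : InT D y t) (hs : InT D y s) : CT D y (cm (cm t s) u) := by
  have mt := hD.t_mem hy ht
  have ms := hD.t_mem hy hs
  have c1 := hD.ct_two hC hy hu hyu h1 ht hs
  have c2 := hD.ct_two hC hy hu hyu h1 hs ht
  have e : cm (cm t s) u = cm (cm t u) s * cm (cm s u) t := by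
    rw [hD.cm_eq_cj hu, cj_cm, hD.cj_eq mt hu, hD.cj_eq ms hu,
      hD.cm_cm_eq mt ms (hD.comm t mt u hu) (hD.comm s ms u hu) (hD.cm_comm_left mt hu)
        (hD.cm_comm_left ms hu) (hD.t_s2 hC hy ht hu ms hyu (hD.t_comm hy hs)) (c1 t ht)
        (c1 _ (hD.t_cm hC hy hs hu hyu)) (c2 s hs), cancel_sq (hD.sq _ (hD.comm t mt s ms))]
  rw [e]
  exact fun r hr => (c1 r hr).mul_right (c2 r hr)

theorem ct_three {t s r : G} (ht : InT D y t) (hs : InT D y s) (hr : InT D y r) :
    CT D y (cm (cm t s) r) := by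
  have mt := hD.t_mem hy ht
  have ms := hD.t_mem hy hs
  have mr := hD.t_mem hy hr
  have hb := hD.t_cm hC hy ht ms (hD.t_comm hy hs)
  have mb := hD.comm t mt s ms
  have c := hD.ct_u hC hy hu hyu h1 ht hs
  refine hD.ct_of hC hy h1 hb hr (commute_of_cj ?_)
  rw [cj_cm, hD.cj_eq mb hu, hD.cj_eq mr hu]
  refine cm_mul_mul (hD.sq _ (hD.comm _ mb u hu)) (hD.sq _ (hD.comm r mr u hu)) (c _ hb) (c r hr)
    ?_ (hD.cm_comm_left mr hu) (c _ (hD.t_cm hC hy hr hu hyu)).symm
  exact (hD.z2_comm (hD.comm r mr u hu) mt ms (hD.ct_two hC hy hu hyu h1 hr ht s hs)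
    (hD.ct_two hC hy hu hyu h1 hr hs t ht)).symm

theorem img_one {H : Type*} [Group H] {f : G →* H} (hE : IsC (f '' D))
    (hT : ∀ z ∈ f '' D, Thk (f '' D) z → z = 1) : f y = 1 := by
  have m : ∀ {z}, z ∈ D → f z ∈ f '' D := fun hz => ⟨_, hz, rfl⟩
  have it : ∀ {x}, x ∈ D → InT D y (cm y x) := fun hx => ⟨_, hx, hD.cm_symm hx hy⟩
  have s3 : ∀ b ∈ D, ∀ c ∈ D, ∀ x ∈ D,
      Commute (cm (cm (f y) (f b)) (cm (f y) (f c))) (cm (f y) (f x)) := by
    intro b hb c hc x hx
    have mb := hD.comm _ (hD.comm y hy b hb) _ (hD.comm y hy c hc)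
    have mx := hD.comm y hy x hx
    have c3 := hD.ct_three hC hy hu hyu h1 (it hb) (it hc) (it hx)
    have hv : cj (cm y c) b ∈ D := hD.conj _ (hD.comm y hy c hc) b
    have tk : Thk D (cm (cm (cm y b) (cm y c)) (cm y x)) := by
      rw [(hD.b_facts hy hb hc).1] at c3 ⊢
      exact hD.z2c hy hv hx fun z hz => (c3 _ (it hz)).symm
    simp only [← map_cm]
    refine hE.commute_of_cm (m mb) (m mx) ?_
    rw [← map_cm]
    exact hT _ (m (hD.comm _ mb _ mx)) (tk.image f)
  have s2 : ∀ b ∈ D, ∀ c ∈ D, Commute (cm (f y) (f b)) (cm (f y) (f c)) := by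
    intro b hb c hc
    have mb := hE.comm _ (m hy) _ (m hb)
    have mc := hE.comm _ (m hy) _ (m hc)
    refine hE.commute_of_cm mb mc (hT _ (hE.comm _ mb _ mc) (hE.z2c (m hy) (m hb) (m hc) ?_))
    rintro _ ⟨x, hx, rfl⟩
    exact s3 b hb c hc x hx
  refine hT _ (m hy) ?_
  rintro _ ⟨d, hd, rfl⟩ _ ⟨e, he, rfl⟩
  have a1 : Commute (f y) (cm (f y) (f d)) := hE.cm_comm_left (m hy) (m hd)
  have a2 : Commute (f y) (cm (f y) (f e)) := hE.cm_comm_left (m hy) (m he)
  have a3 : Commute (cj (f y) (f e)) (cj (f y) (f d)) := by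
    rw [hE.cj_eq (m hy) (m he), hE.cj_eq (m hy) (m hd)]
    exact ((Commute.refl _).mul_right a1).mul_left (a2.symm.mul_right (s2 e he d hd))
  have := commute_cj a3 (f e)
  rwa [hE.cj_cj (m he), ← cj_mul] at this

end main

theorem flat_comm (hC : ∀ p ∈ D, ∀ q ∈ D, Commute p q → p * q ∈ D) {u a p q : G} (hu : u ∈ D)
    (ha : a ∈ D) (hp : p ∈ D) (hq : q ∈ D) (c1 : Commute a p) (c2 : Commute a q)
    (c3 : Commute p q) : Commute (cm (cm (cm u a) p) q) u ∧ Commute (cm (cm (cm u a) p) q) a ∧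
      Commute (cm (cm (cm u a) p) q) p ∧ Commute (cm (cm (cm u a) p) q) q := by
  have sw : ∀ {x v w}, x ∈ D → v ∈ D → w ∈ D → Commute v w → cm (cm x v) w = cm (cm x w) v :=
    fun hx hv hw h => hD.t_cl hx hv hw h (hC _ hv _ hw h)
  have mua := hD.comm u hu a ha
  have mup := hD.comm u hu p hp
  refine ⟨?_, ?_, ?_, (show Commute q _ from hD.cm_comm_right (hD.comm _ mua p hp) hq).symm⟩
  · have cjm : ∀ a b g : G, cj (a * b) g = cj a g * cj b g := fun a b g => by
      simp only [cj]; group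
    have k : ∀ {f}, f ∈ D → Commute u (cj u f) := fun hf => hD.comm_cj hu hf
    have hap := hC a ha p hp c1
    rw [hD.cm_eq_cj hq, hD.cm_eq_cj hp, hD.cm_eq_cj ha]
    simp only [cjm, ← cj_mul]
    exact ((((Commute.refl u).mul_right (k ha)).mul_right ((k hp).mul_right (k hap))).mul_right
      (((k hq).mul_right (k (hC a ha q hq c2))).mul_right ((k (hC p hp q hq c3)).mul_right
        (k (hC _ hap q hq (c2.mul_left c3)))))).symm
  · rw [sw hu ha hp c1, sw mup ha hq c2]
    exact (show Commute a _ from hD.cm_comm_right (hD.comm _ mup q hq) ha).symm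
  · rw [sw mua hp hq c3]
    exact (show Commute p _ from hD.cm_comm_right (hD.comm _ mua q hq) hp).symm

end IsC

end Pool.Agent.P.MP_25cc86_al
end

-- part Pool.Agent.P.MP_25cc86_al.Lv5
section

/-! The flat subgroup acts trivially modulo the centre. -/

namespace Pool.Agent.P.MP_25cc86_al

variable {G : Type*} [Group G] {D : Set G}

theorem cj_mul_left (a b g : G) : cj (a * b) g = cj a g * cj b g := by
  simp only [cj]; group

theorem cj_one (a : G) : cj a 1 = a := by simp [cj]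

theorem prod_ten (φ : Fin 4 → Fin 4 → G) (h : ∀ i j k l, Commute (φ i j) (φ k l)) :
    φ 1 1 * φ 0 1 * (φ 1 0 * φ 0 0) * (φ 2 2 * φ 0 2 * (φ 2 0 * φ 0 0)) *
      (φ 3 3 * φ 0 3 * (φ 3 0 * φ 0 0)) =
    φ 0 3 * φ 0 2 * (φ 0 1 * φ 0 0) * (φ 3 0 * φ 2 0 * (φ 1 0 * φ 0 0)) *
      (φ 0 0 * φ 1 1 * (φ 2 2 * φ 3 3)) := by
  have hp : ([(1, 1), (0, 1), (1, 0), (0, 0), (2, 2), (0, 2), (2, 0), (0, 0), (3, 3), (0, 3),
      (3, 0), (0, 0)] : List (Fin 4 × Fin 4)).Perm [(0, 3), (0, 2), (0, 1), (0, 0), (3, 0),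
      (2, 0), (1, 0), (0, 0), (0, 0), (1, 1), (2, 2), (3, 3)] := by decide
  have := (hp.map fun z => φ z.1 z.2).prod_eq'
    (List.pairwise_map.2 (List.pairwise_of_forall fun a b => h _ _ _ _))
  simpa only [List.map_cons, List.map_nil, List.prod_cons, List.prod_nil, mul_one, mul_assoc]
    using this

namespace IsC

variable (hD : IsC D) (hC : ∀ p ∈ D, ∀ q ∈ D, Commute p q → p * q ∈ D)
include hD hC

theorem star {a s z f : G} (ha : a ∈ D) (hs : InT D a s) (hz : z ∈ D) (hf : f ∈ D)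
    (h1 : Commute a z) (h2 : Commute a f) : Commute (cm s z) (cj s f) := by
  have ms := hD.t_mem ha hs
  obtain ⟨x, hx, rfl⟩ := hs
  have h3 := commute_cj (hD.s3 ha hx hz hf h1 h2 hC) f
  rw [cj_mul, hD.cj_cj hf] at h3
  rw [hD.cm_eq_cj hz]
  exact (hD.comm_cj ms hf).mul_left h3.symm

theorem exp_r {a s x f : G} (ha : a ∈ D) (hs : InT D a s) (hx : x ∈ D) (hf : f ∈ D)
    (h1 : Commute a x) (h2 : Commute a f) : cm x (cm s f) = cm x (cj s f) * cm x s := by
  have ms := hD.t_mem ha hs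
  have h3 := hD.star hC ha hs hx hf h1 h2
  rw [hD.cm_symm hx ms] at h3
  rw [hD.cm_eq_cj (hD.comm s ms f hf), hD.cm_eq_cj hf, cj_mul, hD.cj_eq hx ms, cj_mul_left,
    cj_of_commute h3, ← mul_assoc, ← hD.cm_eq_cj (show cj s f ∈ D from hD.conj s ms f)]

theorem exp_l {a s x f : G} (ha : a ∈ D) (hs : InT D a s) (hx : x ∈ D) (hf : f ∈ D)
    (h1 : Commute a x) (h2 : Commute a f) : cm (cm s f) x = cm (cj s f) x * cm s x := by
  have ms := hD.t_mem ha hs
  rw [hD.cm_symm hx (hD.comm s ms f hf), hD.exp_r hC ha hs hx hf h1 h2,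
    hD.cm_symm hx (show cj s f ∈ D from hD.conj s ms f), hD.cm_symm hx ms]

theorem star' {a s z f g : G} (ha : a ∈ D) (hs : InT D a s) (hz : z ∈ D) (hf : f ∈ D)
    (hg : g ∈ D) (h1 : Commute a z) (h2 : Commute a f) (h3 : Commute a g) (h4 : Commute f g) :
    Commute (cm (cj s f) z) (cj s g) := by
  have := hD.star hC ha (hD.t_cj hs h2) hz (hC f hf g hg h4) h1 (h2.mul_right h3)
  rwa [cj_mul, hD.cj_cj hf] at this

/-- The product formula in the star of `a`. -/
theorem tau_eq {a x m p q : G} (ha : a ∈ D) (hx : InT D a x) (hm : InT D a m) (hp : p ∈ D)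
    (hq : q ∈ D) (c1 : Commute a p) (c2 : Commute a q) (c3 : Commute p q) :
    cm (cm x p) (cm m p) * cm (cm x q) (cm m q) * cm (cm x (p * q)) (cm m (p * q)) =
      cm x (cm (cm m p) q) * cm (cm (cm x p) q) m * cm (cm (cm x m) p) q := by
  have mx := hD.t_mem ha hx
  have mm := hD.t_mem ha hm
  have ax := hD.t_comm ha hx
  have am := hD.t_comm ha hm
  have hr := hC p hp q hq c3
  have c4 := c1.mul_right c2
  have h1 : (1 : G) ∈ D := hD.sq p hp ▸ hC p hp p hp (Commute.refl p)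
  have gD : ∀ i : Fin 4, (![1, p, q, p * q] : Fin 4 → G) i ∈ D := fun i => by
    fin_cases i <;> assumption
  have ga : ∀ i : Fin 4, Commute a ((![1, p, q, p * q] : Fin 4 → G) i) := fun i => by
    fin_cases i
    exacts [Commute.one_right a, c1, c2, c4]
  have gp : ∀ i : Fin 4, Commute p ((![1, p, q, p * q] : Fin 4 → G) i) := fun i => by
    fin_cases i
    exacts [Commute.one_right p, Commute.refl p, c3, (Commute.refl p).mul_right c3]
  have gq : ∀ i : Fin 4, Commute q ((![1, p, q, p * q] : Fin 4 → G) i) := fun i => by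
    fin_cases i
    exacts [Commute.one_right q, c3.symm, Commute.refl q, c3.symm.mul_right (Commute.refl q)]
  have gg : ∀ i j : Fin 4, Commute ((![1, p, q, p * q] : Fin 4 → G) i)
      ((![1, p, q, p * q] : Fin 4 → G) j) := fun i j => by
    fin_cases i
    exacts [Commute.one_left _, gp j, gq j, (gp j).mul_left (gq j)]
  have key := prod_ten (fun i j => cm (cj x ((![1, p, q, p * q] : Fin 4 → G) i))
      (cj m ((![1, p, q, p * q] : Fin 4 → G) j))) fun i j k l => by
    have mi : cj x ((![1, p, q, p * q] : Fin 4 → G) i) ∈ D := hD.conj x mx _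
    have mj : cj m ((![1, p, q, p * q] : Fin 4 → G) j) ∈ D := hD.conj m mm _
    refine commute_cm (hD.star' hC ha hx mj (gD i) (gD k) (commute_cj_right am (ga j)) (ga i)
      (ga k) (gg i k)) ?_
    rw [hD.cm_symm mj mi]
    exact hD.star' hC ha hm mi (gD j) (gD l) (commute_cj_right ax (ga i)) (ga j) (ga l) (gg j l)
  simp only [Matrix.cons_val_zero, Matrix.cons_val_one, Matrix.cons_val, cj_one] at key
  have ec : ∀ {f}, f ∈ D → Commute a f → cm (cm x f) (cm m f) =
      cm (cj x f) (cj m f) * cm x (cj m f) * (cm (cj x f) m * cm x m) := fun hf h => by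
    rw [hD.exp_r hC ha hm (hD.comm x mx _ hf) hf (commute_cm ax h) h,
      hD.exp_l hC ha hx (x := cj m _) (hD.conj m mm _) hf (commute_cj_right am h) h,
      hD.exp_l hC ha hx mm hf am h]
  have eq : ∀ s, cj (cm s p) q = cm (cj s q) p := fun s => by
    rw [cj_cm, cj_of_commute c3]
  have er : ∀ s, cj (cj s q) p = cj s (p * q) := fun s => by rw [← cj_mul, c3.eq]
  rw [ec hp c1, ec hq c2, ec hr c4, key, hD.exp_r hC ha (hD.t_cm hC ha hm hp c1) mx hq ax c2,
    hD.exp_l hC ha (hD.t_cm hC ha hx hp c1) mm hq am c2, eq, eq,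
    hD.exp_r hC ha (hD.t_cj hm c2) mx hp ax c1, hD.exp_r hC ha hm mx hp ax c1,
    hD.exp_l hC ha (hD.t_cj hx c2) mm hp am c1, hD.exp_l hC ha hx mm hp am c1, er, er,
    hD.cm_eq_cj (a := cm (cm x m) p) hq, hD.cm_eq_cj (a := cm x m) hp, cj_mul_left, ← cj_mul,
    cj_cm x m p, cj_cm x m q, cj_cm x m (p * q)]

theorem norm_t {y v f g : G} (hv : v ∈ D) (hf : f ∈ D) (hg : g ∈ D) (c : Commute f g)
    (hy : y = cm (cm v f) g) (h1 : Commute y f) (h2 : Commute y g) :
    ∀ x ∈ D, cm (cm (cm x y) f) g = 1 := by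
  intro x hx
  have my : y ∈ D := hy ▸ hD.comm _ (hD.comm v hv f hf) g hg
  have mx := hD.comm x hx f hf
  rw [hD.t_cl hx my hf h1 (hC y my f hf h1), hD.t_cl mx my hg h2 (hC y my g hg h2)]
  refine hD.cm_eq_one (hD.comm _ mx g hg) my ?_
  rw [hy]
  exact hD.nn hx hv hf hg c hC

theorem flat_gd {u a p q : G} (hu : u ∈ D) (ha : a ∈ D) (hp : p ∈ D) (hq : q ∈ D)
    (c1 : Commute a p) (c2 : Commute a q) (c3 : Commute p q) :
    Gd D (cm (cm (cm u a) p) q) a := by
  obtain ⟨yu, ya, yp, yq⟩ := hD.flat_comm hC hu ha hp hq c1 c2 c3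
  refine ⟨ha, ya, ?_⟩
  rintro _ ⟨e, he, rfl⟩ _ ⟨d, hd, rfl⟩
  have sw : ∀ {x v w}, x ∈ D → v ∈ D → w ∈ D → Commute v w → cm (cm x v) w = cm (cm x w) v :=
    fun hx hv hw h => hD.t_cl hx hv hw h (hC _ hv _ hw h)
  have mua := hD.comm u hu a ha
  have mup := hD.comm u hu p hp
  have muq := hD.comm u hu q hq
  have mea := hD.comm e he a ha
  have hr := hC p hp q hq c3
  have e1 : cm (cm (cm u a) p) q = cm (cm (cm u p) a) q := by rw [sw hu ha hp c1]
  have e2 : cm (cm (cm u a) p) q = cm (cm (cm u q) a) p := by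
    rw [sw mua hp hq c3, sw hu ha hq c2]
  have e3 : cm (cm (cm u a) p) q = cm (cm (cm u p) a) (p * q) := by
    have : Commute (cm (cm u a) p) p := (show Commute p _ from hD.cm_comm_right mua hp).symm
    rw [← sw hu ha hp c1, hD.cm_eq_cj hr, hD.cm_eq_cj hq, cj_mul, cj_of_commute this]
  have e4 : cm (cm (cm e a) p) q = cm (cm (cm e p) q) a := by
    rw [sw he ha hp c1, sw (hD.comm e he p hp) ha hq c2]
  have hy := hD.comm _ (hD.comm _ mua p hp) q hq
  have key := hD.tau_eq hC ha ⟨e, he, rfl⟩ ⟨u, hu, rfl⟩ hp hq c1 c2 c3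
  have n0 := hD.nn mua he hp hq c3 hC
  have n1 := hD.norm_t hC mua hp hq c3 rfl yp yq
  generalize cm (cm (cm u a) p) q = y at *
  have sc : ∀ {f v}, f ∈ D → v ∈ D → Commute a f → Commute y f → y = cm (cm v a) f →
      Sig D y (cm (cm (cm e a) f) (cm (cm u a) f)) := fun hf hv h1 h2 h3 => by
    rw [hD.cm_symm (hD.comm _ mua _ hf) (hD.comm _ mea _ hf)]
    refine hD.sig_cm (hD.b1 hy hu ha hf yu ya h2 h1 (hD.norm_t hC hv ha hf h1 h3 ya h2) hC)
      (hD.comm _ mea _ hf) ?_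
    rw [h3]
    exact hD.nn hv he ha hf h1 hC
  have sb : Sig D y (cm (cm (cm (cm e a) p) q) (cm u a)) := by
    rw [e4]
    exact hD.b2 hy ha (hD.comm _ (hD.comm e he p hp) q hq) hu ya n0 yu hC
  have ym := commute_cm yu ya
  have mk := hD.comm _ mea _ mua
  have yk : Commute y (cm (cm e a) (cm u a)) := by
    refine (hD.commute_of_cm mk hy ?_).symm
    rw [← sw mea hy mua ym, ← sw he hy ha ya]
    exact hD.cm_eq_one (hD.comm _ (hD.comm e he y hy) a ha) mua (hD.s2 hy he hu ha yu ya hC)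
  have sn := hD.b1 hy mk hp hq yk yp yq c3 n1 hC
  have s1 := hD.sig_mul (hD.sig_mul (sc hp muq c1 yp e2) (sc hq mup c2 yq e1))
    (sc hr mup (c1.mul_right c2) (yp.mul_right yq) e3)
  have s2 := hD.sig_mul (hD.sig_mul s1 sn) sb
  rw [key, mul_assoc _ _ (cm (cm (cm (cm e a) (cm u a)) p) q),
    hD.sq _ (hD.comm _ (hD.comm _ mk p hp) q hq), mul_one, mul_assoc,
    hD.sq _ (hD.comm _ (hD.comm _ (hD.comm _ mea p hp) q hq) _ mua), mul_one] at s2
  rw [sw he hy ha ya]
  exact hD.sig_t hy s2 (hD.cm_comm_right mea hy) hd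

end IsC

end Pool.Agent.P.MP_25cc86_al
end

-- part Pool.Agent.P.MP_25cc86_al.Lv6
section

/-! The lemma on norms of rank three and the finiteness theorem. -/

namespace Pool.Agent.P.MP_25cc86_al

variable {G : Type*} [Group G] {D : Set G}

theorem prod_eight (φ : Fin 3 → Fin 8 → G) (h : ∀ i j k l, Commute (φ i j) (φ k l))
    (h0 : φ 0 0 * φ 0 0 = 1) (h1 : φ 1 0 * φ 1 0 = 1)
    (n1 : φ 1 0 * φ 1 1 * (φ 1 2 * φ 1 3) * (φ 1 4 * φ 1 5 * (φ 1 6 * φ 1 7)) = 1)
    (n2 : φ 2 0 * φ 2 1 * (φ 2 2 * φ 2 3) * (φ 2 4 * φ 2 5 * (φ 2 6 * φ 2 7)) = 1)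
    (c : Fin 8 → G) (hc : ∀ j, c j = φ 0 0 * (φ 1 j * (φ 1 0 * φ 2 j))) :
    c 0 * c 1 * (c 2 * c 3) * (c 4 * c 5 * (c 6 * c 7)) = 1 := by
  have hp : ([(0, 0), (1, 0), (1, 0), (2, 0), (0, 0), (1, 1), (1, 0), (2, 1), (0, 0), (1, 2),
      (1, 0), (2, 2), (0, 0), (1, 3), (1, 0), (2, 3), (0, 0), (1, 4), (1, 0), (2, 4), (0, 0),
      (1, 5), (1, 0), (2, 5), (0, 0), (1, 6), (1, 0), (2, 6), (0, 0), (1, 7), (1, 0), (2, 7)] :
      List (Fin 3 × Fin 8)).Perm [(0, 0), (0, 0), (0, 0), (0, 0), (0, 0), (0, 0), (0, 0), (0, 0),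
      (1, 0), (1, 0), (1, 0), (1, 0), (1, 0), (1, 0), (1, 0), (1, 0), (1, 0), (1, 1), (1, 2),
      (1, 3), (1, 4), (1, 5), (1, 6), (1, 7), (2, 0), (2, 1), (2, 2), (2, 3), (2, 4), (2, 5),
      (2, 6), (2, 7)] := by decide
  have := (hp.map fun z => φ z.1 z.2).prod_eq'
    (List.pairwise_map.2 (List.pairwise_of_forall fun a b => h _ _ _ _))
  simp only [List.map_cons, List.map_nil, List.prod_cons, List.prod_nil, mul_one] at this
  simp only [hc, mul_assoc] at n1 n2 ⊢
  rw [this, n2, mul_one, cancel_sq h0, cancel_sq h0, cancel_sq h0, cancel_sq h0, cancel_sq h1,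
    cancel_sq h1, cancel_sq h1, cancel_sq h1, n1]

/-- Displacements add up. -/
theorem cj_add {s g h c d : G} (h1 : cj s g = s * c) (h2 : cj s h = s * d) (h3 : Commute d g)
    (h4 : Commute g h) : cj s (g * h) = s * (c * d) := by
  rw [h4.eq, cj_mul, h2, cj_mul_left, h1, cj_of_commute h3, mul_assoc]

namespace IsC

variable (hD : IsC D) (hC : ∀ p ∈ D, ∀ q ∈ D, Commute p q → p * q ∈ D)
include hD hC

theorem mod_eight {z s u : G} (hz : z ∈ D) (hs : InT D z s) (hu : u ∈ D) (zu : Commute z u)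
    (g : Fin 8 → G) (g0 : g 0 = 1) (gD : ∀ i, g i ∈ D) (gz : ∀ i, Commute z (g i))
    (gg : ∀ i j, Commute (g i) (g j))
    (hn : ∀ t, InT D z t → cj t (g 0) * cj t (g 1) * (cj t (g 2) * cj t (g 3)) *
      (cj t (g 4) * cj t (g 5) * (cj t (g 6) * cj t (g 7))) = 1) :
    Commute s (cj u (g 0) * cj u (g 1) * (cj u (g 2) * cj u (g 3)) *
      (cj u (g 4) * cj u (g 5) * (cj u (g 6) * cj u (g 7)))) := by
  have ms := hD.t_mem hz hs
  have mu : ∀ i, cj u (g i) ∈ D := fun i => hD.conj u hu _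
  have zi : ∀ i, Commute z (cj u (g i)) := fun i => commute_cj_right zu (gz i)
  have m2 : ∀ i j, g i * g j ∈ D := fun i j => hC _ (gD i) _ (gD j) (gg i j)
  have ej : ∀ (x : G) i j, cj (cj x (g i)) (g i * g j) = cj x (g j) := fun x i j => by
    rw [cj_mul, hD.cj_cj (gD i)]
  have uu : ∀ i j, Commute (cj u (g i)) (cj u (g j)) := fun i j => by
    rw [← ej u i j]; exact hD.comm_cj (mu i) (m2 i j)
  have cu : ∀ i j, Commute (cm s (cj u (g i))) (cj u (g j)) := fun i j => by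
    rw [← ej u i j, hD.cj_eq (mu i) (m2 i j), ← hD.cm_symm (mu i) (m2 i j)]
    exact (show Commute _ _ from hD.cm_comm_right ms (mu i)).symm.mul_right
      (hD.t_s2 hC hz hs (mu i) (m2 i j) (zi i) ((gz i).mul_right (gz j)))
  have s3 : ∀ {t v w}, InT D z t → v ∈ D → w ∈ D → Commute z v → Commute z w →
      Commute t (cj t (v * w)) := fun ⟨x, hx, e⟩ hv hw h1 h2 =>
    e ▸ hD.s3 hz hx hv hw h1 h2 hC
  have hsu := hD.t_cj hs zu
  have msu := hD.t_mem hz hsu
  have b01 : ∀ l, Commute s (cj (cj s u) (g l)) := fun l => by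
    rw [← cj_mul]; exact s3 hs hu (gD l) zu (gz l)
  have b02 : ∀ l, Commute s (cj (cj s (g l)) u) := fun l => by
    rw [← cj_mul]; exact s3 hs (gD l) hu (gz l) zu
  have bt : ∀ {t}, t ∈ D → ∀ j l, Commute (cj t (g j)) (cj t (g l)) := fun ht j l => by
    rw [← ej _ j l]; exact hD.comm_cj (hD.conj _ ht _) (m2 j l)
  have b12 : ∀ j l, Commute (cj (cj s u) (g j)) (cj (cj s (g l)) u) := fun j l => by
    have h1 := commute_cj (commute_cj (s3 hs (gD l) (hD.conj _ (gD j) u) (gz l)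
      (commute_cj_right (gz j) zu)) u) (g j)
    have h2 : cj (cj (cj s (g l * (u⁻¹ * g j * u))) u) (g j) = cj (cj s (g l)) u := by
      rw [← cj_mul, ← cj_mul, ← cj_mul, inv_of_sq (hD.sq u hu)]
      simp only [mul_assoc, cancel_sq (hD.sq u hu), hD.sq _ (gD j), mul_one]
    rwa [h2] at h1
  have key := prod_eight (fun i j => (![s, cj (cj s u) (g j), cj (cj s (g j)) u] : Fin 3 → G) i)
    (fun i j k l => by
      fin_cases i <;> fin_cases k
      exacts [Commute.refl s, b01 l, b02 l, (b01 j).symm, bt msu j l, b12 j l, (b02 j).symm,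
        (b12 l j).symm, commute_cj (bt ms j l) u])
    (hD.sq s ms) (hD.sq _ (hD.conj _ msu _)) (hn _ hsu)
    (by
      have := congrArg (fun x => cj x u) (hn s hs)
      simp only [cj_mul_left] at this
      exact this.trans (by simp [cj]))
    (fun j => cm s (cj u (g j))) fun j => by
      have h1 := commute_cj (hD.t_s2 hC hz hs (gD j) hu (gz j) zu) u
      have h2 : Commute (cj (cm s (g j)) u) (cj (g j) u) :=
        commute_cj (show Commute _ _ from hD.cm_comm_right ms (gD j)).symm u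
      have h3 : cj (g j) u * cj (cm u (g j)) u = g j := by
        rw [← cj_mul_left, hD.cm_symm (gD j) hu, ← hD.cj_eq (gD j) hu, hD.cj_cj hu]
      have h4 := cj_of_commute (h2.mul_right h1)
      rw [h3, hD.cm_eq_cj (gD j), cj_mul_left, cj_mul_left] at h4
      have h5 : cj s (cj u (g j)) = cj (cj (cj s (g j)) u) (g j) := by
        rw [← cj_mul, ← cj_mul, cj, cj, cj, inv_of_sq (hD.sq _ (gD j)), mul_assoc (g j)]
      change _ = s * (cj (cj s u) (g j) * (cj (cj s u) (g 0) * cj (cj s (g j)) u))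
      rw [hD.cm_eq_cj (mu j), h5, g0, cj_one, ← h4,
        cancel_sq (hD.sq (cj (cj s u) (g j)) (hD.conj _ msu _))]
  have e : ∀ i, cj s (cj u (g i)) = s * cm s (cj u (g i)) := fun i => hD.cj_eq ms (mu i)
  have e2 : ∀ i j, cj s (cj u (g i) * cj u (g j)) =
      s * (cm s (cj u (g i)) * cm s (cj u (g j))) := fun i j =>
    cj_add (e i) (e j) (cu j i) (uu i j)
  have c2 : ∀ i j k l, Commute (cm s (cj u (g i)) * cm s (cj u (g j)))
      (cj u (g k) * cj u (g l)) := fun i j k l =>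
    ((cu i k).mul_right (cu i l)).mul_left ((cu j k).mul_right (cu j l))
  have u2 : ∀ i j k l, Commute (cj u (g i) * cj u (g j)) (cj u (g k) * cj u (g l)) :=
    fun i j k l => ((uu i k).mul_right (uu i l)).mul_left ((uu j k).mul_right (uu j l))
  refine commute_of_cj ?_
  rw [cj_add (cj_add (e2 0 1) (e2 2 3) (c2 _ _ _ _) (u2 _ _ _ _))
    (cj_add (e2 4 5) (e2 6 7) (c2 _ _ _ _) (u2 _ _ _ _))
    (((c2 _ _ _ _).mul_right (c2 _ _ _ _)).mul_left ((c2 _ _ _ _).mul_right (c2 _ _ _ _)))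
    (((u2 _ _ _ _).mul_right (u2 _ _ _ _)).mul_left ((u2 _ _ _ _).mul_right (u2 _ _ _ _))),
    key, mul_one]

theorem flat_sig {u a p q z : G} (hu : u ∈ D) (ha : a ∈ D) (hp : p ∈ D) (hq : q ∈ D)
    (hz : z ∈ D) (c1 : Commute a p) (c2 : Commute a q) (c3 : Commute p q) (zu : Commute z u)
    (za : Commute z a) (zp : Commute z p) (zq : Commute z q)
    (hn : ∀ x ∈ D, Commute z (cm (cm (cm x a) p) q)) : Sig D z (cm (cm (cm u a) p) q) := by
  have hap := hC a ha p hp c1
  have h1 : (1 : G) ∈ D := hD.sq p hp ▸ hC p hp p hp (Commute.refl p)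
  have en : ∀ x : G, cm (cm (cm x a) p) q = cj x 1 * cj x a * (cj x p * cj x (a * p)) *
      (cj x q * cj x (a * q) * (cj x (p * q) * cj x (a * p * q))) := fun x => by
    rw [hD.cm_eq_cj hq, hD.cm_eq_cj hp, hD.cm_eq_cj ha]
    simp only [cj_mul_left, ← cj_mul, cj_one]
  have all : ∀ {w : G}, Commute w a → Commute w p → Commute w q → ∀ i : Fin 8,
      Commute w ((![1, a, p, a * p, q, a * q, p * q, a * p * q] : Fin 8 → G) i) :=
    fun k1 k2 k3 i => by
      fin_cases i
      exacts [Commute.one_right _, k1, k2, k1.mul_right k2, k3, k1.mul_right k3,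
        k2.mul_right k3, (k1.mul_right k2).mul_right k3]
  refine hD.sig_of hz (hn u hu) fun x hx => ?_
  rw [en u]
  refine hD.mod_eight hC hz ⟨x, hx, rfl⟩ hu zu ![1, a, p, a * p, q, a * q, p * q, a * p * q] rfl
    (fun i => ?_) (all za zp zq) (fun i j => ?_) ?_
  · fin_cases i
    exacts [h1, ha, hp, hap, hq, hC a ha q hq c2, hC p hp q hq c3,
      hC _ hap q hq (c2.mul_left c3)]
  · exact all (all (Commute.refl a) c1 c2 i).symm (all c1.symm (Commute.refl p) c3 i).symm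
      (all c2.symm c3.symm (Commute.refl q) i).symm j
  · rintro _ ⟨d, hd, rfl⟩
    have mda := hD.comm d hd a ha
    have mdp := hD.comm _ mda p hp
    refine (en (cm d z)).symm.trans ?_
    rw [hD.t_cl hd hz ha za (hC z hz a ha za), hD.t_cl mda hz hp zp (hC z hz p hp zp),
      hD.t_cl mdp hz hq zq (hC z hz q hq zq)]
    exact hD.cm_eq_one (hD.comm _ mdp q hq) hz (hn d hd).symm

/-- The norm of rank three dies in a quotient without thick elements. -/
theorem norm_one {H : Type*} [Group H] {f : G →* H} (hE : IsC (f '' D))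
    (hT : ∀ z ∈ f '' D, Thk (f '' D) z → z = 1) :
    ∀ u ∈ D, ∀ a ∈ D, ∀ p ∈ D, ∀ q ∈ D, Commute a p → Commute a q → Commute p q →
      cm (cm (cm (f u) (f a)) (f p)) (f q) = 1 := by
  intro u hu a ha p hp q hq c1 c2 c3
  have sw : ∀ {x v w}, x ∈ D → v ∈ D → w ∈ D → Commute v w → cm (cm x v) w = cm (cm x w) v :=
    fun hx hv hw h => hD.t_cl hx hv hw h (hC _ hv _ hw h)
  have mua := hD.comm u hu a ha
  have ga := hD.flat_gd hC hu ha hp hq c1 c2 c3
  have gp := hD.flat_gd hC hu hp ha hq c1.symm c3 c2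
  have gq := hD.flat_gd hC hu hq ha hp c2.symm c3.symm c1
  rw [← sw hu ha hp c1] at gp
  rw [← sw hu ha hq c2, ← sw mua hp hq c3] at gq
  simp only [← map_cm]
  refine hD.img_one hC (hD.comm _ (hD.comm _ mua p hp) q hq) hu
    (hD.flat_comm hC hu ha hp hq c1 c2 c3).1 (fun z hz hzu hg => ?_) hE hT
  refine hD.flat_sig hC hu ha hp hq hz c1 c2 c3 hzu (hg a ga) (hg p gp) (hg q gq) fun x hx => ?_
  have mv := hD.comm _ (hD.comm x hx p hp) q hq
  rw [sw hx ha hp c1, sw (hD.comm x hx p hp) ha hq c2, hD.cm_symm ha mv, hD.cm_eq_cj mv]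
  exact (hg a ga).mul_right (hg _ (hD.gd_cj ga mv (hD.nn mua hx hp hq c3 hC)))

/-- The finiteness theorem. -/
theorem finite_two {n : ℕ} (x : Fin n → G) (hx : ∀ i, x i ∈ D)
    (hgen : Subgroup.closure (Set.range x) = ⊤) : Finite G ∧ IsPGroup 2 G := by
  refine hD.final x hx hgen fun M _ hT a ha => ?_
  have hE := hD.image _ (QuotientGroup.mk'_surjective M)
  exact law_one hD hC hE (hD.norm_one hC hE hT) hT ⟨a, ha, rfl⟩

end IsC

end Pool.Agent.P.MP_25cc86_al
end
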